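import Mathlib

set_option autoImplicit false

/-!
# Definitions: linear extensions, balance constant, the class `𝒟`, width two
-/

namespace Pool.Agent.Gap

/-- `prob P x y` is the probability that `x` comes before `y` in a linear extension of the finite
poset `P` chosen uniformly at random; a linear extension is an order-preserving bijection from `P`
onto `{0, …, |P| - 1}`. -/
noncomputable def prob (P : Type) [Fintype P] [PartialOrder P] (x y : P) : ℝ :=
  (Nat.card {e : P ≃ Fin (Fintype.card P) // Monotone e ∧ e x < e y} : ℝ) /
    (Nat.card {e : P ≃ Fin (Fintype.card P) // Monotone e} : ℝ)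

/-- The balance constant: the maximum over all pairs `(x, y)` of
`min (prob x y) (prob y x)`. -/
noncomputable def balance (P : Type) [Fintype P] [PartialOrder P] : ℝ :=
  ⨆ q : P × P, min (prob P q.1 q.2) (prob P q.2 q.1)

/-- The class `𝒟`: posets isomorphic to a direct (ordinal) sum `S₁ ⊕ ⋯ ⊕ S_k` with `k ≥ 1`, where
each `Sᵢ` is isomorphic to the one-element poset or to the three-element poset with exactly one
relation (the disjoint union of a two-element chain and a point). The direct sum is the
lexicographic sum over the index chain `Fin k`. -/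
def InD (P : Type) [PartialOrder P] : Prop :=
  ∃ (k : ℕ) (S : Fin k → Type) (_ : ∀ i, PartialOrder (S i)), 1 ≤ k ∧
    (∀ i, Nonempty (S i ≃o Fin 1) ∨ Nonempty (S i ≃o (Fin 2 ⊕ Fin 1))) ∧
    Nonempty (P ≃o (Σₗ i, S i))

/-- `P` has width at most two: no antichain has more than two elements. -/
def WidthLeTwo (P : Type) [PartialOrder P] : Prop :=
  ∀ s : Finset P, IsAntichain (· ≤ ·) (s : Set P) → s.card ≤ 2

/-- `M` is autonomous (a module) in `P`: every element outside `M` is below all elements of `M`,
above all elements of `M`, or incomparable to all elements of `M`. -/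
def Autonomous (P : Type) [PartialOrder P] (M : Set P) : Prop :=
  ∀ x, x ∉ M → (∀ y ∈ M, x < y) ∨ (∀ y ∈ M, y < x) ∨ (∀ y ∈ M, ¬ x ≤ y ∧ ¬ y ≤ x)

end Pool.Agent.Gap
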