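import Mathlib
import Pool.Agent.Lib_MP_33fb9b_gap.Defs

set_option autoImplicit false

/-!
# Random linear extensions restricted to an autonomous set are uniform
-/

namespace Pool.Agent.Gap

open Classical

variable {P : Type} [Fintype P] [PartialOrder P]

/-- two order-compatible enumerations agree -/
theorem enum_unique {M : Type} {h : ℕ} (R : M → M → Prop) (σ τ : M ≃ Fin h)
    (hσ : ∀ x y, σ x < σ y ↔ R x y) (hτ : ∀ x y, τ x < τ y ↔ R x y) : σ = τ := by
  let f : Fin h ≃o Fin h :=
    { toEquiv := σ.symm.trans τ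
      map_rel_iff' := by
        intro a b
        show τ (σ.symm a) ≤ τ (σ.symm b) ↔ a ≤ b
        rw [← not_lt, ← not_lt, hτ, ← hσ]
        simp }
  have hf : f = OrderIso.refl (Fin h) := Subsingleton.elim _ _
  apply Equiv.ext
  intro x
  have := congrArg (fun g : Fin h ≃o Fin h => g (σ x)) hf
  have h2 : f (σ x) = τ x := by
    show τ (σ.symm (σ x)) = τ x
    simp
  rw [← h2]
  exact this.symm

omit [PartialOrder P] in
/-- existence of the rank enumeration -/
theorem enum_exists (M : Set P) [Fintype M] (e : P ≃ Fin (Fintype.card P)) :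
    ∃ σ : M ≃ Fin (Fintype.card M), ∀ x y : M, σ x < σ y ↔ e x < e y := by
  let s : Finset (Fin (Fintype.card P)) := Finset.univ.filter fun j => e.symm j ∈ M
  let E' : M ≃ s :=
    { toFun := fun x => ⟨e x, by simp [s]⟩
      invFun := fun j => ⟨e.symm j, by
        have := j.2
        simp only [s, Finset.mem_filter] at this
        exact this.2⟩
      left_inv := fun x => by simp
      right_inv := fun j => by simp }
  have hs : s.card = Fintype.card M := by
    rw [← Fintype.card_coe]
    exact (Fintype.card_congr E').symm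
  refine ⟨E'.trans (s.orderIsoOfFin hs).symm.toEquiv, ?_⟩
  intro x y
  show (s.orderIsoOfFin hs).symm (E' x) < (s.orderIsoOfFin hs).symm (E' y) ↔ _
  rw [OrderIso.lt_iff_lt]
  rfl

/-- the rank enumeration of `M` induced by `e` -/
noncomputable def rho (M : Set P) [Fintype M] (e : P ≃ Fin (Fintype.card P)) :
    M ≃ Fin (Fintype.card M) := (enum_exists M e).choose

theorem rho_spec (M : Set P) [Fintype M] (e : P ≃ Fin (Fintype.card P)) (x y : M) :
    rho M e x < rho M e y ↔ e x < e y := (enum_exists M e).choose_spec x y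

/-- rearrange `M` inside the enumeration `e` according to `τ` -/
noncomputable def rearr (M : Set P) [Fintype M] (e : P ≃ Fin (Fintype.card P))
    (τ : M ≃ Fin (Fintype.card M)) : P ≃ Fin (Fintype.card P) :=
  (Equiv.Perm.ofSubtype (p := fun x => x ∈ M) (τ.trans (rho M e).symm)).trans e

theorem rearr_mem (M : Set P) [Fintype M] (e : P ≃ Fin (Fintype.card P))
    (τ : M ≃ Fin (Fintype.card M)) (x : M) :
    rearr M e τ x = e ((rho M e).symm (τ x)) := by
  show e (Equiv.Perm.ofSubtype (p := fun x => x ∈ M) (τ.trans (rho M e).symm) x) = _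
  rw [Equiv.Perm.ofSubtype_apply_of_mem (p := fun x => x ∈ M) _ x.2]
  rfl

theorem rearr_not_mem (M : Set P) [Fintype M] (e : P ≃ Fin (Fintype.card P))
    (τ : M ≃ Fin (Fintype.card M)) (x : P) (hx : x ∉ M) :
    rearr M e τ x = e x := by
  show e (Equiv.Perm.ofSubtype (p := fun x => x ∈ M) (τ.trans (rho M e).symm) x) = _
  rw [Equiv.Perm.ofSubtype_apply_of_not_mem (p := fun x => x ∈ M) _ hx]

theorem rearr_lt (M : Set P) [Fintype M] (e : P ≃ Fin (Fintype.card P))
    (τ : M ≃ Fin (Fintype.card M)) (x y : M) :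
    rearr M e τ x < rearr M e τ y ↔ τ x < τ y := by
  rw [rearr_mem, rearr_mem, ← rho_spec M e]
  simp

theorem rho_rearr (M : Set P) [Fintype M] (e : P ≃ Fin (Fintype.card P))
    (τ : M ≃ Fin (Fintype.card M)) : rho M (rearr M e τ) = τ :=
  enum_unique (fun x y : M => τ x < τ y) _ _
    (fun x y => by rw [rho_spec, rearr_lt]) (fun x y => Iff.rfl)

theorem rearr_rearr (M : Set P) [Fintype M] (e : P ≃ Fin (Fintype.card P))
    (τ : M ≃ Fin (Fintype.card M)) : rearr M (rearr M e τ) (rho M e) = e := by
  apply Equiv.ext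
  intro x
  by_cases hx : x ∈ M
  · have h1 := rearr_mem M (rearr M e τ) (rho M e) ⟨x, hx⟩
    have h2 := rearr_mem M e τ ((rho M (rearr M e τ)).symm (rho M e ⟨x, hx⟩))
    rw [h2, rho_rearr] at h1
    simp only [Equiv.apply_symm_apply, Equiv.symm_apply_apply] at h1
    exact h1
  · rw [rearr_not_mem _ _ _ x hx, rearr_not_mem _ _ _ x hx]

theorem rho_mono (M : Set P) [Fintype M] (e : P ≃ Fin (Fintype.card P)) (he : Monotone e) :
    Monotone (rho M e) := by
  intro x y hxy
  rw [← not_lt, rho_spec, not_lt]
  exact he hxy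

theorem rearr_mono (M : Set P) [Fintype M] (hM : Autonomous P M)
    (e : P ≃ Fin (Fintype.card P)) (he : Monotone e)
    (τ : M ≃ Fin (Fintype.card M)) (hτ : Monotone τ) : Monotone (rearr M e τ) := by
  intro x y hxy
  rcases hxy.eq_or_lt with rfl | hlt
  · exact le_refl _
  by_cases hx : x ∈ M
  · by_cases hy : y ∈ M
    · have h1 : τ ⟨x, hx⟩ ≤ τ ⟨y, hy⟩ := hτ hxy
      have h2 := rearr_lt M e τ ⟨y, hy⟩ ⟨x, hx⟩
      rw [← not_lt]
      intro hcon
      exact absurd (h2.mp hcon) (not_lt.mpr h1)
    · have h1 := rearr_mem M e τ ⟨x, hx⟩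
      simp only at h1
      rw [h1, rearr_not_mem M e τ y hy]
      apply he
      rcases hM y hy with h | h | h
      · exact absurd (h x hx) (not_lt_of_gt hlt)
      · exact (h _ ((rho M e).symm (τ ⟨x, hx⟩)).2).le
      · exact absurd hxy (h x hx).2
  · by_cases hy : y ∈ M
    · have h1 := rearr_mem M e τ ⟨y, hy⟩
      simp only at h1
      rw [h1, rearr_not_mem M e τ x hx]
      apply he
      rcases hM x hx with h | h | h
      · exact (h _ ((rho M e).symm (τ ⟨y, hy⟩)).2).le
      · exact absurd (h y hy) (not_lt_of_gt hlt)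
      · exact absurd hxy (h y hy).1
    · rw [rearr_not_mem M e τ x hx, rearr_not_mem M e τ y hy]
      exact he hxy

/-- linear extensions exist -/
theorem exists_linext (P : Type) [inst : Fintype P] [PartialOrder P] :
    ∃ e : P ≃ Fin (Fintype.card P), Monotone e := by
  haveI hF : Fintype (LinearExtension P) := inst
  have hc : Fintype.card (LinearExtension P) = Fintype.card P :=
    Fintype.card_congr (Equiv.refl P)
  have f : Fin (Fintype.card P) ≃o LinearExtension P :=
    Fintype.orderIsoFinOfCardEq (LinearExtension P) hc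
  refine ⟨(Equiv.refl P).trans f.symm.toEquiv, ?_⟩
  intro x y hxy
  show f.symm x ≤ f.symm y
  rw [OrderIso.le_iff_le]
  exact toLinearExtension.monotone hxy

theorem card_linext_pos (P : Type) [Fintype P] [PartialOrder P] :
    0 < Nat.card {e : P ≃ Fin (Fintype.card P) // Monotone e} := by
  obtain ⟨e, he⟩ := exists_linext P
  haveI : Nonempty {e : P ≃ Fin (Fintype.card P) // Monotone e} := ⟨⟨e, he⟩⟩
  exact Nat.card_pos

/-- probabilities inside an autonomous set can be computed in that set -/
theorem prob_autonomous (M : Set P) [Fintype M] (hM : Autonomous P M) (x y : M) :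
    prob P x y = prob M x y := by
  have hcard : Nat.card {e : P ≃ Fin (Fintype.card P) // Monotone e ∧ e x < e y} *
      Nat.card {τ : M ≃ Fin (Fintype.card M) // Monotone τ} =
      Nat.card {τ : M ≃ Fin (Fintype.card M) // Monotone τ ∧ τ x < τ y} *
      Nat.card {e : P ≃ Fin (Fintype.card P) // Monotone e} := by
    rw [← Nat.card_prod, ← Nat.card_prod]
    apply Nat.card_congr
    exact
      { toFun := fun p => (⟨rho M p.1.1, rho_mono M _ p.1.2.1,
          (rho_spec M _ _ _).mpr p.1.2.2⟩, ⟨rearr M p.1.1 p.2.1,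
            rearr_mono M hM _ p.1.2.1 _ p.2.2⟩)
        invFun := fun p => (⟨rearr M p.2.1 p.1.1, rearr_mono M hM _ p.2.2 _ p.1.2.1,
          (rearr_lt M _ _ _ _).mpr p.1.2.2⟩, ⟨rho M p.2.1, rho_mono M _ p.2.2⟩)
        left_inv := by
          rintro ⟨⟨e, he1, he2⟩, ⟨τ, hτ⟩⟩
          simp only [rearr_rearr, rho_rearr]
        right_inv := by
          rintro ⟨⟨τ, hτ1, hτ2⟩, ⟨e, he⟩⟩
          simp only [rearr_rearr, rho_rearr] }
  unfold prob
  have h1 : (0 : ℝ) < Nat.card {e : P ≃ Fin (Fintype.card P) // Monotone e} := by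
    exact_mod_cast card_linext_pos P
  have h2 : (0 : ℝ) < Nat.card {τ : M ≃ Fin (Fintype.card M) // Monotone τ} := by
    exact_mod_cast card_linext_pos M
  rw [div_eq_div_iff h1.ne' h2.ne']
  exact_mod_cast hcard

theorem prob_nonneg (P : Type) [Fintype P] [PartialOrder P] (x y : P) : 0 ≤ prob P x y :=
  div_nonneg (Nat.cast_nonneg _) (Nat.cast_nonneg _)

theorem prob_add (P : Type) [Fintype P] [PartialOrder P] (x y : P) (hxy : x ≠ y) :
    prob P x y + prob P y x = 1 := by
  unfold prob
  have h1 : (0 : ℝ) < Nat.card {e : P ≃ Fin (Fintype.card P) // Monotone e} := by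
    exact_mod_cast card_linext_pos P
  rw [← add_div, div_eq_one_iff_eq h1.ne']
  have : Nat.card {e : P ≃ Fin (Fintype.card P) // Monotone e ∧ e x < e y} +
      Nat.card {e : P ≃ Fin (Fintype.card P) // Monotone e ∧ e y < e x} =
      Nat.card {e : P ≃ Fin (Fintype.card P) // Monotone e} := by
    rw [← Nat.card_sum]
    apply Nat.card_congr
    exact
      { toFun := fun p => match p with
          | Sum.inl e => ⟨e.1, e.2.1⟩
          | Sum.inr e => ⟨e.1, e.2.1⟩
        invFun := fun e => if h : e.1 x < e.1 y then Sum.inl ⟨e.1, e.2, h⟩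
          else Sum.inr ⟨e.1, e.2, lt_of_le_of_ne (not_lt.mp h)
            (fun hc => hxy (e.1.injective hc.symm))⟩
        left_inv := by
          rintro (⟨e, h1, h2⟩ | ⟨e, h1, h2⟩)
          · simp [h2]
          · simp [not_lt.mpr h2.le]
        right_inv := by
          rintro ⟨e, h⟩
          by_cases hh : e x < e y
          · simp [hh]
          · simp [hh] }
  exact_mod_cast this

theorem bddAbove_balance (P : Type) [Fintype P] [PartialOrder P] :
    BddAbove (Set.range fun q : P × P => min (prob P q.1 q.2) (prob P q.2 q.1)) :=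
  Set.Finite.bddAbove (Set.finite_range _)

theorem le_balance (P : Type) [Fintype P] [PartialOrder P] (x y : P) :
    min (prob P x y) (prob P y x) ≤ balance P :=
  le_ciSup (bddAbove_balance P) (x, y)

/-- the balance constant of an autonomous set is a lower bound -/
theorem balance_autonomous (M : Set P) [Fintype M] [Nonempty M] (hM : Autonomous P M) :
    balance M ≤ balance P := by
  apply ciSup_le
  rintro ⟨x, y⟩
  have := le_balance P x.1 y.1
  rw [prob_autonomous M hM x y, prob_autonomous M hM y x] at this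
  exact this

end Pool.Agent.Gap
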