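import Mathlib
import Pool.Agent.Lib_MP_33fb9b_gap.Defs

set_option autoImplicit false

/-!
# A finite poset of width at most two is covered by two chains
-/

namespace Pool.Agent.Gap

open Classical

variable {P : Type} [PartialOrder P]

/-- the set `s` is a chain -/
def Ch (s : Finset P) : Prop := ∀ x ∈ s, ∀ y ∈ s, x ≤ y ∨ y ≤ x

/-- no three pairwise incomparable elements -/
theorem no_three (hw : WidthLeTwo P) (x y z : P) (hxy : ¬ x ≤ y) (hyx : ¬ y ≤ x)
    (hxz : ¬ x ≤ z) (hzx : ¬ z ≤ x) (hyz : ¬ y ≤ z) (hzy : ¬ z ≤ y) : False := by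
  have h1 : x ≠ y := fun h => hxy (h ▸ le_refl _)
  have h2 : x ≠ z := fun h => hxz (h ▸ le_refl _)
  have h3 : y ≠ z := fun h => hyz (h ▸ le_refl _)
  have hs := hw {x, y, z} (by
    intro a ha b hb hab
    simp only [Finset.coe_insert, Finset.coe_singleton, Set.mem_insert_iff,
      Set.mem_singleton_iff] at ha hb
    rcases ha with rfl | rfl | rfl <;> rcases hb with rfl | rfl | rfl <;>
      first
        | exact absurd rfl hab
        | assumption)
  rw [Finset.card_insert_of_notMem (by simp [h1, h2]),
    Finset.card_insert_of_notMem (by simp [h3]), Finset.card_singleton] at hs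
  omega

theorem exists_max_of_ch (s : Finset P) (hs : Ch s) (hne : s.Nonempty) :
    ∃ x ∈ s, ∀ y ∈ s, y ≤ x := by
  obtain ⟨x, hx, hmax⟩ := s.exists_maximal hne
  refine ⟨x, hx, fun y hy => ?_⟩
  rcases hs x hx y hy with h | h
  · exact hmax hy h
  · exact h

theorem two_chains_aux (hw : WidthLeTwo P) (n : ℕ) : ∀ s : Finset P, s.card = n →
    ∃ c d : Finset P, c ∪ d = s ∧ Disjoint c d ∧ Ch c ∧ Ch d := by
  induction n with
  | zero =>
    intro s hs
    rw [Finset.card_eq_zero] at hs
    subst hs
    exact ⟨∅, ∅, by simp, by simp, by intro x hx; simp at hx, by intro x hx; simp at hx⟩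
  | succ n ih =>
    intro s hs
    have hne : s.Nonempty := by rw [← Finset.card_pos]; omega
    obtain ⟨a, ha, hmax⟩ := s.exists_maximal hne
    obtain ⟨c, d, hcd, hdis, hc, hd⟩ := ih (s.erase a) (by rw [Finset.card_erase_of_mem ha]; omega)
    have hnac : a ∉ c := by
      intro h
      have : a ∈ s.erase a := hcd ▸ Finset.mem_union_left _ h
      simp at this
    have hnad : a ∉ d := by
      intro h
      have : a ∈ s.erase a := hcd ▸ Finset.mem_union_right _ h
      simp at this
    have hcs : ∀ x ∈ c, x ∈ s := fun x hx =>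
      Finset.mem_of_mem_erase (hcd ▸ Finset.mem_union_left _ hx)
    have hds : ∀ x ∈ d, x ∈ s := fun x hx =>
      Finset.mem_of_mem_erase (hcd ▸ Finset.mem_union_right _ hx)
    have hins : s = insert a (c ∪ d) := by
      rw [hcd, Finset.insert_erase ha]
    -- the symmetric main step
    have main : ∀ c d : Finset P, s = insert a (c ∪ d) → Disjoint c d → a ∉ c → a ∉ d →
        Ch c → Ch d → ∀ x1 ∈ c, x1 ≤ a → (∀ z ∈ c, x1 < z → ∀ y ∈ d, z ≤ y ∨ y ≤ z) →
        ∃ c' d' : Finset P, c' ∪ d' = s ∧ Disjoint c' d' ∧ Ch c' ∧ Ch d' := by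
      intro c d hs' hdis hac had hc hd x1 hx1 hx1a hcomp
      refine ⟨insert a (c.filter fun z => z ≤ x1), (c.filter fun z => ¬ z ≤ x1) ∪ d, ?_, ?_, ?_, ?_⟩
      · rw [hs', Finset.insert_union, ← Finset.union_assoc, Finset.filter_union_filter_not_eq]
      · rw [Finset.disjoint_left]
        intro z hz hz2
        rw [Finset.mem_insert, Finset.mem_filter] at hz
        rw [Finset.mem_union, Finset.mem_filter] at hz2
        rcases hz with rfl | ⟨h1, h2⟩
        · rcases hz2 with h | h
          · exact hac h.1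
          · exact had h
        · rcases hz2 with h | h
          · exact h.2 h2
          · exact Finset.disjoint_left.mp hdis h1 h
      · intro x hx y hy
        rw [Finset.mem_insert, Finset.mem_filter] at hx hy
        rcases hx with rfl | ⟨h1, h2⟩
        · rcases hy with rfl | ⟨h3, h4⟩
          · left; exact le_refl _
          · right; exact h4.trans hx1a
        · rcases hy with rfl | ⟨h3, h4⟩
          · left; exact h2.trans hx1a
          · exact hc x h1 y h3
      · intro x hx y hy
        rw [Finset.mem_union, Finset.mem_filter] at hx hy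
        have hlt : ∀ z ∈ c, ¬ z ≤ x1 → x1 < z := by
          intro z hz hnz
          rcases hc z hz x1 hx1 with h | h
          · exact absurd h hnz
          · exact lt_of_le_of_ne h (fun he => hnz (he ▸ le_refl _))
        rcases hx with ⟨h1, h2⟩ | h1
        · rcases hy with ⟨h3, h4⟩ | h3
          · exact hc x h1 y h3
          · exact hcomp x h1 (hlt x h1 h2) y h3
        · rcases hy with ⟨h3, h4⟩ | h3
          · exact (hcomp y h3 (hlt y h3 h4) x h1).symm
          · exact hd x h1 y h3
    by_cases hinc : ∃ x ∈ c, ∃ y ∈ d, ¬ x ≤ y ∧ ¬ y ≤ x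
    · -- the two top elements of incomparable pairs
      let c0 := c.filter fun x => ∃ y ∈ d, ¬ x ≤ y ∧ ¬ y ≤ x
      let d0 := d.filter fun y => ∃ x ∈ c, ¬ x ≤ y ∧ ¬ y ≤ x
      obtain ⟨x0, hx0, y0, hy0, h1, h2⟩ := hinc
      have hc0 : Ch c0 := fun x hx y hy =>
        hc x (Finset.mem_of_mem_filter x hx) y (Finset.mem_of_mem_filter y hy)
      have hd0 : Ch d0 := fun x hx y hy =>
        hd x (Finset.mem_of_mem_filter x hx) y (Finset.mem_of_mem_filter y hy)
      obtain ⟨x1, hx1, hx1max⟩ := exists_max_of_ch c0 hc0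
        ⟨x0, Finset.mem_filter.mpr ⟨hx0, y0, hy0, h1, h2⟩⟩
      obtain ⟨y1, hy1, hy1max⟩ := exists_max_of_ch d0 hd0
        ⟨y0, Finset.mem_filter.mpr ⟨hy0, x0, hx0, h1, h2⟩⟩
      obtain ⟨hx1c, y2, hy2, hxy2, hyx2⟩ := Finset.mem_filter.mp hx1
      obtain ⟨hy1d, x2, hx2, hxy3, hyx3⟩ := Finset.mem_filter.mp hy1
      have hy2le : y2 ≤ y1 := hy1max y2 (Finset.mem_filter.mpr ⟨hy2, x1, hx1c, hxy2, hyx2⟩)
      have hx2le : x2 ≤ x1 := hx1max x2 (Finset.mem_filter.mpr ⟨hx2, y1, hy1d, hxy3, hyx3⟩)
      have hn1 : ¬ x1 ≤ y1 := fun h => hxy3 (hx2le.trans h)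
      have hn2 : ¬ y1 ≤ x1 := fun h => hyx2 (hy2le.trans h)
      have hx1a : ¬ a ≤ x1 := by
        intro h
        have := hmax (hcs x1 hx1c) h
        exact hnac (le_antisymm this h ▸ hx1c)
      have hy1a : ¬ a ≤ y1 := by
        intro h
        have := hmax (hds y1 hy1d) h
        exact hnad (le_antisymm this h ▸ hy1d)
      by_cases hc1 : x1 ≤ a
      · apply main c d hins hdis hnac hnad hc hd x1 hx1c hc1
        intro z hz hlt y hy
        by_contra hcon
        push Not at hcon
        have := hx1max z (Finset.mem_filter.mpr ⟨hz, y, hy, hcon.1, hcon.2⟩)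
        exact absurd hlt (not_lt_of_ge this)
      · by_cases hc2 : y1 ≤ a
        · apply main d c (by rw [hins, Finset.union_comm]) hdis.symm hnad hnac hd hc y1 hy1d hc2
          intro z hz hlt y hy
          by_contra hcon
          push Not at hcon
          have := hy1max z (Finset.mem_filter.mpr ⟨hz, y, hy, hcon.2, hcon.1⟩)
          exact absurd hlt (not_lt_of_ge this)
        · exact absurd (no_three hw x1 y1 a hn1 hn2 hc1 hx1a hc2 hy1a) id
    · push Not at hinc
      refine ⟨{a}, c ∪ d, ?_, ?_, ?_, ?_⟩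
      · rw [hins]; rfl
      · rw [Finset.disjoint_left]
        intro z hz hz2
        rw [Finset.mem_singleton] at hz
        subst hz
        rw [Finset.mem_union] at hz2
        rcases hz2 with h | h
        · exact hnac h
        · exact hnad h
      · intro x hx y hy
        rw [Finset.mem_singleton] at hx hy
        rw [hx, hy]; left; exact le_refl _
      · intro x hx y hy
        rw [Finset.mem_union] at hx hy
        have hi : ∀ x ∈ c, ∀ y ∈ d, x ≤ y ∨ y ≤ x := by
          intro x hx y hy
          by_cases h : x ≤ y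
          · left; exact h
          · right; exact hinc x hx y hy h
        rcases hx with hx | hx
        · rcases hy with hy | hy
          · exact hc x hx y hy
          · exact hi x hx y hy
        · rcases hy with hy | hy
          · exact (hi y hy x hx).symm
          · exact hd x hx y hy

/-- coordinates: a bijection onto two chains -/
theorem exists_coord [Fintype P] (hw : WidthLeTwo P) :
    ∃ (m n : ℕ) (φ : Fin m ⊕ Fin n ≃ P),
      (∀ a a' : Fin m, a < a' → φ (Sum.inl a) < φ (Sum.inl a')) ∧
      (∀ b b' : Fin n, b < b' → φ (Sum.inr b) < φ (Sum.inr b')) := by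
  obtain ⟨c, d, hcd, hdis, hc, hd⟩ := two_chains_aux hw _ (Finset.univ : Finset P) rfl
  have key : ∀ c : Finset P, Ch c → ∃ f : Fin c.card ≃ c,
      ∀ a a' : Fin c.card, a < a' → (f a : P) < (f a' : P) := by
    intro c hc
    let L : LinearOrder c :=
      { (inferInstance : PartialOrder c) with
        le_total := fun x y => hc x x.2 y y.2
        toDecidableLE := Classical.decRel _ }
    let f : Fin c.card ≃o c := Fintype.orderIsoFinOfCardEq c (Fintype.card_coe c)
    refine ⟨f.toEquiv, fun a a' h => ?_⟩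
    have : f a < f a' := f.lt_iff_lt.mpr h
    exact this
  obtain ⟨f, hf⟩ := key c hc
  obtain ⟨g, hg⟩ := key d hd
  have hd' : ∀ x : P, x ∈ d ↔ ¬ x ∈ c := by
    intro x
    have hx : x ∈ c ∪ d := by rw [hcd]; exact Finset.mem_univ x
    rw [Finset.mem_union] at hx
    constructor
    · intro h h'; exact Finset.disjoint_left.mp hdis h' h
    · intro h; exact hx.resolve_left h
  let ψ : Fin c.card ⊕ Fin d.card ≃ P :=
    (Equiv.sumCongr f (g.trans (Equiv.subtypeEquivRight hd'))).trans
      (Equiv.sumCompl fun x => x ∈ c)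
  refine ⟨c.card, d.card, ψ, ?_, ?_⟩
  · intro a a' h
    exact hf a a' h
  · intro b b' h
    exact hg b b' h

end Pool.Agent.Gap
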