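import Mathlib

set_option autoImplicit false

/-!
# Strips: the levels of the lattice of ideals of a width-two poset

A strip records, level by level, the interval of possible numbers of elements of the first chain,
and the normalised numbers of completions.
-/

namespace Pool.Agent.Gap

/-- `predF f i` is `f (i - 1)`, with value `0` for `i = 0`. -/
def predF (f : ℕ → ℕ) : ℕ → ℕ
  | 0 => 0
  | i + 1 => f i

/-- a strip -/
structure Strip where
  n : ℕ
  lo : ℕ → ℕ
  hi : ℕ → ℕ
  w : ℕ → ℕ → ℝ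
  npos : 0 < n
  lohi : ∀ k, k ≤ n → lo k ≤ hi k
  loS : ∀ k, k < n → lo (k + 1) = lo k ∨ lo (k + 1) = lo k + 1
  hiS : ∀ k, k < n → hi (k + 1) = hi k ∨ hi (k + 1) = hi k + 1
  wz : ∀ k, k ≤ n → ∀ i, (i < lo k ∨ hi k < i) → w k i = 0
  wr : ∀ k, k < n → ∀ i, lo k ≤ i → i ≤ hi k → w k i = w (k + 1) i + w (k + 1) (i + 1)
  wn : ∀ k i, 0 ≤ w k i
  lo0 : lo 0 = 0
  hi0 : hi 0 = 0
  w0 : w 0 0 = 1
  lon : lo n = hi n

namespace Strip

variable (S : Strip)

/-- number of paths from the source to the node `i` of level `k` -/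
def N : ℕ → ℕ → ℕ
  | 0, i => if i = 0 then 1 else 0
  | k + 1, i => if S.lo (k + 1) ≤ i ∧ i ≤ S.hi (k + 1) then N k i + predF (N k) i else 0

theorem hi_le (k : ℕ) (hk : k ≤ S.n) : S.hi k ≤ k := by
  induction k with
  | zero => rw [S.hi0]
  | succ k ih =>
    have h1 := ih (by omega)
    rcases S.hiS k (by omega) with h | h <;> omega

theorem N_zero (k i : ℕ) (h : i < S.lo k ∨ S.hi k < i) : S.N k i = 0 := by
  cases k with
  | zero =>
    rw [S.lo0, S.hi0] at h
    unfold N
    rw [if_neg (by omega)]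
  | succ k =>
    unfold N
    rw [if_neg (by omega)]

/-- mass of a node -/
noncomputable def mass (k i : ℕ) : ℝ := (S.N k i : ℝ) * S.w k i

/-- flow through the step to the same index -/
noncomputable def yf (k i : ℕ) : ℝ := (S.N k i : ℝ) * S.w (k + 1) i

/-- flow through the step to the next index -/
noncomputable def zf (k i : ℕ) : ℝ := (S.N k i : ℝ) * S.w (k + 1) (i + 1)

/-- total mass of the indices at least `m` -/
noncomputable def T (k m : ℕ) : ℝ := ∑ i ∈ Finset.Ico m (S.n + 2), S.mass k i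

theorem mass_nonneg (k i : ℕ) : 0 ≤ S.mass k i := mul_nonneg (Nat.cast_nonneg _) (S.wn _ _)
theorem yf_nonneg (k i : ℕ) : 0 ≤ S.yf k i := mul_nonneg (Nat.cast_nonneg _) (S.wn _ _)
theorem zf_nonneg (k i : ℕ) : 0 ≤ S.zf k i := mul_nonneg (Nat.cast_nonneg _) (S.wn _ _)

theorem mass_eq (k : ℕ) (hk : k < S.n) (i : ℕ) : S.mass k i = S.yf k i + S.zf k i := by
  unfold mass yf zf
  by_cases h : S.lo k ≤ i ∧ i ≤ S.hi k
  · rw [S.wr k hk i h.1 h.2]; ring
  · rw [S.N_zero k i (by omega)]; simp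

theorem mass_zero (k i : ℕ) (h : i < S.lo k ∨ S.hi k < i) : S.mass k i = 0 := by
  unfold mass; rw [S.N_zero k i h]; simp

/-- inflow decomposition -/
theorem mass_succ (k : ℕ) (hk : k < S.n) (i : ℕ) :
    S.mass (k + 1) (i + 1) = S.yf k (i + 1) + S.zf k i := by
  unfold mass yf zf
  by_cases h : S.lo (k + 1) ≤ i + 1 ∧ i + 1 ≤ S.hi (k + 1)
  · have : S.N (k + 1) (i + 1) = S.N k (i + 1) + S.N k i := by
      show (if _ then _ else _) = _
      rw [if_pos h]; rfl
    rw [this]; push_cast; ring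
  · rw [S.N_zero (k + 1) (i + 1) (by omega), S.wz (k + 1) hk (i + 1) (by omega)]; simp

theorem mass_succ_zero (k : ℕ) (hk : k < S.n) : S.mass (k + 1) 0 = S.yf k 0 := by
  unfold mass yf
  by_cases h : S.lo (k + 1) ≤ 0 ∧ 0 ≤ S.hi (k + 1)
  · have : S.N (k + 1) 0 = S.N k 0 := by
      show (if _ then _ else _) = _
      rw [if_pos h]; rfl
    rw [this]
  · rw [S.N_zero (k + 1) 0 (by omega), S.wz (k + 1) hk 0 (by omega)]; simp

theorem T_succ_index (k m : ℕ) (hm : m < S.n + 2) : S.T k m = S.T k (m + 1) + S.mass k m := by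
  unfold T
  rw [Finset.sum_eq_sum_Ico_succ_bot hm]
  ring

theorem T_top (k m : ℕ) (hm : S.n + 2 ≤ m) : S.T k m = 0 := by
  unfold T
  rw [Finset.Ico_eq_empty (by omega)]; simp

theorem T_nonneg (k m : ℕ) : 0 ≤ S.T k m := Finset.sum_nonneg fun i _ => S.mass_nonneg k i

theorem T_anti (k m : ℕ) : S.T k (m + 1) ≤ S.T k m := by
  by_cases hm : m < S.n + 2
  · rw [S.T_succ_index k m hm]
    have := S.mass_nonneg k m
    linarith
  · rw [S.T_top k m (by omega), S.T_top k (m + 1) (by omega)]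

theorem T_anti' (k m m' : ℕ) (h : m ≤ m') : S.T k m' ≤ S.T k m := by
  induction m', h using Nat.le_induction with
  | base => exact le_refl _
  | succ m' _ ih => exact (S.T_anti k m').trans ih

theorem T_zero_of (k m : ℕ) (hk : k ≤ S.n) (hm : S.hi k < m) : S.T k m = 0 := by
  unfold T
  apply Finset.sum_eq_zero
  intro i hi
  rw [Finset.mem_Ico] at hi
  exact S.mass_zero k i (by omega)

theorem T_step (k : ℕ) (hk : k < S.n) (m : ℕ) :
    S.T (k + 1) (m + 1) = S.T k (m + 1) + S.zf k m := by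
  have hh := S.hi_le k hk.le
  have hh1 := S.hi_le (k + 1) hk
  -- downward induction on m
  have key : ∀ d m, S.n + 2 - m = d → S.T (k + 1) (m + 1) = S.T k (m + 1) + S.zf k m := by
    intro d
    induction d with
    | zero =>
      intro m hm
      rw [S.T_top (k + 1) (m + 1) (by omega), S.T_top k (m + 1) (by omega)]
      unfold zf
      rw [S.N_zero k m (by omega)]; simp
    | succ d ih =>
      intro m hm
      by_cases hm2 : m + 1 < S.n + 2
      · rw [S.T_succ_index (k + 1) (m + 1) hm2, S.T_succ_index k (m + 1) hm2,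
          ih (m + 1) (by omega), S.mass_succ k hk m, S.mass_eq k hk (m + 1)]
        ring
      · rw [S.T_top (k + 1) (m + 1) (by omega), S.T_top k (m + 1) (by omega)]
        unfold zf
        rw [S.N_zero k m (by omega)]; simp
  exact key _ m rfl

theorem T_total (k : ℕ) (hk : k ≤ S.n) : S.T k 0 = 1 := by
  induction k with
  | zero =>
    rw [S.T_succ_index 0 0 (by omega), S.T_zero_of 0 1 (by omega) (by rw [S.hi0]; omega)]
    unfold mass N
    rw [S.w0]; simp
  | succ k ih =>
    have h1 := ih (by omega)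
    rw [S.T_succ_index (k + 1) 0 (by omega), S.T_step k (by omega) 0,
      S.mass_succ_zero k (by omega)]
    rw [S.T_succ_index k 0 (by omega), S.mass_eq k (by omega) 0] at h1
    linarith

theorem T_le_one (k m : ℕ) (hk : k ≤ S.n) : S.T k m ≤ 1 := by
  rw [← S.T_total k hk]
  exact S.T_anti' k 0 m (Nat.zero_le _)

/-- the median index of level `k` -/
noncomputable def med (k : ℕ) : ℕ := sInf {m | S.T k (m + 1) < 1 / 2}

theorem med_spec1 (k : ℕ) : S.T k (S.med k + 1) < 1 / 2 := by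
  have hne : {m | S.T k (m + 1) < 1 / 2}.Nonempty :=
    ⟨S.n + 2, by
      show S.T k (S.n + 2 + 1) < 1 / 2
      rw [S.T_top k _ (by omega)]; norm_num⟩
  exact Nat.sInf_mem hne

theorem med_spec2 (k : ℕ) (hk : k ≤ S.n) : 1 / 2 ≤ S.T k (S.med k) := by
  rcases Nat.eq_zero_or_pos (S.med k) with h | h
  · rw [h, S.T_total k hk]; norm_num
  · obtain ⟨m, hm⟩ : ∃ m, S.med k = m + 1 := ⟨S.med k - 1, by omega⟩
    rw [hm]
    by_contra hcon
    push Not at hcon
    have : S.med k ≤ m := Nat.sInf_le hcon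
    omega

/-- all thresholds are unbalanced for the constant `c` -/
def Unb (c : ℝ) : Prop := ∀ k, k ≤ S.n → ∀ m, S.T k m < c ∨ 1 - c < S.T k m

variable {S}

theorem Unb.mono {c c' : ℝ} (h : S.Unb c) (hc : c ≤ c') : S.Unb c' := by
  intro k hk m
  rcases h k hk m with h1 | h1
  · left; linarith
  · right; linarith

theorem Unb.up {c : ℝ} (h : S.Unb c) (hc : c < 1 / 2) (k : ℕ) (hk : k ≤ S.n) :
    S.T k (S.med k + 1) < c := by
  rcases h k hk (S.med k + 1) with h1 | h1
  · exact h1
  · have := S.med_spec1 k; linarith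

theorem Unb.dn {c : ℝ} (h : S.Unb c) (hc : c < 1 / 2) (k : ℕ) (hk : k ≤ S.n) :
    1 - c < S.T k (S.med k) := by
  rcases h k hk (S.med k) with h1 | h1
  · have := S.med_spec2 k hk; linarith
  · exact h1

theorem Unb.med_lt {c : ℝ} (h : S.Unb c) (hc : c < 1 / 2) (k : ℕ) (hk : k ≤ S.n) :
    S.med k < S.n + 2 := by
  by_contra hcon
  have h1 := h.dn hc k hk
  rw [S.T_top k _ (by omega)] at h1
  linarith

theorem Unb.mass_med {c : ℝ} (h : S.Unb c) (hc : c < 1 / 2) (k : ℕ) (hk : k ≤ S.n) :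
    1 - 2 * c < S.mass k (S.med k) := by
  have h1 := h.dn hc k hk
  have h2 := h.up hc k hk
  rw [S.T_succ_index k _ (h.med_lt hc k hk)] at h1
  linarith

theorem Unb.med_mem {c : ℝ} (h : S.Unb c) (hc : c < 1 / 2) (k : ℕ) (hk : k ≤ S.n) :
    S.lo k ≤ S.med k ∧ S.med k ≤ S.hi k := by
  by_contra hcon
  have h1 := h.mass_med hc k hk
  rw [S.mass_zero k _ (by omega)] at h1
  linarith

theorem med_unique (k m : ℕ) (hk : k ≤ S.n) (h1 : S.T k (m + 1) < 1 / 2) (h2 : 1 / 2 ≤ S.T k m) :
    S.med k = m := by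
  apply le_antisymm
  · exact Nat.sInf_le h1
  · by_contra hcon
    push Not at hcon
    have h3 := S.med_spec1 k
    have h4 := S.T_anti' k (S.med k + 1) m (by omega)
    linarith

theorem Unb.med_step {c : ℝ} (h : S.Unb c) (hc : c < 1 / 2) (k : ℕ) (hk : k < S.n) :
    S.med (k + 1) = S.med k ∨ S.med (k + 1) = S.med k + 1 := by
  have h1 := h.up hc k hk.le
  have h2 := h.dn hc k hk.le
  have hl := h.med_lt hc k hk.le
  -- upper bound
  have hup : S.T (k + 1) (S.med k + 1 + 1) < 1 / 2 := by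
    rw [S.T_step k hk (S.med k + 1)]
    have h3 : S.zf k (S.med k + 1) ≤ S.mass k (S.med k + 1) := by
      rw [S.mass_eq k hk]
      have := S.yf_nonneg k (S.med k + 1)
      linarith
    by_cases hm : S.med k + 1 < S.n + 2
    · have h4 := S.T_succ_index k (S.med k + 1) hm
      linarith
    · rw [S.T_top k _ (by omega)]
      have h5 : S.mass k (S.med k + 1) = 0 := S.mass_zero k _ (by
        have := S.hi_le k hk.le
        omega)
      linarith
  have hdn : 1 / 2 ≤ S.T (k + 1) (S.med k) := by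
    rcases Nat.eq_zero_or_pos (S.med k) with h0 | h0
    · rw [h0, S.T_total (k + 1) hk]; norm_num
    · obtain ⟨m, hm⟩ : ∃ m, S.med k = m + 1 := ⟨S.med k - 1, by omega⟩
      rw [hm, S.T_step k hk m]
      have := S.zf_nonneg k m
      rw [hm] at h2
      linarith
  by_cases hmid : S.T (k + 1) (S.med k + 1) < 1 / 2
  · left; exact med_unique (k + 1) _ hk hmid hdn
  · right; exact med_unique (k + 1) _ hk hup (not_lt.mp hmid)

end Strip

end Pool.Agent.Gap
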