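import Mathlib
import Pool.Agent.Lib_MP_33fb9b_gap.Strip

set_option autoImplicit false

/-!
# Straight runs of the median path are short
-/

namespace Pool.Agent.Gap

/-- the final numerical inequality -/
theorem run_numeric (y0 y1 y2 y3 x1 x2 x3 : ℝ)
    (hx1 : 0 ≤ x1) (hx2 : 0 ≤ x2) (hx3 : 0 ≤ x3)
    (hy3 : 3 / 10 ≤ y3) (hY : y0 + y1 + y2 < 7 / 20) (hX : x1 + x2 + x3 < 7 / 20)
    (h3 : 3 / 10 * y3 ≤ y2 * (3 / 10 + x3)) (h2 : 3 / 10 * y2 ≤ y1 * (3 / 10 + x2))
    (h1 : 3 / 10 * y1 ≤ y0 * (3 / 10 + x1)) : False := by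
  set A : ℝ := 1 + 10 / 3 * x3 with hA
  set B : ℝ := 1 + 10 / 3 * x2 with hB
  set C : ℝ := 1 + 10 / 3 * x1 with hC
  have hA1 : 1 ≤ A := by rw [hA]; linarith
  have hB1 : 1 ≤ B := by rw [hB]; linarith
  have hC1 : 1 ≤ C := by rw [hC]; linarith
  have hsum : A + B + C < 25 / 6 := by rw [hA, hB, hC]; linarith
  have k3 : 3 / 10 ≤ y2 * A := by
    have : y2 * A = 10 / 3 * (y2 * (3 / 10 + x3)) := by rw [hA]; ring
    rw [this]; linarith
  have k2 : y2 ≤ y1 * B := by
    have : y1 * B = 10 / 3 * (y1 * (3 / 10 + x2)) := by rw [hB]; ring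
    rw [this]; linarith
  have k1 : y1 ≤ y0 * C := by
    have : y0 * C = 10 / 3 * (y0 * (3 / 10 + x1)) := by rw [hC]; ring
    rw [this]; linarith
  have hA0 : 0 < A := by linarith
  have hB0 : 0 < B := by linarith
  have hC0 : 0 < C := by linarith
  have e2 : 3 / 10 / A ≤ y2 := by rw [div_le_iff₀ hA0]; exact k3
  have e1 : 3 / 10 / A / B ≤ y1 := by
    rw [div_le_iff₀ hB0]; exact e2.trans k2
  have e0 : 3 / 10 / A / B / C ≤ y0 := by
    rw [div_le_iff₀ hC0]; exact e1.trans k1
  have hs : 3 / 10 / A / B / C + 3 / 10 / A / B + 3 / 10 / A < 7 / 20 := by linarith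
  have hs2 : 3 / 10 / A / B / C + 3 / 10 / A / B + 3 / 10 / A =
      3 / 10 * ((1 + C + B * C) / (A * B * C)) := by
    field_simp
  rw [hs2] at hs
  have hABC : 0 < A * B * C := by positivity
  have hs3 : (1 + C + B * C) / (A * B * C) < 7 / 6 := by linarith
  rw [div_lt_iff₀ hABC] at hs3
  have hBC : 0 < B * C := by positivity
  have hs4 : 7 / 6 * (A * B * C) ≤ 7 / 6 * ((25 / 6 - B - C) * (B * C)) := by
    have : A * B * C = A * (B * C) := by ring
    rw [this]
    have : A * (B * C) ≤ (25 / 6 - B - C) * (B * C) :=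
      mul_le_mul_of_nonneg_right (by linarith) hBC.le
    linarith
  have q1 : 0 < 7 / 6 * B ^ 2 - 97 / 36 * B + 2 := by nlinarith [sq_nonneg (B - 97 / 84)]
  have q2 : 0 < C * (7 / 6 * B ^ 2 - 97 / 36 * B + 2) := mul_pos hC0 q1
  nlinarith [mul_nonneg (mul_nonneg hC0.le (by linarith : 0 ≤ C - 1)) (by linarith : 0 ≤ B - 1),
    mul_nonneg (by linarith : 0 ≤ C - 1) (by linarith : 0 ≤ C - 1)]

theorem weaken_z (y y' x z : ℝ) (hy : 0 ≤ y) (hx : 0 ≤ x) (hz : 3 / 10 ≤ z)
    (h : y' * z ≤ y * (x + z)) : 3 / 10 * y' ≤ y * (3 / 10 + x) := by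
  by_cases hyy : y' ≤ y
  · nlinarith [mul_nonneg hy hx]
  · push Not at hyy
    nlinarith [mul_nonneg (by linarith : 0 ≤ z - 3 / 10) (by linarith : 0 ≤ y' - y)]

namespace Strip

variable {S : Strip}

/-- multiplicative growth bound for the flow that leaves the run to the left -/
theorem growth_a (k m : ℕ) (hk : k + 1 < S.n) (hlo : S.lo (k + 1) ≤ m)
    (hhi : m + 1 ≤ S.hi (k + 1)) :
    S.yf (k + 1) (m + 1) * S.zf k m ≤ S.yf k m * (S.yf k (m + 1) + S.zf k m) := by
  unfold yf zf
  have hN : S.N (k + 1) (m + 1) = S.N k (m + 1) + S.N k m := by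
    show (if _ then _ else _) = _
    rw [if_pos ⟨by omega, hhi⟩]; rfl
  have hw : S.w (k + 1) m = S.w (k + 2) m + S.w (k + 2) (m + 1) :=
    S.wr (k + 1) hk m hlo (by omega)
  have h1 : S.w (k + 2) (m + 1) ≤ S.w (k + 1) m := by
    rw [hw]; have := S.wn (k + 2) m; linarith
  rw [hN]
  push_cast
  have e1 : (↑(S.N k (m + 1)) + ↑(S.N k m)) * S.w (k + 1 + 1) (m + 1) *
      (↑(S.N k m) * S.w (k + 1) (m + 1)) =
      ((↑(S.N k (m + 1)) + ↑(S.N k m)) * ↑(S.N k m) * S.w (k + 1) (m + 1)) *
        S.w (k + 2) (m + 1) := by ring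
  have e2 : ↑(S.N k m) * S.w (k + 1) m *
      (↑(S.N k (m + 1)) * S.w (k + 1) (m + 1) + ↑(S.N k m) * S.w (k + 1) (m + 1)) =
      ((↑(S.N k (m + 1)) + ↑(S.N k m)) * ↑(S.N k m) * S.w (k + 1) (m + 1)) *
        S.w (k + 1) m := by ring
  rw [e1, e2]
  apply mul_le_mul_of_nonneg_left h1
  have := S.wn (k + 1) (m + 1)
  positivity

/-- multiplicative growth bound for the flow that leaves the run to the right -/
theorem growth_b (k m : ℕ) (hk : k + 1 < S.n) (hlo : S.lo (k + 1) ≤ m)
    (hhi : m + 1 ≤ S.hi (k + 1)) :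
    S.zf (k + 1) m * S.yf k m ≤
      S.zf k m * ((predF (S.N k) m : ℝ) * S.w (k + 1) m + S.yf k m) := by
  unfold yf zf
  have hN : S.N (k + 1) m = S.N k m + predF (S.N k) m := by
    show (if _ then _ else _) = _
    rw [if_pos ⟨hlo, by omega⟩]
  have hw : S.w (k + 1) (m + 1) = S.w (k + 2) (m + 1) + S.w (k + 2) (m + 1 + 1) :=
    S.wr (k + 1) hk (m + 1) (by omega) hhi
  have h1 : S.w (k + 2) (m + 1) ≤ S.w (k + 1) (m + 1) := by
    rw [hw]; have := S.wn (k + 2) (m + 1 + 1); linarith
  rw [hN]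
  push_cast
  have e1 : (↑(S.N k m) + (predF (S.N k) m : ℝ)) * S.w (k + 1 + 1) (m + 1) *
      (↑(S.N k m) * S.w (k + 1) m) =
      ((↑(S.N k m) + (predF (S.N k) m : ℝ)) * ↑(S.N k m) * S.w (k + 1) m) *
        S.w (k + 2) (m + 1) := by ring
  have e2 : ↑(S.N k m) * S.w (k + 1) (m + 1) *
      ((predF (S.N k) m : ℝ) * S.w (k + 1) m + ↑(S.N k m) * S.w (k + 1) m) =
      ((↑(S.N k m) + (predF (S.N k) m : ℝ)) * ↑(S.N k m) * S.w (k + 1) m) *
        S.w (k + 1) (m + 1) := by ring
  rw [e1, e2]
  apply mul_le_mul_of_nonneg_left h1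
  have := S.wn (k + 1) m
  positivity

theorem lo_add_le (k j : ℕ) (h : k + j ≤ S.n) : S.lo (k + j) ≤ S.lo k + j := by
  induction j with
  | zero => exact le_refl _
  | succ j ih =>
    have h1 := ih (by omega)
    have h2 := S.loS (k + j) (by omega)
    have : k + (j + 1) = k + j + 1 := by ring
    rw [this]
    omega

theorem le_hi_add (k j : ℕ) (h : k + j ≤ S.n) : S.hi k ≤ S.hi (k + j) := by
  induction j with
  | zero => exact le_refl _
  | succ j ih =>
    have h1 := ih (by omega)
    have h2 := S.hiS (k + j) (by omega)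
    have : k + (j + 1) = k + j + 1 := by ring
    rw [this]
    omega

/-- core: three steps to the next index followed by one step to the same index -/
theorem run_a_core (h : S.Unb (7 / 20)) (k m : ℕ) (hk : k + 4 ≤ S.n) (hlo : S.lo (k + 1) ≤ m)
    (m0 : S.med k = m) (m1 : S.med (k + 1) = m + 1) (m2 : S.med (k + 2) = m + 2)
    (m3 : S.med (k + 3) = m + 3) (m4 : S.med (k + 4) = m + 3) : False := by
  have hc : (7 / 20 : ℝ) < 1 / 2 := by norm_num
  have a0 := h.dn hc k (by omega)
  have a1 := h.dn hc (k + 1) (by omega)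
  have a2 := h.dn hc (k + 2) (by omega)
  have a3 := h.dn hc (k + 3) (by omega)
  have u0 := h.up hc k (by omega)
  have u1 := h.up hc (k + 1) (by omega)
  have u2 := h.up hc (k + 2) (by omega)
  have u3 := h.up hc (k + 3) (by omega)
  have u4 := h.up hc (k + 4) (by omega)
  have b1 := h.med_mem hc (k + 1) (by omega)
  have b2 := h.med_mem hc (k + 2) (by omega)
  have b3 := h.med_mem hc (k + 3) (by omega)
  have l3 := h.med_lt hc (k + 3) (by omega)
  rw [m0] at a0 u0
  rw [m1] at a1 u1 b1
  rw [m2] at a2 u2 b2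
  rw [m3] at a3 u3 b3 l3
  rw [m4] at u4
  have hl2 : S.lo (k + 2) ≤ m + 1 := by
    have := lo_add_le (S := S) (k + 1) 1 (by omega)
    have e : k + 1 + 1 = k + 2 := by ring
    rw [e] at this; omega
  have hl3 : S.lo (k + 3) ≤ m + 2 := by
    have := lo_add_le (S := S) (k + 1) 2 (by omega)
    have e : k + 1 + 2 = k + 3 := by ring
    rw [e] at this; omega
  -- relations
  have r10 := S.T_step k (by omega) m
  have r11 := S.T_step (k + 1) (by omega) (m + 1)
  have r12 := S.T_step (k + 2) (by omega) (m + 2)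
  have r13 := S.T_step (k + 3) (by omega) (m + 3)
  have q0 := S.T_succ_index k m (by omega)
  have q1 := S.T_succ_index (k + 1) (m + 1) (by omega)
  have q2 := S.T_succ_index (k + 2) (m + 2) (by omega)
  have q3 := S.T_succ_index (k + 3) (m + 3) (by omega)
  have e0 := S.mass_eq k (by omega) m
  have e1 := S.mass_eq (k + 1) (by omega) (m + 1)
  have e2 := S.mass_eq (k + 2) (by omega) (m + 2)
  have e3 := S.mass_eq (k + 3) (by omega) (m + 3)
  have s0 := S.T_step k (by omega) (m + 1)
  have s1 := S.T_step (k + 1) (by omega) (m + 2)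
  have s2 := S.T_step (k + 2) (by omega) (m + 3)
  have p0 := S.T_succ_index k (m + 1) (by omega)
  have p1 := S.T_succ_index (k + 1) (m + 2) (by omega)
  have p2 := S.T_succ_index (k + 2) (m + 3) (by omega)
  have f0 := S.mass_eq k (by omega) (m + 1)
  have f1 := S.mass_eq (k + 1) (by omega) (m + 2)
  have f2 := S.mass_eq (k + 2) (by omega) (m + 3)
  have g0 := growth_a (S := S) k m (by omega) hlo (by omega)
  have g1 := growth_a (S := S) (k + 1) (m + 1) (by omega) hl2
    (by show m + 2 ≤ S.hi (k + 2); omega)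
  have g2 := growth_a (S := S) (k + 2) (m + 2) (by omega) hl3
    (by show m + 3 ≤ S.hi (k + 3); omega)
  have t1 := S.T_le_one k m (by omega)
  have t2 := S.T_nonneg (k + 3) (m + 3 + 1)
  have i1 : k + 1 + 1 = k + 2 := by ring
  have i2 : k + 2 + 1 = k + 3 := by ring
  have i3 : k + 3 + 1 = k + 4 := by ring
  have j1 : m + 1 + 1 = m + 2 := by ring
  have j2 : m + 2 + 1 = m + 3 := by ring
  have j3 : m + 3 + 1 = m + 4 := by ring
  simp only [i1, i2, i3, j1, j2, j3] at *
  have ny0 := S.yf_nonneg k m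
  have ny1 := S.yf_nonneg (k + 1) (m + 1)
  have ny2 := S.yf_nonneg (k + 2) (m + 2)
  have nx1 := S.yf_nonneg k (m + 1)
  have nx2 := S.yf_nonneg (k + 1) (m + 2)
  have nx3 := S.yf_nonneg (k + 2) (m + 3)
  have z0 : 3 / 10 ≤ S.zf k m := by linarith
  have z1 : 3 / 10 ≤ S.zf (k + 1) (m + 1) := by linarith
  have z2 : 3 / 10 ≤ S.zf (k + 2) (m + 2) := by linarith
  exact run_numeric _ _ _ _ _ _ _ nx1 nx2 nx3 (by linarith) (by linarith)
    (by linarith) (weaken_z _ _ _ _ ny2 nx3 z2 g2) (weaken_z _ _ _ _ ny1 nx2 z1 g1)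
    (weaken_z _ _ _ _ ny0 nx1 z0 g0)

/-- the median path cannot make three steps to the next index while the step to the same index is
available -/
theorem run_a (h : S.Unb (7 / 20)) (k : ℕ) (hk : k + 3 ≤ S.n)
    (hlo : S.lo (k + 1) ≤ S.med k) (m1 : S.med (k + 1) = S.med k + 1)
    (m2 : S.med (k + 2) = S.med k + 2) (m3 : S.med (k + 3) = S.med k + 3) : False := by
  have hc : (7 / 20 : ℝ) < 1 / 2 := by norm_num
  have hex : ∃ t, 3 ≤ t ∧ k + t < S.n ∧ (∀ j, j ≤ t → S.med (k + j) = S.med k + j) ∧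
      S.med (k + t + 1) = S.med k + t := by
    by_contra hcon
    push Not at hcon
    have hall : ∀ t, k + t ≤ S.n → ∀ j, j ≤ t → S.med (k + j) = S.med k + j := by
      intro t
      induction t with
      | zero =>
        intro _ j hj
        obtain rfl : j = 0 := by omega
        rfl
      | succ t ih =>
        intro ht j hj
        by_cases hj2 : j ≤ t
        · exact ih (by omega) j hj2
        · obtain rfl : j = t + 1 := by omega
          by_cases ht3 : t + 1 ≤ 3
          · have : t + 1 = 1 ∨ t + 1 = 2 ∨ t + 1 = 3 := by omega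
            rcases this with h1 | h1 | h1
            · rw [h1]; exact m1
            · rw [h1]; exact m2
            · rw [h1]; exact m3
          · have h1 := hcon t (by omega) (by omega) (ih (by omega))
            have h2 := h.med_step hc (k + t) (by omega)
            have h3 := ih (by omega) t (le_refl t)
            have e : k + (t + 1) = k + t + 1 := by ring
            rw [e]
            rcases h2 with h2 | h2
            · exact absurd (h2.trans h3) h1
            · rw [h2, h3]; ring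
    have h1 := hall (S.n - k) (by omega) (S.n - k) (le_refl _)
    have e : k + (S.n - k) = S.n := by omega
    rw [e] at h1
    have h2 := h.med_mem hc S.n (le_refl _)
    have h3 := S.lon
    have h4 := lo_add_le (S := S) (k + 1) (S.n - k - 1) (by omega)
    have e2 : k + 1 + (S.n - k - 1) = S.n := by omega
    rw [e2] at h4
    omega
  obtain ⟨t, ht3, htn, hall, hcr⟩ := hex
  have h1 := hall (t - 3) (by omega)
  have h2 := hall (t - 2) (by omega)
  have h3 := hall (t - 1) (by omega)
  have h4 := hall t (le_refl _)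
  have e1 : k + (t - 3) + 1 = k + (t - 2) := by omega
  have e2 : k + (t - 3) + 2 = k + (t - 1) := by omega
  have e3 : k + (t - 3) + 3 = k + t := by omega
  have e4 : k + (t - 3) + 4 = k + t + 1 := by omega
  apply run_a_core h (k + (t - 3)) (S.med k + (t - 3)) (by omega) _ h1
  · rw [e1, h2]; omega
  · rw [e2, h3]; omega
  · rw [e3, h4]; omega
  · rw [e4, hcr]; omega
  · have h5 := lo_add_le (S := S) (k + 1) (t - 3) (by omega)
    have e5 : k + (t - 3) + 1 = k + 1 + (t - 3) := by omega
    rw [e5]; omega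

theorem T_step_pred (k : ℕ) (hk : k < S.n) (m : ℕ) :
    S.T (k + 1) m = S.T k m + (predF (S.N k) m : ℝ) * S.w (k + 1) m := by
  cases m with
  | zero =>
    rw [S.T_total (k + 1) hk, S.T_total k hk.le]
    show (1 : ℝ) = 1 + ((0 : ℕ) : ℝ) * _
    simp
  | succ m =>
    exact S.T_step k hk m

/-- core: three steps to the same index followed by one step to the next index -/
theorem run_b_core (h : S.Unb (7 / 20)) (k m : ℕ) (hk : k + 4 ≤ S.n)
    (hhi : m + 1 ≤ S.hi (k + 1))
    (m0 : S.med k = m) (m1 : S.med (k + 1) = m) (m2 : S.med (k + 2) = m)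
    (m3 : S.med (k + 3) = m) (m4 : S.med (k + 4) = m + 1) : False := by
  have hc : (7 / 20 : ℝ) < 1 / 2 := by norm_num
  have a0 := h.dn hc k (by omega)
  have a1 := h.dn hc (k + 1) (by omega)
  have a2 := h.dn hc (k + 2) (by omega)
  have a3 := h.dn hc (k + 3) (by omega)
  have a4 := h.dn hc (k + 4) (by omega)
  have u0 := h.up hc k (by omega)
  have u1 := h.up hc (k + 1) (by omega)
  have u2 := h.up hc (k + 2) (by omega)
  have u3 := h.up hc (k + 3) (by omega)
  have b1 := h.med_mem hc (k + 1) (by omega)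
  have b2 := h.med_mem hc (k + 2) (by omega)
  have b3 := h.med_mem hc (k + 3) (by omega)
  have l3 := h.med_lt hc (k + 3) (by omega)
  rw [m0] at a0 u0
  rw [m1] at a1 u1 b1
  rw [m2] at a2 u2 b2
  rw [m3] at a3 u3 b3 l3
  rw [m4] at a4
  have hh2 : m + 1 ≤ S.hi (k + 2) := by
    have := le_hi_add (S := S) (k + 1) 1 (by omega)
    have e : k + 1 + 1 = k + 2 := by ring
    rw [e] at this; omega
  have hh3 : m + 1 ≤ S.hi (k + 3) := by
    have := le_hi_add (S := S) (k + 1) 2 (by omega)
    have e : k + 1 + 2 = k + 3 := by ring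
    rw [e] at this; omega
  have r10 := S.T_step k (by omega) m
  have r11 := S.T_step (k + 1) (by omega) m
  have r12 := S.T_step (k + 2) (by omega) m
  have r13 := S.T_step (k + 3) (by omega) m
  have q0 := S.T_succ_index k m (by omega)
  have q1 := S.T_succ_index (k + 1) m (by omega)
  have q2 := S.T_succ_index (k + 2) m (by omega)
  have q3 := S.T_succ_index (k + 3) m (by omega)
  have e0 := S.mass_eq k (by omega) m
  have e1 := S.mass_eq (k + 1) (by omega) m
  have e2 := S.mass_eq (k + 2) (by omega) m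
  have e3 := S.mass_eq (k + 3) (by omega) m
  have s0 := T_step_pred (S := S) k (by omega) m
  have s1 := T_step_pred (S := S) (k + 1) (by omega) m
  have s2 := T_step_pred (S := S) (k + 2) (by omega) m
  have g0 := growth_b (S := S) k m (by omega) (by omega) hhi
  have g1 := growth_b (S := S) (k + 1) m (by omega) (by show S.lo (k + 2) ≤ m; omega)
    (by show m + 1 ≤ S.hi (k + 2); omega)
  have g2 := growth_b (S := S) (k + 2) m (by omega) (by show S.lo (k + 3) ≤ m; omega)
    (by show m + 1 ≤ S.hi (k + 3); omega)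
  have t1 := S.T_le_one (k + 3) m (by omega)
  have t2 := S.T_nonneg k (m + 1)
  have i1 : k + 1 + 1 = k + 2 := by ring
  have i2 : k + 2 + 1 = k + 3 := by ring
  have i3 : k + 3 + 1 = k + 4 := by ring
  simp only [i1, i2, i3] at *
  have nx1 : 0 ≤ (predF (S.N k) m : ℝ) * S.w (k + 1) m := mul_nonneg (Nat.cast_nonneg _) (S.wn _ _)
  have nx2 : 0 ≤ (predF (S.N (k + 1)) m : ℝ) * S.w (k + 2) m :=
    mul_nonneg (Nat.cast_nonneg _) (S.wn _ _)
  have nx3 : 0 ≤ (predF (S.N (k + 2)) m : ℝ) * S.w (k + 3) m :=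
    mul_nonneg (Nat.cast_nonneg _) (S.wn _ _)
  have nz0 := S.zf_nonneg k m
  have nz1 := S.zf_nonneg (k + 1) m
  have nz2 := S.zf_nonneg (k + 2) m
  have z0 : 3 / 10 ≤ S.yf k m := by linarith
  have z1 : 3 / 10 ≤ S.yf (k + 1) m := by linarith
  have z2 : 3 / 10 ≤ S.yf (k + 2) m := by linarith
  exact run_numeric _ _ _ _ _ _ _ nx1 nx2 nx3 (by linarith) (by linarith)
    (by linarith) (weaken_z _ _ _ _ nz2 nx3 z2 g2) (weaken_z _ _ _ _ nz1 nx2 z1 g1)
    (weaken_z _ _ _ _ nz0 nx1 z0 g0)

/-- the median path cannot make three steps to the same index while the step to the next index is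
available -/
theorem run_b (h : S.Unb (7 / 20)) (k : ℕ) (hk : k + 3 ≤ S.n)
    (hhi : S.med k + 1 ≤ S.hi (k + 1)) (m1 : S.med (k + 1) = S.med k)
    (m2 : S.med (k + 2) = S.med k) (m3 : S.med (k + 3) = S.med k) : False := by
  have hc : (7 / 20 : ℝ) < 1 / 2 := by norm_num
  have hex : ∃ t, 3 ≤ t ∧ k + t < S.n ∧ (∀ j, j ≤ t → S.med (k + j) = S.med k) ∧
      S.med (k + t + 1) = S.med k + 1 := by
    by_contra hcon
    push Not at hcon
    have hall : ∀ t, k + t ≤ S.n → ∀ j, j ≤ t → S.med (k + j) = S.med k := by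
      intro t
      induction t with
      | zero =>
        intro _ j hj
        obtain rfl : j = 0 := by omega
        rfl
      | succ t ih =>
        intro ht j hj
        by_cases hj2 : j ≤ t
        · exact ih (by omega) j hj2
        · obtain rfl : j = t + 1 := by omega
          by_cases ht3 : t + 1 ≤ 3
          · have : t + 1 = 1 ∨ t + 1 = 2 ∨ t + 1 = 3 := by omega
            rcases this with h1 | h1 | h1
            · rw [h1]; exact m1
            · rw [h1]; exact m2
            · rw [h1]; exact m3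
          · have h1 := hcon t (by omega) (by omega) (ih (by omega))
            have h2 := h.med_step hc (k + t) (by omega)
            have h3 := ih (by omega) t (le_refl t)
            have e : k + (t + 1) = k + t + 1 := by ring
            rw [e]
            rcases h2 with h2 | h2
            · rw [h2, h3]
            · exact absurd (h2.trans (by rw [h3])) h1
    have h1 := hall (S.n - k) (by omega) (S.n - k) (le_refl _)
    have e : k + (S.n - k) = S.n := by omega
    rw [e] at h1
    have h2 := h.med_mem hc S.n (le_refl _)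
    have h3 := S.lon
    have h4 := le_hi_add (S := S) (k + 1) (S.n - k - 1) (by omega)
    have e2 : k + 1 + (S.n - k - 1) = S.n := by omega
    rw [e2] at h4
    omega
  obtain ⟨t, ht3, htn, hall, hcr⟩ := hex
  have h1 := hall (t - 3) (by omega)
  have h2 := hall (t - 2) (by omega)
  have h3 := hall (t - 1) (by omega)
  have h4 := hall t (le_refl _)
  have e1 : k + (t - 3) + 1 = k + (t - 2) := by omega
  have e2 : k + (t - 3) + 2 = k + (t - 1) := by omega
  have e3 : k + (t - 3) + 3 = k + t := by omega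
  have e4 : k + (t - 3) + 4 = k + t + 1 := by omega
  apply run_b_core h (k + (t - 3)) (S.med k) (by omega) _ h1
  · rw [e1, h2]
  · rw [e2, h3]
  · rw [e3, h4]
  · rw [e4, hcr]
  · have h5 := le_hi_add (S := S) (k + 1) (t - 3) (by omega)
    have e5 : k + (t - 3) + 1 = k + 1 + (t - 3) := by omega
    rw [e5]; omega

end Strip

end Pool.Agent.Gap
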