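import Mathlib
import Pool.Agent.Lib_MP_33fb9b_gap.Run

set_option autoImplicit false

/-!
# The certificate checker and its soundness
-/

namespace Pool.Agent.Gap

/-- pairing of a coefficient list (starting at index `s`) with a function -/
def dot : List ℕ → (ℕ → ℝ) → ℕ → ℝ
  | [], _, _ => 0
  | x :: xs, g, s => (x : ℝ) * g s + dot xs g (s + 1)

/-- the table of a function on `s, …, s + l - 1` -/
def tab (F : ℕ → ℕ) : ℕ → ℕ → List ℕ
  | _, 0 => []
  | s, l + 1 => F s :: tab F (s + 1) l

/-- one step of the path count, on lists -/
def go : ℕ → List ℕ → List ℕ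
  | p, [] => [p]
  | p, x :: xs => (p + x) :: go x xs

/-- one step of the path count with the two boundary choices -/
def push (il ih : Bool) (f : List ℕ) : List ℕ :=
  let g := go 0 f
  let g := bif il then g else g.tail
  bif ih then g else g.dropLast

/-- keep the entries after position `r` -/
def maskUp : ℕ → List ℕ → List ℕ
  | _, [] => []
  | 0, _ :: xs => 0 :: xs
  | r + 1, _ :: xs => 0 :: maskUp r xs

/-- keep the entries before position `r` -/
def maskDn : ℕ → List ℕ → List ℕ
  | _, [] => []
  | 0, xs => xs.map fun _ => 0
  | r + 1, x :: xs => x :: maskDn r xs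

/-- certificate trees -/
inductive Tr
  | l (lam : List (ℕ × ℕ))
  | e
  | n (a b c d e f g h : Tr)

/-- the state of the search -/
structure St where
  d : ℕ
  N : List ℕ
  C : List (List ℕ)
  r : ℕ
  ra : ℕ
  rb : ℕ

/-- add a multiple of the second list to the first one -/
def axpy (a : ℕ) : List ℕ → List ℕ → List ℕ
  | v :: vs, c :: cs => (v + a * c) :: axpy a vs cs
  | vs, _ => vs

/-- the combination of the constraint lists, with the total weight -/
def comb (C : List (List ℕ)) : List (ℕ × ℕ) → ℕ × List ℕ → ℕ × List ℕ
  | [], acc => acc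
  | (i, a) :: t, (L, V) =>
    match C[i]? with
    | none => comb C t (L, V)
    | some c => comb C t (L + a, axpy a V c)

/-- pointwise comparison `num * Λ * n ≤ v * den` -/
def cmp (num den L : ℕ) : List ℕ → List ℕ → Bool
  | v :: vs, n :: ns => Nat.ble (num * L * n) (v * den) && cmp num den L vs ns
  | [], [] => true
  | _, _ => false

/-- does the combination prove that some threshold is balanced? -/
def lamOK (num den : ℕ) (lam : List (ℕ × ℕ)) (C : List (List ℕ)) (N : List ℕ) : Bool :=
  match comb C lam (0, N.map fun _ => 0) with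
  | (L, V) => Nat.blt 0 L && cmp num den L V N

/-- the check for a level with one node -/
def closing (num den : ℕ) (st : St) (t : Tr) (C' : List (List ℕ)) (N' : List ℕ) : Bool :=
  match t with
  | .l lam => lamOK num den lam C' N'
  | .e => Nat.beq st.d 2 && (st.N == [1, 2] || st.N == [2, 1])
  | .n .. => false

/-- the state after a median step to the same index; `r'` is the new relative median -/
def stB (st : St) (N' : List ℕ) (C' : List (List ℕ)) (r' rb' : ℕ) : St :=
  { d := st.d + 1, N := N', C := maskUp r' N' :: maskDn r' N' :: C', r := r', ra := 0, rb := rb' }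

/-- the state after a median step to the next index -/
def stA (st : St) (N' : List ℕ) (C' : List (List ℕ)) (r' ra' : ℕ) : St :=
  { d := st.d + 1, N := N', C := maskUp r' N' :: maskDn r' N' :: C', r := r', ra := ra', rb := 0 }

/-- the check for one choice of the boundary steps -/
def br (num den : ℕ) (st : St) (il ih : Bool) (ta tb : St → Bool) (tc : Tr) : Bool :=
  let N' := push il ih st.N
  let C' := st.C.map (push il ih)
  if N'.length = 0 then true
  else if N'.length = 1 then closing num den st tc C' N'
  else
    (if st.r + (bif il then 1 else 0) = 0 ∨ N'.length ≤ st.r + (bif il then 1 else 0) - 1 ∨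
        3 ≤ (if ih = true ∨ st.r + 1 < st.N.length then st.rb + 1 else 0) then true
      else ta (stB st N' C' (st.r + (bif il then 1 else 0) - 1)
        (if ih = true ∨ st.r + 1 < st.N.length then st.rb + 1 else 0))) &&
    (if N'.length ≤ st.r + (bif il then 1 else 0) ∨
        3 ≤ (if il = true ∨ 1 ≤ st.r then st.ra + 1 else 0) then true
      else tb (stA st N' C' (st.r + (bif il then 1 else 0))
        (if il = true ∨ 1 ≤ st.r then st.ra + 1 else 0)))

/-- the checker -/
def check (num den : ℕ) : Tr → St → Bool
  | .l lam, st => lamOK num den lam st.C st.N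
  | .e, _ => false
  | .n t0 t1 t2 t3 t4 t5 t6 t7, st =>
    br num den st false false (check num den t0) (check num den t1) t0 &&
    (br num den st false true (check num den t2) (check num den t3) t2 &&
    (br num den st true false (check num den t4) (check num den t5) t4 &&
     br num den st true true (check num den t6) (check num den t7) t6))

/-! ### Lemmas on lists -/

theorem length_go (p : ℕ) (f : List ℕ) : (go p f).length = f.length + 1 := by
  induction f generalizing p with
  | nil => rfl
  | cons x xs ih => simp [go, ih]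

theorem length_tab (F : ℕ → ℕ) (s l : ℕ) : (tab F s l).length = l := by
  induction l generalizing s with
  | zero => rfl
  | succ l ih => simp [tab, ih]

theorem dot_go (p : ℕ) (f : List ℕ) (g : ℕ → ℝ) (s : ℕ) :
    dot (go p f) g s = (p : ℝ) * g s + dot f (fun i => g i + g (i + 1)) s := by
  induction f generalizing p s with
  | nil => simp [go, dot]
  | cons x xs ih =>
    simp only [go, dot]
    rw [ih]
    push_cast
    ring

theorem dot_congr (f : List ℕ) (g g' : ℕ → ℝ) (s : ℕ)
    (h : ∀ i, s ≤ i → i < s + f.length → g i = g' i) : dot f g s = dot f g' s := by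
  induction f generalizing s with
  | nil => rfl
  | cons x xs ih =>
    simp only [dot]
    rw [h s (le_refl _) (by simp), ih (s + 1)]
    intro i h1 h2
    apply h i (by omega)
    simp only [List.length_cons]
    omega

theorem dot_append (f f' : List ℕ) (g : ℕ → ℝ) (s : ℕ) :
    dot (f ++ f') g s = dot f g s + dot f' g (s + f.length) := by
  induction f generalizing s with
  | nil => simp [dot]
  | cons x xs ih =>
    simp only [List.cons_append, dot, ih, List.length_cons]
    have : s + 1 + xs.length = s + (xs.length + 1) := by ring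
    rw [this]; ring

theorem dot_dropLast (f : List ℕ) (g : ℕ → ℝ) (s : ℕ) (hf : f ≠ [])
    (h : g (s + f.length - 1) = 0) : dot f.dropLast g s = dot f g s := by
  conv_rhs => rw [← List.dropLast_append_getLast hf]
  rw [dot_append]
  have h1 : 0 < f.length := List.length_pos_iff.mpr hf
  have : s + f.dropLast.length = s + f.length - 1 := by
    rw [List.length_dropLast]; omega
  simp only [dot, this, h]
  ring

theorem dot_tail (f : List ℕ) (g : ℕ → ℝ) (s : ℕ) (h : g s = 0) :
    dot f.tail g (s + 1) = dot f g s := by
  cases f with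
  | nil => rfl
  | cons x xs => simp only [List.tail_cons, dot, h]; ring

theorem dot_nonneg (f : List ℕ) (g : ℕ → ℝ) (hg : ∀ i, 0 ≤ g i) (s : ℕ) : 0 ≤ dot f g s := by
  induction f generalizing s with
  | nil => exact le_refl _
  | cons x xs ih =>
    simp only [dot]
    have := mul_nonneg (Nat.cast_nonneg (α := ℝ) x) (hg s)
    have := ih (s + 1)
    linarith

theorem dot_zero_map (f : List ℕ) (g : ℕ → ℝ) (s : ℕ) : dot (f.map fun _ => 0) g s = 0 := by
  induction f generalizing s with
  | nil => rfl
  | cons x xs ih => simp only [List.map_cons, dot, ih]; simp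

theorem length_push (il ih : Bool) (f : List ℕ) (hf : f ≠ []) :
    (push il ih f).length = f.length - 1 + (bif il then 1 else 0) + (bif ih then 1 else 0) := by
  have h1 : 0 < f.length := List.length_pos_iff.mpr hf
  cases il <;> cases ih <;> simp [push, length_go] <;> omega

theorem tab_go (F : ℕ → ℕ) (s l : ℕ) (hF : F (s + l) = 0) :
    go (predF F s) (tab F s l) = tab (fun i => F i + predF F i) s (l + 1) := by
  induction l generalizing s with
  | zero =>
    simp only [Nat.add_zero] at hF
    simp [tab, go, hF]
  | succ l ih =>
    have h1 := ih (s + 1) (by rw [← hF]; congr 1; ring)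
    have h2 : predF F (s + 1) = F s := rfl
    rw [h2] at h1
    show (predF F s + F s) :: go (F s) (tab F (s + 1) l) = _
    rw [h1]
    show _ = (F s + predF F s) :: tab _ (s + 1) (l + 1)
    rw [Nat.add_comm (predF F s)]

theorem tab_congr (F G : ℕ → ℕ) (s l : ℕ) (h : ∀ i, s ≤ i → i < s + l → F i = G i) :
    tab F s l = tab G s l := by
  induction l generalizing s with
  | zero => rfl
  | succ l ih =>
    simp only [tab]
    rw [h s (le_refl _) (by omega), ih (s + 1)]
    intro i h1 h2
    exact h i (by omega) (by omega)

theorem tab_dropLast (F : ℕ → ℕ) (s l : ℕ) : (tab F s (l + 1)).dropLast = tab F s l := by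
  induction l generalizing s with
  | zero => rfl
  | succ l ih =>
    have h1 := ih (s + 1)
    show (F s :: tab F (s + 1) (l + 1)).dropLast = _
    have h2 : tab F (s + 1) (l + 1) ≠ [] := by simp [tab]
    rw [List.dropLast_cons_of_ne_nil h2, h1]
    rfl

theorem dot_tab (F : ℕ → ℕ) (g : ℕ → ℝ) (s l : ℕ) :
    dot (tab F s l) g s = ∑ i ∈ Finset.Ico s (s + l), (F i : ℝ) * g i := by
  induction l generalizing s with
  | zero => simp [tab, dot]
  | succ l ih =>
    simp only [tab, dot]
    rw [ih, Finset.sum_eq_sum_Ico_succ_bot (by omega : s < s + (l + 1))]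
    have : s + 1 + l = s + (l + 1) := by ring
    rw [this]

theorem length_maskUp (r : ℕ) (f : List ℕ) : (maskUp r f).length = f.length := by
  induction f generalizing r with
  | nil => cases r <;> rfl
  | cons x xs ih =>
    cases r with
    | zero => rfl
    | succ r => simp [maskUp, ih]

theorem length_maskDn (r : ℕ) (f : List ℕ) : (maskDn r f).length = f.length := by
  induction f generalizing r with
  | nil => cases r <;> rfl
  | cons x xs ih =>
    cases r with
    | zero => simp [maskDn]
    | succ r => simp [maskDn, ih]

theorem dot_maskUp_tab (F : ℕ → ℕ) (g : ℕ → ℝ) (s l r : ℕ) (hr : r < l) :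
    dot (maskUp r (tab F s l)) g s = ∑ i ∈ Finset.Ico (s + r + 1) (s + l), (F i : ℝ) * g i := by
  induction r generalizing s l with
  | zero =>
    obtain ⟨l, rfl⟩ : ∃ l', l = l' + 1 := ⟨l - 1, by omega⟩
    simp only [tab, maskUp, dot]
    rw [dot_tab]
    have : s + 1 + l = s + (l + 1) := by ring
    rw [this]
    simp
  | succ r ih =>
    obtain ⟨l, rfl⟩ : ∃ l', l = l' + 1 := ⟨l - 1, by omega⟩
    simp only [tab, maskUp, dot]
    rw [ih (s + 1) l (by omega)]
    have h1 : s + 1 + l = s + (l + 1) := by ring
    have h2 : s + 1 + r + 1 = s + (r + 1) + 1 := by ring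
    rw [h1, h2]
    simp

theorem dot_maskDn_tab (F : ℕ → ℕ) (g : ℕ → ℝ) (s l r : ℕ) (hr : r < l) :
    dot (maskDn r (tab F s l)) g s = ∑ i ∈ Finset.Ico s (s + r), (F i : ℝ) * g i := by
  induction r generalizing s l with
  | zero =>
    obtain ⟨l, rfl⟩ : ∃ l', l = l' + 1 := ⟨l - 1, by omega⟩
    simp only [tab, maskDn]
    rw [dot_zero_map]
    simp
  | succ r ih =>
    obtain ⟨l, rfl⟩ : ∃ l', l = l' + 1 := ⟨l - 1, by omega⟩
    simp only [tab, maskDn, dot]
    rw [ih (s + 1) l (by omega),
      Finset.sum_eq_sum_Ico_succ_bot (by omega : s < s + (r + 1))]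
    have h2 : s + 1 + r = s + (r + 1) := by ring
    rw [h2]

theorem length_axpy (a : ℕ) (v c : List ℕ) : (axpy a v c).length = v.length := by
  induction v generalizing c with
  | nil => simp [axpy]
  | cons x xs ih =>
    cases c with
    | nil => simp [axpy]
    | cons y ys => simp [axpy, ih]

theorem dot_axpy (a : ℕ) (v c : List ℕ) (h : v.length = c.length) (g : ℕ → ℝ) (s : ℕ) :
    dot (axpy a v c) g s = dot v g s + (a : ℝ) * dot c g s := by
  induction v generalizing c s with
  | nil =>
    cases c with
    | nil => simp [axpy, dot]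
    | cons y ys => simp at h
  | cons x xs ih =>
    cases c with
    | nil => simp at h
    | cons y ys =>
      simp only [axpy, dot]
      rw [ih ys (by simpa using h)]
      push_cast
      ring

theorem dot_cmp (num den L : ℕ) (V N : List ℕ) (h : cmp num den L V N = true) (g : ℕ → ℝ)
    (hg : ∀ i, 0 ≤ g i) (s : ℕ) : (num : ℝ) * L * dot N g s ≤ dot V g s * den := by
  induction V generalizing N s with
  | nil =>
    cases N with
    | nil => simp [dot]
    | cons y ys => simp [cmp] at h
  | cons x xs ih =>
    cases N with
    | nil => simp [cmp] at h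
    | cons y ys =>
      simp only [cmp, Bool.and_eq_true, Nat.ble_eq] at h
      have h1 := ih ys h.2 (s + 1)
      have h2 : ((num * L * y : ℕ) : ℝ) ≤ ((x * den : ℕ) : ℝ) := by exact_mod_cast h.1
      push_cast at h2
      simp only [dot]
      have h3 := mul_le_mul_of_nonneg_right h2 (hg s)
      nlinarith

/-- the combination of constraints -/
theorem comb_spec (C : List (List ℕ)) (len : ℕ) (g : ℕ → ℝ) (s : ℕ) (c : ℝ)
    (hC : ∀ x ∈ C, x.length = len ∧ dot x g s < c) (lam : List (ℕ × ℕ)) (L : ℕ) (V : List ℕ)
    (hV : V.length = len) (hle : dot V g s ≤ c * L) (hlt : 0 < L → dot V g s < c * L) :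
    (comb C lam (L, V)).2.length = len ∧
    dot (comb C lam (L, V)).2 g s ≤ c * (comb C lam (L, V)).1 ∧
    (0 < (comb C lam (L, V)).1 → dot (comb C lam (L, V)).2 g s < c * (comb C lam (L, V)).1) := by
  induction lam generalizing L V with
  | nil => exact ⟨hV, hle, hlt⟩
  | cons p t ih =>
    obtain ⟨i, a⟩ := p
    rcases hi : C[i]? with _ | c0
    · simp only [comb, hi]
      exact ih L V hV hle hlt
    · simp only [comb, hi]
      have hmem : c0 ∈ C := List.mem_of_getElem? hi
      obtain ⟨h1, h2⟩ := hC c0 hmem
      have h3 : dot (axpy a V c0) g s = dot V g s + (a : ℝ) * dot c0 g s :=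
        dot_axpy a V c0 (hV.trans h1.symm) g s
      apply ih
      · rw [length_axpy, hV]
      · rw [h3]
        push_cast
        have : (a : ℝ) * dot c0 g s ≤ a * c := mul_le_mul_of_nonneg_left h2.le (Nat.cast_nonneg _)
        linarith
      · intro hpos
        rw [h3]
        push_cast
        rcases Nat.eq_zero_or_pos a with ha | ha
        · subst ha
          have := hlt (by omega)
          simp only [Nat.cast_zero, zero_mul, add_zero]
          exact this
        · have : (a : ℝ) * dot c0 g s < a * c :=
            mul_lt_mul_of_pos_left h2 (by exact_mod_cast ha)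
          linarith

theorem lamOK_false (num den : ℕ) (hden : 0 < den) (lam : List (ℕ × ℕ)) (C : List (List ℕ))
    (N : List ℕ) (g : ℕ → ℝ) (hg : ∀ i, 0 ≤ g i) (s : ℕ)
    (hC : ∀ x ∈ C, x.length = N.length ∧ dot x g s < (num : ℝ) / den)
    (hN : dot N g s = 1) (h : lamOK num den lam C N = true) : False := by
  unfold lamOK at h
  have hsp := comb_spec C N.length g s ((num : ℝ) / den) hC lam 0 (N.map fun _ => 0) (by simp)
    (by rw [dot_zero_map]; simp) (by intro h; omega)
  rcases hcomb : comb C lam (0, N.map fun _ => 0) with ⟨L, V⟩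
  rw [hcomb] at h hsp
  simp only [Bool.and_eq_true, Nat.blt_eq] at h
  simp only at hsp
  have h1 := hsp.2.2 h.1
  have h2 := dot_cmp num den L V N h.2 g hg s
  rw [hN] at h2
  have hd : (0 : ℝ) < den := by exact_mod_cast hden
  have h3 : dot V g s * den < (num : ℝ) / den * L * den := mul_lt_mul_of_pos_right h1 hd
  have h4 : (num : ℝ) / den * L * den = num * L := by field_simp
  rw [h4] at h3
  linarith

end Pool.Agent.Gap
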