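import Mathlib
import Pool.Agent.Lib_MP_33fb9b_gap.Defs

set_option autoImplicit false

/-!
# A rank-function description of the class `𝒟`
-/

namespace Pool.Agent.Gap

open Classical

/-- `T` is a singleton or induces the three-element poset with one relation -/
def FibOK {P : Type} [PartialOrder P] (T : Set P) : Prop :=
  (∃ x, T = {x}) ∨
  (∃ x y z, T = {x, y, z} ∧ x < y ∧ ¬ x ≤ z ∧ ¬ z ≤ x ∧ ¬ y ≤ z ∧ ¬ z ≤ y)

/-- description by a rank function -/
def DSall (P : Type) [PartialOrder P] : Prop :=
  ∃ (k : ℕ) (f : P → ℕ), (∀ x, f x < k) ∧ (∀ x y, f x < f y → x < y) ∧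
    (∀ i, i < k → FibOK {x | f x = i})

theorem FibOK.image {P : Type} [PartialOrder P] {M : Set P} {T : Set M} (h : FibOK T) :
    FibOK (Subtype.val '' T) := by
  rcases h with ⟨x, rfl⟩ | ⟨x, y, z, rfl, h1, h2, h3, h4, h5⟩
  · left
    exact ⟨x.1, by rw [Set.image_singleton]⟩
  · right
    refine ⟨x.1, y.1, z.1, ?_, h1, h2, h3, h4, h5⟩
    rw [Set.image_insert_eq, Set.image_insert_eq, Set.image_singleton]

theorem DSall.cons {P : Type} [PartialOrder P] (M : Set P)
    (hM : ∀ x, x ∉ M → ∀ y ∈ M, x < y) (hI : FibOK (Mᶜ)) (h : DSall M) : DSall P := by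
  obtain ⟨k, f, h1, h2, h3⟩ := h
  refine ⟨k + 1, fun x => if hx : x ∈ M then f ⟨x, hx⟩ + 1 else 0, ?_, ?_, ?_⟩
  · intro x
    by_cases hx : x ∈ M
    · simp only [hx, dif_pos]
      have := h1 ⟨x, hx⟩
      omega
    · simp only [hx, dif_neg, not_false_iff]
      omega
  · intro x y hxy
    by_cases hx : x ∈ M
    · by_cases hy : y ∈ M
      · simp only [hx, hy, dif_pos] at hxy
        exact h2 ⟨x, hx⟩ ⟨y, hy⟩ (by omega)
      · simp only [hx, hy, dif_pos, dif_neg, not_false_iff] at hxy
        omega
    · by_cases hy : y ∈ M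
      · exact hM x hx y hy
      · simp only [hx, hy, dif_neg, not_false_iff] at hxy
        omega
  · intro i hi
    cases i with
    | zero =>
      have : {x | (if hx : x ∈ M then f ⟨x, hx⟩ + 1 else 0) = 0} = Mᶜ := by
        ext x
        by_cases hx : x ∈ M <;> simp [hx]
      rw [this]
      exact hI
    | succ i =>
      have : {x | (if hx : x ∈ M then f ⟨x, hx⟩ + 1 else 0) = i + 1} =
          Subtype.val '' {x : M | f x = i} := by
        ext x
        by_cases hx : x ∈ M
        · simp [hx]
        · simp [hx]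
      rw [this]
      exact (h3 i (by omega)).image

theorem DSall.of_fib {P : Type} [PartialOrder P] (h : FibOK (Set.univ : Set P)) : DSall P := by
  refine ⟨1, fun _ => 0, fun _ => Nat.one_pos, fun x y h => absurd h (lt_irrefl _), ?_⟩
  intro i hi
  have : i = 0 := by omega
  subst this
  have : {x : P | (0 : ℕ) = 0} = Set.univ := by ext x; simp
  rw [this]
  exact h

/-- the fibre of a good rank function is isomorphic to one of the two building blocks -/
theorem fib_iso {P : Type} [PartialOrder P] (T : Set P) (h : FibOK T) :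
    Nonempty (T ≃o Fin 1) ∨ Nonempty (T ≃o (Fin 2 ⊕ Fin 1)) := by
  rcases h with ⟨x, rfl⟩ | ⟨x, y, z, rfl, hxy, h2, h3, h4, h5⟩
  · left
    exact ⟨{ toFun := fun _ => 0
             invFun := fun _ => ⟨x, rfl⟩
             left_inv := fun y => Subtype.ext y.2.symm
             right_inv := fun y => Subsingleton.elim _ _
             map_rel_iff' := by
               intro a b
               have : a = b := Subtype.ext (a.2.trans b.2.symm)
               simp [this] }⟩
  · right
    have hx : x ∈ ({x, y, z} : Set P) := by simp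
    have hy : y ∈ ({x, y, z} : Set P) := by simp
    have hz : z ∈ ({x, y, z} : Set P) := by simp
    have nxy : x ≠ y := hxy.ne
    have nxz : x ≠ z := fun h => h2 (h ▸ le_refl _)
    have nyz : y ≠ z := fun h => h4 (h ▸ le_refl _)
    let F : Fin 2 ⊕ Fin 1 → ({x, y, z} : Set P) := fun s => match s with
      | Sum.inl 0 => ⟨x, hx⟩
      | Sum.inl 1 => ⟨y, hy⟩
      | Sum.inr _ => ⟨z, hz⟩
    have Fx : F (Sum.inl 0) = ⟨x, hx⟩ := rfl
    have Fy : F (Sum.inl 1) = ⟨y, hy⟩ := rfl
    have Fz : ∀ u, F (Sum.inr u) = ⟨z, hz⟩ := fun _ => rfl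
    have hinj : Function.Injective F := by
      intro a b hab
      rcases a with a | a <;> rcases b with b | b
      · have ha : a = 0 ∨ a = 1 := by omega
        have hb : b = 0 ∨ b = 1 := by omega
        rcases ha with rfl | rfl <;> rcases hb with rfl | rfl
        · rfl
        · rw [Fx, Fy, Subtype.mk.injEq] at hab; exact absurd hab nxy
        · rw [Fx, Fy, Subtype.mk.injEq] at hab; exact absurd hab nxy.symm
        · rfl
      · have ha : a = 0 ∨ a = 1 := by omega
        rcases ha with rfl | rfl
        · rw [Fx, Fz b, Subtype.mk.injEq] at hab; exact absurd hab nxz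
        · rw [Fy, Fz b, Subtype.mk.injEq] at hab; exact absurd hab nyz
      · have hb : b = 0 ∨ b = 1 := by omega
        rcases hb with rfl | rfl
        · rw [Fx, Fz a, Subtype.mk.injEq] at hab; exact absurd hab nxz.symm
        · rw [Fy, Fz a, Subtype.mk.injEq] at hab; exact absurd hab nyz.symm
      · congr 1; exact Subsingleton.elim _ _
    have hsurj : Function.Surjective F := by
      rintro ⟨w, hw⟩
      have hw' : w = x ∨ w = y ∨ w = z := by simpa using hw
      rcases hw' with rfl | rfl | rfl
      · exact ⟨Sum.inl 0, rfl⟩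
      · exact ⟨Sum.inl 1, rfl⟩
      · exact ⟨Sum.inr 0, rfl⟩
    let E := Equiv.ofBijective F ⟨hinj, hsurj⟩
    have hrel : ∀ a b, F a ≤ F b ↔ a ≤ b := by
      intro a b
      rcases a with a | a <;> rcases b with b | b
      · rw [Sum.inl_le_inl_iff]
        have ha : a = 0 ∨ a = 1 := by omega
        have hb : b = 0 ∨ b = 1 := by omega
        rcases ha with rfl | rfl <;> rcases hb with rfl | rfl
        · simp
        · rw [Fx, Fy, Subtype.mk_le_mk]; simp [hxy.le]
        · rw [Fx, Fy, Subtype.mk_le_mk]
          simp [not_le_of_gt hxy]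
        · simp
      · have ha : a = 0 ∨ a = 1 := by omega
        rcases ha with rfl | rfl
        · rw [Fx, Fz b, Subtype.mk_le_mk]; simp [h2]
        · rw [Fy, Fz b, Subtype.mk_le_mk]; simp [h4]
      · have hb : b = 0 ∨ b = 1 := by omega
        rcases hb with rfl | rfl
        · rw [Fx, Fz a, Subtype.mk_le_mk]; simp [h3]
        · rw [Fy, Fz a, Subtype.mk_le_mk]; simp [h5]
      · have : a = b := Subsingleton.elim _ _
        simp [this]
    exact ⟨({ toEquiv := E, map_rel_iff' := fun {a b} => hrel a b } : _ ≃o _).symm⟩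

theorem DSall.inD {P : Type} [PartialOrder P] [Nonempty P] (h : DSall P) : InD P := by
  obtain ⟨k, f, h1, h2, h3⟩ := h
  have hk : 1 ≤ k := by
    obtain ⟨x⟩ := ‹Nonempty P›
    have := h1 x
    omega
  refine ⟨k, fun i => ({x | f x = i.val} : Set P), fun i => inferInstance, hk, ?_, ?_⟩
  · intro i
    exact fib_iso _ (h3 i.val i.2)
  · let E : P ≃ (Σₗ i : Fin k, ({x | f x = i.val} : Set P)) :=
      { toFun := fun x => toLex ⟨⟨f x, h1 x⟩, ⟨x, rfl⟩⟩
        invFun := fun s => (ofLex s).2.1
        left_inv := fun x => rfl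
        right_inv := by
          intro s
          obtain ⟨⟨i, hi⟩, ⟨x, hx⟩⟩ := s
          have hx' : f x = i := hx
          subst hx'
          rfl }
    refine ⟨{ toEquiv := E, map_rel_iff' := ?_ }⟩
    intro x y
    show toLex (⟨⟨f x, h1 x⟩, ⟨x, rfl⟩⟩ : Σ i : Fin k, ({x | f x = i.val} : Set P)) ≤
      toLex ⟨⟨f y, h1 y⟩, ⟨y, rfl⟩⟩ ↔ x ≤ y
    rw [Sigma.Lex.le_def]
    constructor
    · rintro (h | ⟨h, h'⟩)
      · exact (h2 x y h).le
      · have h4 : f x = f y := congrArg Fin.val h
        have key : ∀ (i j : Fin k) (hij : i = j) (a : ({x | f x = i.val} : Set P))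
            (b : ({x | f x = j.val} : Set P)), hij.rec (motive := fun j' _ =>
              ({x | f x = j'.val} : Set P)) a ≤ b → a.1 ≤ b.1 := by
          intro i j hij a b hab
          subst hij
          exact hab
        exact key _ _ h _ _ h'
    · intro hxy
      rcases lt_trichotomy (f x) (f y) with h | h | h
      · left; exact h
      · right
        have hij : (⟨f x, h1 x⟩ : Fin k) = ⟨f y, h1 y⟩ := Fin.ext h
        refine ⟨hij, ?_⟩
        have key : ∀ (i j : Fin k) (hij : i = j) (a : ({x | f x = i.val} : Set P))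
            (b : ({x | f x = j.val} : Set P)), a.1 ≤ b.1 → hij.rec (motive := fun j' _ =>
              ({x | f x = j'.val} : Set P)) a ≤ b := by
          intro i j hij a b hab
          subst hij
          exact hab
        exact key _ _ hij _ _ hxy
      · exact absurd hxy (not_le_of_gt (h2 y x h))

end Pool.Agent.Gap
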