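import Mathlib
import Pool.Agent.Lib_MP_33fb9b_gap.Check

set_option autoImplicit false

/-!
# The certificate trees
-/

namespace Pool.Agent.Gap.Data

def s0 : Tr := .n (.l []) (.l [(2, 1)]) (.l []) (.l [(2, 1)]) (.n (.l []) (.l [(2, 1)]) (.l [])
  (.l [(2, 1)]) (.l []) (.l [(1, 1), (2, 2), (7, 3)]) (.l []) (.l [(1, 1), (2, 2), (7, 2)])) (.n
  (.n (.l [(0, 1)]) (.l []) (.l []) (.l [(2, 1)]) (.l [(0, 1), (13, 19)]) (.l [(1, 1), (6, 5)])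
  (.n (.l []) (.l [(2, 1)]) (.l []) (.l [(2, 1)]) (.l []) (.l [(1, 2), (2, 3)]) (.l []) (.l [(1,
  2), (2, 3)])) (.l [(1, 1), (6, 5)])) (.l [(1, 1), (4, 2)]) (.n (.l []) (.l [(2, 1)]) (.l [])
  (.l [(2, 1)]) (.n (.l []) (.l [(2, 1)]) (.l []) (.l [(2, 1)]) (.l []) (.l [(1, 2), (2, 3)])
  (.l []) (.l [(1, 2), (2, 3)])) (.l [(1, 1), (6, 5)]) (.n (.l []) (.l [(2, 1)]) (.l []) (.l
  [(2, 1)]) (.l []) (.l [(1, 2), (2, 3)]) (.l []) (.l [(1, 2), (2, 3)])) (.l [(1, 1), (6, 5)]))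
  (.l [(1, 1), (4, 2)]) (.n (.l [(0, 1), (5, 2)]) (.l [(1, 3), (54, 9999997)]) (.l [(0, 7), (5,
  13)]) (.l [(1, 3), (54, 9999997)]) (.l [(0, 1), (5, 2)]) (.l [(1, 13), (5, 43), (54,
  99999944)]) (.l [(0, 7), (5, 13)]) (.l [(1, 13), (5, 43), (54, 99999944)])) (.l [(1, 2), (4,
  3)]) (.n (.l [(0, 1), (5, 6), (6, 4)]) (.l [(1, 3), (54, 9999997)]) (.l [(0, 1), (5, 6), (6,
  4)]) (.l [(1, 3), (54, 9999997)]) (.l [(0, 1), (5, 6), (6, 4)]) (.l [(1, 13), (5, 43), (54,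
  99999944)]) (.l [(0, 1), (5, 6), (6, 4)]) (.l [(1, 13), (5, 43), (54, 99999944)])) (.l [(1,
  2), (4, 3)])) (.n (.l []) (.l [(2, 1)]) (.l []) (.l [(2, 1)]) (.l []) (.l [(1, 1), (2, 2), (7,
  2)]) (.l []) (.l [(1, 1), (2, 2), (7, 2)])) (.n (.n (.l []) (.l [(2, 1)]) (.l []) (.l [(2,
  1)]) (.n (.l []) (.l [(2, 1)]) (.l []) (.l [(2, 1)]) (.l []) (.l [(1, 2), (2, 3)]) (.l []) (.l
  [(1, 2), (2, 3)])) (.l [(1, 1), (6, 5)]) (.n (.l []) (.l [(2, 1)]) (.l []) (.l [(2, 1)]) (.l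
  []) (.l [(1, 2), (2, 3)]) (.l []) (.l [(1, 2), (2, 3)])) (.l [(1, 1), (6, 5)])) (.l [(1, 1),
  (4, 2)]) (.n (.l []) (.l [(2, 1)]) (.l []) (.l [(2, 1)]) (.n (.l []) (.l [(2, 1)]) (.l []) (.l
  [(2, 1)]) (.l []) (.l [(1, 2), (2, 3)]) (.l []) (.l [(1, 2), (2, 3)])) (.l [(1, 1), (6, 5)])
  (.n (.l []) (.l [(2, 1)]) (.l []) (.l [(2, 1)]) (.l []) (.l [(1, 2), (2, 3)]) (.l []) (.l [(1,
  2), (2, 3)])) (.l [(1, 1), (6, 5)])) (.l [(1, 1), (4, 2)]) (.n (.l [(0, 1), (5, 5), (6, 3)])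
  (.l [(1, 3), (54, 9999997)]) (.l [(0, 1), (5, 5), (6, 3)]) (.l [(1, 3), (54, 9999997)]) (.l
  [(0, 1), (5, 5), (6, 3)]) (.l [(1, 13), (5, 43), (54, 99999944)]) (.l [(0, 1), (5, 5), (6,
  3)]) (.l [(1, 13), (5, 43), (54, 99999944)])) (.l [(1, 2), (4, 3)]) (.n (.l [(0, 1), (5, 5),
  (6, 3)]) (.l [(1, 3), (54, 9999997)]) (.l [(0, 1), (5, 5), (6, 3)]) (.l [(1, 3), (54,
  9999997)]) (.l [(0, 1), (5, 5), (6, 3)]) (.l [(1, 13), (5, 43), (54, 99999944)]) (.l [(0, 1),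
  (5, 5), (6, 3)]) (.l [(1, 13), (5, 43), (54, 99999944)])) (.l [(1, 2), (4, 3)]))

def s1 : Tr := .n (.l [(0, 1), (5, 2)]) (.l [(5, 44), (46, 9999956)]) (.l [(0, 2), (5, 3)]) (.n
  (.l [(7, 428), (48, 99999572)]) (.l [(1, 1), (4, 2)]) s0 (.l [(1, 1), (4, 2)]) (.l [(0, 39),
  (7, 4437), (48, 999995524)]) (.l [(1, 7), (4, 13)]) (.n (.l [(0, 2), (5, 3)]) (.l [(2, 1), (9,
  3)]) (.l [(0, 2), (5, 3)]) (.l [(2, 5), (5, 3), (9, 6)]) (.l [(0, 2), (5, 3)]) (.l [(2, 1),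
  (9, 3)]) (.l [(0, 2), (5, 3)]) (.l [(2, 5), (5, 3), (9, 6)])) (.l [(1, 7), (4, 13)])) (.l [(0,
  1), (5, 2)]) (.n (.l [(3, 1)]) (.l []) (.l [(0, 1), (7, 5)]) (.l [(7, 453), (48, 99999547)])
  (.l [(3, 1)]) (.l []) (.l [(0, 1), (7, 5)]) (.n (.l [(3, 1)]) (.l []) (.l [(0, 2), (3, 3)])
  (.l []) (.l [(3, 1)]) (.l []) (.l [(0, 2), (3, 3)]) (.l []))) (.l [(0, 2), (5, 3)]) (.n (.n
  (.l [(0, 1), (5, 2)]) (.l [(2, 1), (9, 2)]) (.l [(0, 2), (5, 3)]) (.l [(2, 1), (9, 2)]) (.l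
  [(0, 1), (5, 2)]) (.l [(2, 1), (9, 2)]) (.l [(0, 2), (5, 3)]) (.l [(2, 1), (9, 2)])) (.l [(1,
  1), (4, 6), (7, 4)]) (.n (.l [(0, 2), (5, 3)]) (.l [(2, 1), (9, 2)]) (.l [(0, 2), (5, 3)]) (.l
  [(2, 2), (5, 1), (9, 2)]) (.l [(0, 2), (5, 3)]) (.l [(2, 1), (9, 2)]) (.l [(0, 2), (5, 3)])
  (.l [(2, 2), (5, 1), (9, 2)])) (.l [(1, 1), (4, 6), (7, 4)]) (.n (.l [(0, 1), (5, 2)]) (.l
  [(2, 1), (9, 2)]) (.l [(0, 2), (5, 3)]) (.l [(2, 1), (9, 2)]) (.l [(0, 1), (5, 2)]) (.l [(2,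
  1), (9, 2)]) (.l [(0, 2), (5, 3)]) (.l [(2, 1), (9, 2)])) (.l [(1, 1), (4, 6), (7, 4)]) (.n
  (.l [(0, 2), (5, 3)]) (.l [(2, 1), (9, 2)]) (.l [(0, 2), (5, 3)]) (.l [(2, 2), (5, 1), (9,
  2)]) (.l [(0, 2), (5, 3)]) (.l [(2, 1), (9, 2)]) (.l [(0, 2), (5, 3)]) (.l [(2, 2), (5, 1),
  (9, 2)])) (.l [(1, 1), (4, 6), (7, 4)]))

def s2 : Tr := .n (.l [(0, 1), (5, 2)]) (.n (.l [(3, 1)]) (.l []) (.l [(0, 1), (7, 5)]) (.n (.l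
  [(3, 1)]) (.l []) (.l [(0, 2), (3, 3)]) (.l []) (.l [(3, 1)]) (.l []) (.l [(0, 2), (3, 3)])
  (.l [])) (.l [(3, 1)]) (.l []) (.l [(0, 1), (7, 5)]) (.n (.l [(3, 1)]) (.l []) (.l [(0, 2),
  (3, 3)]) (.l []) (.l [(3, 1)]) (.l []) (.l [(0, 2), (3, 3)]) (.l []))) (.l [(0, 2), (5, 3)])
  (.n (.n (.l [(0, 1), (5, 1)]) (.l [(2, 1), (9, 2)]) (.l [(0, 1), (5, 1)]) (.l [(2, 1), (9,
  2)]) (.l [(0, 1), (5, 1)]) (.l [(2, 1), (9, 2)]) (.l [(0, 1), (5, 1)]) (.l [(2, 1), (9, 2)]))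
  (.l [(1, 1), (4, 5), (7, 3)]) (.n (.l [(0, 1), (5, 1)]) (.l [(2, 1), (9, 2)]) (.l [(0, 1), (5,
  1)]) (.l [(2, 2), (5, 1), (9, 2)]) (.l [(0, 1), (5, 1)]) (.l [(2, 1), (9, 2)]) (.l [(0, 1),
  (5, 1)]) (.l [(2, 2), (5, 1), (9, 2)])) (.l [(1, 1), (4, 5), (7, 3)]) (.n (.l [(0, 1), (5,
  1)]) (.l [(2, 1), (9, 2)]) (.l [(0, 1), (5, 1)]) (.l [(2, 1), (9, 2)]) (.l [(0, 1), (5, 1)])
  (.l [(2, 1), (9, 2)]) (.l [(0, 1), (5, 1)]) (.l [(2, 1), (9, 2)])) (.l [(1, 1), (4, 5), (7,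
  3)]) (.n (.l [(0, 1), (5, 1)]) (.l [(2, 1), (9, 2)]) (.l [(0, 1), (5, 1)]) (.l [(2, 2), (5,
  1), (9, 2)]) (.l [(0, 1), (5, 1)]) (.l [(2, 1), (9, 2)]) (.l [(0, 1), (5, 1)]) (.l [(2, 2),
  (5, 1), (9, 2)])) (.l [(1, 1), (4, 5), (7, 3)])) (.l [(0, 1), (5, 2)]) (.n (.l [(3, 1)]) (.l
  []) (.l [(0, 1), (7, 5)]) (.n (.l [(3, 1)]) (.l []) (.l [(0, 2), (3, 3)]) (.l []) (.l [(3,
  1)]) (.l []) (.l [(0, 2), (3, 3)]) (.l [])) (.l [(3, 1)]) (.l []) (.l [(0, 1), (7, 5)]) (.n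
  (.l [(3, 1)]) (.l []) (.l [(0, 2), (3, 3)]) (.l []) (.l [(3, 1)]) (.l []) (.l [(0, 2), (3,
  3)]) (.l []))) (.l [(0, 2), (5, 3)]) (.n (.n (.l [(0, 1), (5, 1)]) (.l [(2, 1), (9, 2)]) (.l
  [(0, 1), (5, 1)]) (.l [(2, 1), (9, 2)]) (.l [(0, 1), (5, 1)]) (.l [(2, 1), (9, 2)]) (.l [(0,
  1), (5, 1)]) (.l [(2, 1), (9, 2)])) (.l [(1, 1), (4, 5), (7, 3)]) (.n (.l [(0, 1), (5, 1)])
  (.l [(2, 1), (9, 2)]) (.l [(0, 1), (5, 1)]) (.l [(2, 2), (5, 1), (9, 2)]) (.l [(0, 1), (5,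
  1)]) (.l [(2, 1), (9, 2)]) (.l [(0, 1), (5, 1)]) (.l [(2, 2), (5, 1), (9, 2)])) (.l [(1, 1),
  (4, 5), (7, 3)]) (.n (.l [(0, 1), (5, 1)]) (.l [(2, 1), (9, 2)]) (.l [(0, 1), (5, 1)]) (.l
  [(2, 1), (9, 2)]) (.l [(0, 1), (5, 1)]) (.l [(2, 1), (9, 2)]) (.l [(0, 1), (5, 1)]) (.l [(2,
  1), (9, 2)])) (.l [(1, 1), (4, 5), (7, 3)]) (.n (.l [(0, 1), (5, 1)]) (.l [(2, 1), (9, 2)])
  (.l [(0, 1), (5, 1)]) (.l [(2, 2), (5, 1), (9, 2)]) (.l [(0, 1), (5, 1)]) (.l [(2, 1), (9,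
  2)]) (.l [(0, 1), (5, 1)]) (.l [(2, 2), (5, 1), (9, 2)])) (.l [(1, 1), (4, 5), (7, 3)]))

def s3 : Tr := .n (.n (.l [(0, 1)]) (.l []) (.l []) (.l [(2, 1)]) (.l [(0, 1), (13, 19)]) (.l
  [(1, 1), (6, 4)]) (.n (.l []) (.l [(2, 1)]) (.l []) (.l [(2, 1)]) (.l []) (.l [(1, 2), (2,
  3)]) (.l []) (.l [(1, 2), (2, 3)])) (.l [(1, 1), (6, 4)])) (.l [(1, 1), (4, 2)]) (.n (.l [])
  (.l [(2, 1)]) (.l []) (.l [(2, 1)]) (.n (.l []) (.l [(2, 1)]) (.l []) (.l [(2, 1)]) (.l [])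
  (.l [(1, 2), (2, 3)]) (.l []) (.l [(1, 2), (2, 3)])) (.l [(1, 1), (6, 4)]) (.n (.l []) (.l
  [(2, 1)]) (.l []) (.l [(2, 1)]) (.l []) (.l [(1, 2), (2, 3)]) (.l []) (.l [(1, 2), (2, 3)]))
  (.l [(1, 1), (6, 4)])) (.l [(1, 1), (4, 2)]) (.n (.l [(0, 1), (5, 2)]) (.l [(1, 1), (6, 4)])
  (.l [(0, 7), (5, 13)]) (.l [(1, 1), (6, 4)]) (.l [(0, 1), (5, 2)]) (.n (.l [(3, 1)]) (.l [])
  s1 (.n (.l [(3, 1)]) (.l []) (.l [(0, 1), (3, 2), (6, 3)]) (.l []) (.l [(3, 1)]) (.l []) (.l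
  [(0, 1), (3, 2), (6, 2)]) (.l [])) (.l [(3, 1)]) (.l []) s2 (.n (.l [(3, 1)]) (.l []) (.l [(0,
  1), (3, 2), (6, 2)]) (.l []) (.l [(3, 1)]) (.l []) (.l [(0, 1), (3, 2), (6, 2)]) (.l []))) (.l
  [(0, 7), (5, 13)]) (.n (.l [(3, 1), (8, 3)]) (.l [(1, 2), (4, 3)]) (.l [(3, 1), (8, 3)]) (.l
  [(1, 2), (4, 3)]) (.l [(3, 3), (4, 2), (8, 3)]) (.l [(1, 2), (4, 3)]) (.l [(3, 3), (4, 2), (8,
  3)]) (.l [(1, 2), (4, 3)]))) (.l [(1, 2), (4, 3)]) (.n (.l [(0, 1), (5, 5), (6, 3)]) (.l [(1,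
  1), (6, 4)]) (.l [(0, 1), (5, 5), (6, 3)]) (.l [(1, 1), (6, 4)]) (.l [(0, 1), (5, 5), (6, 3)])
  (.n (.l [(3, 1), (8, 2)]) (.l [(1, 2), (4, 3)]) (.l [(3, 1), (8, 2)]) (.l [(1, 2), (4, 3)])
  (.l [(3, 2), (4, 1), (8, 2)]) (.l [(1, 2), (4, 3)]) (.l [(3, 2), (4, 1), (8, 2)]) (.l [(1, 2),
  (4, 3)])) (.l [(0, 1), (5, 5), (6, 3)]) (.n (.l [(3, 1), (8, 2)]) (.l [(1, 2), (4, 3)]) (.l
  [(3, 1), (8, 2)]) (.l [(1, 2), (4, 3)]) (.l [(3, 2), (4, 1), (8, 2)]) (.l [(1, 2), (4, 3)])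
  (.l [(3, 2), (4, 1), (8, 2)]) (.l [(1, 2), (4, 3)]))) (.l [(1, 2), (4, 3)])

def s4 : Tr := .n (.n (.l []) (.l [(2, 1)]) (.l []) (.l [(2, 1)]) (.n (.l []) (.l [(2, 1)]) (.l
  []) (.l [(2, 1)]) (.l []) (.l [(1, 2), (2, 3)]) (.l []) (.l [(1, 2), (2, 3)])) (.l [(1, 1),
  (6, 4)]) (.n (.l []) (.l [(2, 1)]) (.l []) (.l [(2, 1)]) (.l []) (.l [(1, 2), (2, 3)]) (.l [])
  (.l [(1, 2), (2, 3)])) (.l [(1, 1), (6, 4)])) (.l [(1, 1), (4, 2)]) (.n (.l []) (.l [(2, 1)])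
  (.l []) (.l [(2, 1)]) (.n (.l []) (.l [(2, 1)]) (.l []) (.l [(2, 1)]) (.l []) (.l [(1, 2), (2,
  3)]) (.l []) (.l [(1, 2), (2, 3)])) (.l [(1, 1), (6, 4)]) (.n (.l []) (.l [(2, 1)]) (.l [])
  (.l [(2, 1)]) (.l []) (.l [(1, 2), (2, 3)]) (.l []) (.l [(1, 2), (2, 3)])) (.l [(1, 1), (6,
  4)])) (.l [(1, 1), (4, 2)]) (.n (.l [(0, 1), (5, 5), (6, 3)]) (.l [(1, 1), (6, 4)]) (.l [(0,
  1), (5, 5), (6, 3)]) (.l [(1, 1), (6, 4)]) (.l [(0, 1), (5, 5), (6, 3)]) (.n (.l [(3, 1), (8,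
  2)]) (.l [(1, 1), (4, 1)]) (.l [(3, 1), (8, 2)]) (.l [(1, 1), (4, 1)]) (.l [(3, 2), (4, 1),
  (8, 2)]) (.l [(1, 1), (4, 1)]) (.l [(3, 2), (4, 1), (8, 2)]) (.l [(1, 1), (4, 1)])) (.l [(0,
  1), (5, 5), (6, 3)]) (.n (.l [(3, 1), (8, 2)]) (.l [(1, 1), (4, 1)]) (.l [(3, 1), (8, 2)]) (.l
  [(1, 1), (4, 1)]) (.l [(3, 2), (4, 1), (8, 2)]) (.l [(1, 1), (4, 1)]) (.l [(3, 2), (4, 1), (8,
  2)]) (.l [(1, 1), (4, 1)]))) (.l [(1, 2), (4, 3)]) (.n (.l [(0, 1), (5, 5), (6, 3)]) (.l [(1,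
  1), (6, 4)]) (.l [(0, 1), (5, 5), (6, 3)]) (.l [(1, 1), (6, 4)]) (.l [(0, 1), (5, 5), (6, 3)])
  (.n (.l [(3, 1), (8, 2)]) (.l [(1, 1), (4, 1)]) (.l [(3, 1), (8, 2)]) (.l [(1, 1), (4, 1)])
  (.l [(3, 2), (4, 1), (8, 2)]) (.l [(1, 1), (4, 1)]) (.l [(3, 2), (4, 1), (8, 2)]) (.l [(1, 1),
  (4, 1)])) (.l [(0, 1), (5, 5), (6, 3)]) (.n (.l [(3, 1), (8, 2)]) (.l [(1, 1), (4, 1)]) (.l
  [(3, 1), (8, 2)]) (.l [(1, 1), (4, 1)]) (.l [(3, 2), (4, 1), (8, 2)]) (.l [(1, 1), (4, 1)])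
  (.l [(3, 2), (4, 1), (8, 2)]) (.l [(1, 1), (4, 1)]))) (.l [(1, 2), (4, 3)])

def s5 : Tr := .n (.l [(0, 1), (5, 2)]) (.n (.l [(1, 1)]) (.l []) (.l [(0, 1), (7, 5)]) (.l [(1,
  1), (36, 99999)]) (.l [(3, 1)]) (.l []) (.l [(0, 1), (7, 5)]) (.n (.l [(3, 1)]) (.l []) (.l
  [(0, 2), (3, 3)]) (.l []) (.l [(3, 1)]) (.l []) (.l [(0, 2), (3, 3)]) (.l []))) (.l [(0, 2),
  (5, 3)]) (.n (.l [(0, 3), (7, 13)]) (.l [(1, 1), (4, 2)]) (.n (.l []) (.l [(2, 1)]) (.l [])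
  (.l [(2, 1)]) (.n (.l []) (.l [(2, 1)]) (.l []) (.l [(2, 1)]) (.l []) (.l [(1, 1), (2, 2), (7,
  3)]) (.l []) (.l [(1, 1), (2, 2), (7, 2)])) s3 (.n (.l []) (.l [(2, 1)]) (.l []) (.l [(2, 1)])
  (.l []) (.l [(1, 1), (2, 2), (7, 2)]) (.l []) (.l [(1, 1), (2, 2), (7, 2)])) s4) (.l [(1, 1),
  (4, 2)]) (.l [(0, 3), (7, 13)]) (.l [(1, 25), (36, 999975)]) (.n (.l [(0, 2), (5, 3)]) (.l
  [(2, 1), (9, 3)]) (.l [(0, 2), (5, 3)]) (.l [(2, 6), (5, 4), (9, 7)]) (.l [(0, 2), (5, 3)])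
  (.l [(2, 1), (9, 3)]) (.l [(0, 2), (5, 3)]) (.l [(2, 6), (5, 4), (9, 7)])) (.l [(1, 25), (36,
  999975)])) (.l [(0, 1), (5, 2)]) (.n (.l [(3, 1)]) (.l []) (.l [(0, 1), (7, 5)]) (.n (.l [(3,
  1)]) (.l []) (.l [(0, 2), (3, 3)]) (.l []) (.l [(3, 1)]) (.l []) (.l [(0, 2), (3, 3)]) (.l
  [])) (.l [(3, 1)]) (.l []) (.l [(0, 1), (7, 5)]) (.n (.l [(3, 1)]) (.l []) (.l [(0, 2), (3,
  3)]) (.l []) (.l [(3, 1)]) (.l []) (.l [(0, 2), (3, 3)]) (.l []))) (.l [(0, 2), (5, 3)]) (.n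
  (.l [(0, 3), (7, 13)]) (.l [(1, 1), (4, 6), (7, 5)]) (.n (.l [(0, 2), (5, 3)]) (.l [(2, 1),
  (9, 2)]) (.l [(0, 2), (5, 3)]) (.l [(2, 3), (5, 1), (9, 4)]) (.l [(0, 2), (5, 3)]) (.l [(2,
  1), (9, 2)]) (.l [(0, 2), (5, 3)]) (.l [(2, 3), (5, 1), (9, 4)])) (.l [(1, 1), (4, 6), (7,
  5)]) (.l [(0, 3), (7, 13)]) (.l [(1, 1), (4, 6), (7, 5)]) (.n (.l [(0, 2), (5, 3)]) (.l [(2,
  1), (9, 2)]) (.l [(0, 2), (5, 3)]) (.l [(2, 3), (5, 1), (9, 4)]) (.l [(0, 2), (5, 3)]) (.l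
  [(2, 1), (9, 2)]) (.l [(0, 2), (5, 3)]) (.l [(2, 3), (5, 1), (9, 4)])) (.l [(1, 1), (4, 6),
  (7, 5)]))

def s6 : Tr := .n (.l [(0, 1), (5, 2)]) (.n (.l [(1, 1)]) (.l []) (.l [(0, 1), (7, 4)]) (.n (.l
  [(1, 1)]) (.l []) (.l [(0, 2), (3, 3)]) (.l []) (.l [(3, 1)]) (.l []) (.l [(0, 2), (3, 3)])
  (.l [])) (.l [(3, 1)]) (.l []) (.l [(0, 1), (7, 4)]) (.n (.l [(3, 1)]) (.l []) (.l [(0, 2),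
  (3, 3)]) (.l []) (.l [(3, 1)]) (.l []) (.l [(0, 2), (3, 3)]) (.l []))) (.l [(0, 2), (5, 3)])
  (.n (.l [(0, 1), (7, 4)]) (.l [(1, 1), (4, 2)]) (.n (.l []) (.l [(2, 1)]) (.l []) (.l [(2,
  1)]) (.l [(0, 3), (9, 10)]) (.l [(1, 1), (2, 6), (9, 18)]) (.n (.l []) (.l [(2, 1)]) (.l [])
  (.l [(2, 1)]) (.l []) (.l [(1, 1), (2, 2), (11, 2)]) (.l []) (.l [(1, 1), (2, 2), (7, 2)]))
  (.n (.l [(4, 1), (11, 3)]) (.l [(1, 1), (4, 2)]) (.n (.l []) (.l [(2, 1)]) (.l []) (.l [(2,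
  1)]) (.l [(6, 2), (13, 5)]) (.l [(1, 1), (6, 5)]) (.n (.l []) (.l [(2, 1)]) (.l []) (.l [(2,
  1)]) (.l []) (.l [(1, 2), (2, 3)]) (.l []) (.l [(1, 2), (2, 3)])) (.l [(1, 1), (6, 5)])) (.l
  [(1, 1), (4, 2)]) (.l [(3, 1), (4, 4), (11, 9)]) (.l [(1, 2), (4, 3)]) (.n (.l [(0, 1), (5,
  5), (6, 3)]) (.l [(1, 1), (6, 9), (13, 22)]) (.l [(0, 1), (5, 5), (6, 3)]) (.l [(1, 1), (6,
  6), (13, 9)]) (.l [(0, 1), (5, 5), (6, 3)]) (.l [(5, 2), (6, 11), (13, 27)]) (.l [(0, 1), (5,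
  5), (6, 3)]) (.l [(1, 1), (5, 3), (6, 14), (13, 22)])) (.l [(1, 2), (4, 3)]))) (.l [(1, 1),
  (4, 2)]) (.l [(0, 1), (7, 4)]) (.l [(1, 1), (4, 10), (7, 10)]) (.n (.l [(0, 2), (5, 3)]) (.l
  [(2, 1), (9, 3)]) (.l [(0, 2), (5, 3)]) (.l [(2, 3), (5, 2), (9, 3)]) (.l [(0, 2), (5, 3)])
  (.l [(2, 1), (9, 3)]) (.l [(0, 2), (5, 3)]) (.l [(2, 3), (5, 2), (9, 3)])) (.l [(1, 1), (4,
  10), (7, 10)])) (.l [(0, 1), (5, 2)]) (.n (.l [(3, 1)]) (.l []) (.l [(0, 1), (7, 4)]) (.n (.l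
  [(3, 1)]) (.l []) (.l [(0, 2), (3, 3)]) (.l []) (.l [(3, 1)]) (.l []) (.l [(0, 2), (3, 3)])
  (.l [])) (.l [(3, 1)]) (.l []) (.l [(0, 1), (7, 4)]) (.n (.l [(3, 1)]) (.l []) (.l [(0, 2),
  (3, 3)]) (.l []) (.l [(3, 1)]) (.l []) (.l [(0, 2), (3, 3)]) (.l []))) (.l [(0, 2), (5, 3)])
  (.n (.l [(0, 1), (7, 4)]) (.l [(1, 1), (4, 5), (7, 3)]) (.n (.l [(0, 1), (5, 1)]) (.l [(2, 1),
  (9, 2)]) (.l [(0, 1), (5, 1)]) (.l [(2, 2), (5, 1), (9, 2)]) (.l [(0, 1), (5, 1)]) (.l [(2,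
  1), (9, 2)]) (.l [(0, 1), (5, 1)]) (.l [(2, 2), (5, 1), (9, 2)])) (.l [(1, 1), (4, 5), (7,
  3)]) (.l [(0, 1), (7, 4)]) (.l [(1, 1), (4, 5), (7, 3)]) (.n (.l [(0, 1), (5, 1)]) (.l [(2,
  1), (9, 2)]) (.l [(0, 1), (5, 1)]) (.l [(2, 2), (5, 1), (9, 2)]) (.l [(0, 1), (5, 1)]) (.l
  [(2, 1), (9, 2)]) (.l [(0, 1), (5, 1)]) (.l [(2, 2), (5, 1), (9, 2)])) (.l [(1, 1), (4, 5),
  (7, 3)]))

def s7 : Tr := .n (.l [(0, 1), (5, 2)]) (.n (.l [(3, 1)]) (.l []) (.l [(0, 1), (7, 4)]) (.n (.l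
  [(3, 1)]) (.l []) (.l [(0, 2), (3, 3)]) (.l []) (.l [(3, 1)]) (.l []) (.l [(0, 2), (3, 3)])
  (.l [])) (.l [(3, 1)]) (.l []) (.l [(0, 1), (7, 4)]) (.n (.l [(3, 1)]) (.l []) (.l [(0, 2),
  (3, 3)]) (.l []) (.l [(3, 1)]) (.l []) (.l [(0, 2), (3, 3)]) (.l []))) (.l [(0, 2), (5, 3)])
  (.n (.l [(0, 1), (7, 4)]) (.l [(1, 1), (4, 5), (7, 3)]) (.n (.l [(0, 1), (5, 1)]) (.l [(2, 1),
  (9, 2)]) (.l [(0, 1), (5, 1)]) (.l [(2, 2), (5, 1), (9, 2)]) (.l [(0, 1), (5, 1)]) (.l [(2,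
  1), (9, 2)]) (.l [(0, 1), (5, 1)]) (.l [(2, 2), (5, 1), (9, 2)])) (.l [(1, 1), (4, 5), (7,
  3)]) (.l [(0, 1), (7, 4)]) (.l [(1, 1), (4, 5), (7, 3)]) (.n (.l [(0, 1), (5, 1)]) (.l [(2,
  1), (9, 2)]) (.l [(0, 1), (5, 1)]) (.l [(2, 2), (5, 1), (9, 2)]) (.l [(0, 1), (5, 1)]) (.l
  [(2, 1), (9, 2)]) (.l [(0, 1), (5, 1)]) (.l [(2, 2), (5, 1), (9, 2)])) (.l [(1, 1), (4, 5),
  (7, 3)])) (.l [(0, 1), (5, 2)]) (.n (.l [(3, 1)]) (.l []) (.l [(0, 1), (7, 4)]) (.n (.l [(3,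
  1)]) (.l []) (.l [(0, 2), (3, 3)]) (.l []) (.l [(3, 1)]) (.l []) (.l [(0, 2), (3, 3)]) (.l
  [])) (.l [(3, 1)]) (.l []) (.l [(0, 1), (7, 4)]) (.n (.l [(3, 1)]) (.l []) (.l [(0, 2), (3,
  3)]) (.l []) (.l [(3, 1)]) (.l []) (.l [(0, 2), (3, 3)]) (.l []))) (.l [(0, 2), (5, 3)]) (.n
  (.l [(0, 1), (7, 4)]) (.l [(1, 1), (4, 5), (7, 3)]) (.n (.l [(0, 1), (5, 1)]) (.l [(2, 1), (9,
  2)]) (.l [(0, 1), (5, 1)]) (.l [(2, 2), (5, 1), (9, 2)]) (.l [(0, 1), (5, 1)]) (.l [(2, 1),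
  (9, 2)]) (.l [(0, 1), (5, 1)]) (.l [(2, 2), (5, 1), (9, 2)])) (.l [(1, 1), (4, 5), (7, 3)])
  (.l [(0, 1), (7, 4)]) (.l [(1, 1), (4, 5), (7, 3)]) (.n (.l [(0, 1), (5, 1)]) (.l [(2, 1), (9,
  2)]) (.l [(0, 1), (5, 1)]) (.l [(2, 2), (5, 1), (9, 2)]) (.l [(0, 1), (5, 1)]) (.l [(2, 1),
  (9, 2)]) (.l [(0, 1), (5, 1)]) (.l [(2, 2), (5, 1), (9, 2)])) (.l [(1, 1), (4, 5), (7, 3)]))

def s8 : Tr := .n (.n (.l [(0, 1)]) (.l []) (.l []) (.l [(2, 1)]) (.l [(0, 9), (21, 4991)]) (.l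
  [(1, 1), (30, 19999)]) (.n (.l []) (.l [(2, 1)]) (.l []) (.l [(2, 1)]) (.l []) (.l [(1, 2),
  (2, 3)]) (.l []) (.l [(1, 2), (2, 3)])) (.l [(1, 1), (30, 19999)])) (.l [(1, 1), (4, 2)]) (.n
  (.l []) (.l [(2, 1)]) (.l []) (.l [(2, 1)]) (.n (.l []) (.l [(2, 1)]) (.l []) (.l [(2, 1)])
  (.l []) (.l [(1, 2), (2, 3)]) (.l []) (.l [(1, 2), (2, 3)])) (.l [(1, 1), (30, 19999)]) (.n
  (.l []) (.l [(2, 1)]) (.l []) (.l [(2, 1)]) (.l []) (.l [(1, 2), (2, 3)]) (.l []) (.l [(1, 2),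
  (2, 3)])) (.l [(1, 1), (30, 19999)])) (.l [(1, 1), (4, 2)]) (.n (.l [(0, 1), (5, 2)]) (.n (.l
  [(1, 1)]) (.l []) (.n (.l [(0, 1)]) (.l []) (.l []) (.l [(2, 1)]) (.l [(0, 1), (5, 5)]) (.l
  [(1, 1), (34, 99999)]) (.n (.l []) (.l [(2, 1)]) (.l []) (.l [(2, 1)]) (.l []) (.l [(1, 2),
  (2, 3)]) (.l []) (.l [(1, 2), (2, 3)])) (.l [(1, 1), (34, 99999)])) (.l [(1, 1), (4, 4)]) (.l
  [(3, 1)]) (.l []) s5 (.n (.l [(3, 1)]) (.l []) (.l [(0, 2), (3, 3)]) (.l []) (.l [(3, 1)]) (.l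
  []) (.l [(0, 2), (3, 3)]) (.l []))) (.l [(0, 3), (5, 5)]) (.n (.l [(3, 1), (32, 9999)]) (.l
  [(1, 1), (4, 2)]) (.l [(3, 1), (32, 9999)]) (.l [(1, 1), (4, 2)]) (.l [(3, 1), (32, 9999)])
  (.l [(1, 2), (4, 3)]) (.l [(3, 1), (32, 9999)]) (.l [(1, 2), (4, 3)])) (.l [(0, 1), (5, 2)])
  (.n (.l [(3, 1)]) (.l []) s6 (.n (.l [(3, 1)]) (.l []) (.l [(0, 2), (3, 3)]) (.l []) (.l [(3,
  1)]) (.l []) (.l [(0, 2), (3, 3)]) (.l [])) (.l [(3, 1)]) (.l []) s7 (.n (.l [(3, 1)]) (.l [])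
  (.l [(0, 2), (3, 3)]) (.l []) (.l [(3, 1)]) (.l []) (.l [(0, 2), (3, 3)]) (.l []))) (.l [(0,
  3), (5, 5)]) (.n (.l [(3, 1), (32, 9999)]) (.l [(1, 2), (4, 3)]) (.l [(3, 1), (32, 9999)]) (.l
  [(1, 2), (4, 3)]) (.l [(3, 3), (7, 4), (32, 49993)]) (.l [(1, 2), (4, 3)]) (.l [(3, 3), (7,
  4), (32, 49993)]) (.l [(1, 2), (4, 3)]))) (.l [(1, 1), (28, 4999)]) (.n (.l [(0, 3), (5, 5)])
  (.n (.l [(3, 1), (32, 9999)]) (.l [(1, 1), (4, 2)]) (.l [(3, 1), (32, 9999)]) (.l [(1, 1), (4,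
  2)]) (.l [(3, 1), (32, 9999)]) (.l [(1, 2), (4, 3)]) (.l [(3, 1), (32, 9999)]) (.l [(1, 2),
  (4, 3)])) (.l [(0, 3), (5, 5)]) (.n (.l [(3, 1), (32, 9999)]) (.l [(1, 1), (4, 2)]) (.l [(3,
  1), (32, 9999)]) (.l [(1, 1), (4, 2)]) (.l [(3, 1), (32, 9999)]) (.l [(1, 2), (4, 3)]) (.l
  [(3, 1), (32, 9999)]) (.l [(1, 2), (4, 3)])) (.l [(0, 3), (5, 5)]) (.n (.l [(3, 1), (32,
  9999)]) (.l [(1, 2), (4, 3)]) (.l [(3, 1), (32, 9999)]) (.l [(1, 2), (4, 3)]) (.l [(3, 2), (4,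
  1), (32, 9999)]) (.l [(1, 2), (4, 3)]) (.l [(3, 2), (4, 1), (32, 9999)]) (.l [(1, 2), (4,
  3)])) (.l [(0, 3), (5, 5)]) (.n (.l [(3, 1), (32, 9999)]) (.l [(1, 2), (4, 3)]) (.l [(3, 1),
  (32, 9999)]) (.l [(1, 2), (4, 3)]) (.l [(3, 2), (4, 1), (32, 9999)]) (.l [(1, 2), (4, 3)]) (.l
  [(3, 2), (4, 1), (32, 9999)]) (.l [(1, 2), (4, 3)]))) (.l [(1, 1), (28, 4999)])

def s9 : Tr := .n (.l [(1, 1)]) (.l []) (.n (.l [(0, 1)]) (.l []) (.l []) (.l [(2, 1)]) (.l [(0,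
  1), (5, 5)]) (.n (.l [(1, 1)]) (.l []) (.l [(0, 9), (19, 4991)]) (.l [(1, 1), (28, 19999)])
  (.l [(3, 1)]) (.l []) (.l [(0, 9), (19, 4991)]) (.n (.l [(3, 1)]) (.l []) (.l [(0, 2), (3,
  3)]) (.l []) (.l [(3, 1)]) (.l []) (.l [(0, 2), (3, 3)]) (.l []))) (.n (.l []) (.l [(2, 1)])
  (.l []) (.l [(2, 1)]) (.l []) (.l [(1, 2), (2, 3)]) (.l []) (.l [(1, 2), (2, 3)])) s8) (.l
  [(1, 1), (4, 4)]) (.l [(3, 1)]) (.l []) (.n (.l [(0, 1), (5, 2)]) (.n (.l [(1, 1)]) (.l [])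
  (.l [(0, 1), (7, 5)]) (.n (.l [(1, 1)]) (.l []) (.l [(0, 2), (3, 3)]) (.l []) (.l [(3, 1)])
  (.l []) (.l [(0, 2), (3, 3)]) (.l [])) (.l [(3, 1)]) (.l []) (.l [(0, 1), (7, 5)]) (.n (.l
  [(3, 1)]) (.l []) (.l [(0, 2), (3, 3)]) (.l []) (.l [(3, 1)]) (.l []) (.l [(0, 2), (3, 3)])
  (.l []))) (.l [(0, 2), (5, 3)]) (.n (.l [(0, 3), (7, 13)]) (.l [(1, 1), (4, 2)]) (.l [(4, 1),
  (19, 49)]) (.l [(1, 1), (4, 2)]) (.l [(0, 3), (7, 13)]) (.l [(4, 1), (19, 49)]) (.l [(4, 1),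
  (19, 49)]) (.l [(4, 1), (19, 49)])) (.l [(0, 1), (5, 2)]) (.n (.l [(3, 1)]) (.l []) (.l [(0,
  1), (7, 5)]) (.n (.l [(3, 1)]) (.l []) (.l [(0, 2), (3, 3)]) (.l []) (.l [(3, 1)]) (.l []) (.l
  [(0, 2), (3, 3)]) (.l [])) (.l [(3, 1)]) (.l []) (.l [(0, 1), (7, 5)]) (.n (.l [(3, 1)]) (.l
  []) (.l [(0, 2), (3, 3)]) (.l []) (.l [(3, 1)]) (.l []) (.l [(0, 2), (3, 3)]) (.l []))) (.l
  [(0, 2), (5, 3)]) (.n (.l [(0, 3), (7, 13)]) (.l [(1, 1), (4, 6), (7, 5)]) (.l [(4, 1), (19,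
  49)]) (.l [(1, 1), (4, 6), (7, 5)]) (.l [(0, 3), (7, 13)]) (.l [(1, 1), (4, 6), (7, 5)]) (.l
  [(4, 1), (19, 49)]) (.l [(1, 1), (4, 6), (7, 5)]))) (.n (.l [(3, 1)]) (.l []) (.l [(0, 2), (3,
  3)]) (.l []) (.l [(3, 1)]) (.l []) (.l [(0, 2), (3, 3)]) (.l []))

def s10 : Tr := .n (.l [(3, 1)]) (.l []) (.n (.l [(0, 1), (5, 2)]) (.n (.l [(1, 1)]) (.l []) (.l
  [(0, 1), (7, 4)]) (.n (.l [(1, 1)]) (.l []) (.l [(0, 2), (3, 3)]) (.l []) (.l [(3, 1)]) (.l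
  []) (.l [(0, 2), (3, 3)]) (.l [])) (.l [(3, 1)]) (.l []) (.l [(0, 1), (7, 4)]) (.n (.l [(3,
  1)]) (.l []) (.l [(0, 2), (3, 3)]) (.l []) (.l [(3, 1)]) (.l []) (.l [(0, 2), (3, 3)]) (.l
  []))) (.l [(0, 2), (5, 3)]) (.n (.l [(0, 1), (7, 4)]) (.l [(1, 1), (4, 2)]) (.l [(4, 1), (19,
  49)]) (.l [(1, 1), (4, 2)]) (.l [(0, 1), (7, 4)]) (.l [(4, 1), (19, 39)]) (.l [(4, 1), (19,
  49)]) (.l [(4, 1), (19, 39)])) (.l [(0, 1), (5, 2)]) (.n (.l [(3, 1)]) (.l []) (.l [(0, 1),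
  (7, 4)]) (.n (.l [(3, 1)]) (.l []) (.l [(0, 2), (3, 3)]) (.l []) (.l [(3, 1)]) (.l []) (.l
  [(0, 2), (3, 3)]) (.l [])) (.l [(3, 1)]) (.l []) (.l [(0, 1), (7, 4)]) (.n (.l [(3, 1)]) (.l
  []) (.l [(0, 2), (3, 3)]) (.l []) (.l [(3, 1)]) (.l []) (.l [(0, 2), (3, 3)]) (.l []))) (.l
  [(0, 2), (5, 3)]) (.n (.l [(0, 1), (7, 4)]) (.l [(1, 1), (4, 5), (7, 3)]) (.l [(4, 1), (19,
  49)]) (.l [(1, 1), (4, 5), (7, 3)]) (.l [(0, 1), (7, 4)]) (.l [(1, 1), (4, 5), (7, 3)]) (.l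
  [(4, 1), (19, 49)]) (.l [(1, 1), (4, 5), (7, 3)]))) (.n (.l [(3, 1)]) (.l []) (.l [(0, 2), (3,
  3)]) (.l []) (.l [(3, 1)]) (.l []) (.l [(0, 2), (3, 3)]) (.l [])) (.l [(3, 1)]) (.l []) (.n
  (.l [(0, 1), (5, 2)]) (.n (.l [(3, 1)]) (.l []) (.l [(0, 1), (7, 4)]) (.n (.l [(3, 1)]) (.l
  []) (.l [(0, 2), (3, 3)]) (.l []) (.l [(3, 1)]) (.l []) (.l [(0, 2), (3, 3)]) (.l [])) (.l
  [(3, 1)]) (.l []) (.l [(0, 1), (7, 4)]) (.n (.l [(3, 1)]) (.l []) (.l [(0, 2), (3, 3)]) (.l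
  []) (.l [(3, 1)]) (.l []) (.l [(0, 2), (3, 3)]) (.l []))) (.l [(0, 2), (5, 3)]) (.n (.l [(0,
  1), (7, 4)]) (.l [(1, 1), (4, 5), (7, 3)]) (.l [(4, 1), (19, 49)]) (.l [(1, 1), (4, 5), (7,
  3)]) (.l [(0, 1), (7, 4)]) (.l [(1, 1), (4, 5), (7, 3)]) (.l [(4, 1), (19, 49)]) (.l [(1, 1),
  (4, 5), (7, 3)])) (.l [(0, 1), (5, 2)]) (.n (.l [(3, 1)]) (.l []) (.l [(0, 1), (7, 4)]) (.n
  (.l [(3, 1)]) (.l []) (.l [(0, 2), (3, 3)]) (.l []) (.l [(3, 1)]) (.l []) (.l [(0, 2), (3,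
  3)]) (.l [])) (.l [(3, 1)]) (.l []) (.l [(0, 1), (7, 4)]) (.n (.l [(3, 1)]) (.l []) (.l [(0,
  2), (3, 3)]) (.l []) (.l [(3, 1)]) (.l []) (.l [(0, 2), (3, 3)]) (.l []))) (.l [(0, 2), (5,
  3)]) (.n (.l [(0, 1), (7, 4)]) (.l [(1, 1), (4, 5), (7, 3)]) (.l [(4, 1), (19, 49)]) (.l [(1,
  1), (4, 5), (7, 3)]) (.l [(0, 1), (7, 4)]) (.l [(1, 1), (4, 5), (7, 3)]) (.l [(4, 1), (19,
  49)]) (.l [(1, 1), (4, 5), (7, 3)]))) (.n (.l [(3, 1)]) (.l []) (.l [(0, 2), (3, 3)]) (.l [])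
  (.l [(3, 1)]) (.l []) (.l [(0, 2), (3, 3)]) (.l []))

def s11 : Tr := .n (.n (.l [(0, 1)]) (.l []) (.l []) (.l [(2, 1)]) (.l [(0, 1), (13, 39)]) (.l
  [(1, 1), (22, 1999)]) (.n (.l []) (.l [(2, 1)]) (.l []) (.l [(2, 1)]) (.l []) (.l [(1, 2), (2,
  3)]) (.l []) (.l [(1, 2), (2, 3)])) (.l [(1, 1), (22, 1999)])) (.l [(1, 1), (4, 3)]) (.n (.l
  []) (.l [(2, 1)]) (.l []) (.l [(2, 1)]) (.n (.l []) (.l [(2, 1)]) (.l []) (.l [(2, 1)]) (.l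
  []) (.l [(1, 2), (2, 3)]) (.l []) (.l [(1, 2), (2, 3)])) (.l [(1, 1), (22, 1999)]) (.n (.l [])
  (.l [(2, 1)]) (.l []) (.l [(2, 1)]) (.l []) (.l [(1, 2), (2, 3)]) (.l []) (.l [(1, 2), (2,
  3)])) (.l [(1, 1), (22, 1999)])) (.l [(1, 1), (4, 3)]) (.n (.l [(0, 1), (5, 2)]) s9 (.l [(0,
  3), (5, 5)]) (.n (.l [(3, 11), (24, 9989)]) (.l [(1, 1), (4, 2)]) (.l [(3, 11), (24, 9989)])
  (.l [(1, 1), (4, 2)]) (.l [(3, 11), (24, 9989)]) (.l [(1, 2), (4, 3)]) (.l [(3, 11), (24,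
  9989)]) (.l [(1, 2), (4, 3)])) (.l [(0, 1), (5, 2)]) s10 (.l [(0, 3), (5, 5)]) (.n (.l [(3,
  11), (24, 9989)]) (.l [(1, 2), (4, 3)]) (.l [(3, 11), (24, 9989)]) (.l [(1, 2), (4, 3)]) (.n
  (.l [(0, 1), (5, 2)]) (.l [(5, 3), (6, 1), (26, 1996)]) (.l [(0, 2), (5, 3)]) (.l [(5, 3), (6,
  1), (26, 1996)]) (.l [(0, 1), (5, 2)]) (.l [(5, 5), (6, 6), (26, 991)]) (.l [(0, 2), (5, 3)])
  (.l [(5, 5), (6, 6), (26, 991)])) (.l [(1, 2), (4, 3)]) (.n (.l [(0, 2), (5, 3)]) (.l [(5, 3),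
  (6, 1), (26, 1996)]) (.l [(0, 2), (5, 3)]) (.l [(5, 3), (6, 1), (26, 1996)]) (.l [(0, 2), (5,
  3)]) (.l [(5, 5), (6, 6), (26, 991)]) (.l [(0, 2), (5, 3)]) (.l [(5, 5), (6, 6), (26, 991)]))
  (.l [(1, 2), (4, 3)]))) (.l [(1, 1), (20, 499)]) (.n (.l [(0, 3), (5, 5)]) (.n (.l [(3, 1),
  (24, 699)]) (.l [(1, 1), (4, 2)]) (.l [(3, 1), (24, 699)]) (.l [(1, 1), (4, 2)]) (.l [(3, 1),
  (24, 699)]) (.l [(1, 2), (4, 3)]) (.l [(3, 1), (24, 699)]) (.l [(1, 2), (4, 3)])) (.l [(0, 3),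
  (5, 5)]) (.n (.l [(3, 1), (24, 699)]) (.l [(1, 1), (4, 2)]) (.l [(3, 1), (24, 699)]) (.l [(1,
  1), (4, 2)]) (.l [(3, 1), (24, 699)]) (.l [(1, 2), (4, 3)]) (.l [(3, 1), (24, 699)]) (.l [(1,
  2), (4, 3)])) (.l [(0, 3), (5, 5)]) (.n (.l [(3, 1), (24, 699)]) (.l [(1, 2), (4, 3)]) (.l
  [(3, 1), (24, 699)]) (.l [(1, 2), (4, 3)]) (.l [(3, 4), (4, 1), (24, 1996)]) (.l [(1, 2), (4,
  3)]) (.l [(3, 4), (4, 1), (24, 1996)]) (.l [(1, 2), (4, 3)])) (.l [(0, 3), (5, 5)]) (.n (.l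
  [(3, 1), (24, 699)]) (.l [(1, 2), (4, 3)]) (.l [(3, 1), (24, 699)]) (.l [(1, 2), (4, 3)]) (.l
  [(3, 4), (4, 1), (24, 1996)]) (.l [(1, 2), (4, 3)]) (.l [(3, 4), (4, 1), (24, 1996)]) (.l [(1,
  2), (4, 3)]))) (.l [(1, 1), (20, 499)])

def s12 : Tr := .n (.l [(1, 1)]) (.l []) (.n (.l [(0, 1)]) (.l []) (.l []) (.l [(2, 1)]) (.l
  [(0, 1), (5, 4)]) (.n (.l [(1, 1)]) (.l []) (.l [(0, 1), (11, 39)]) (.l [(1, 1), (20, 1999)])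
  (.l [(3, 1)]) (.l []) (.l [(0, 1), (11, 39)]) (.n (.l [(3, 1)]) (.l []) (.l [(0, 2), (3, 3)])
  (.l []) (.l [(3, 1)]) (.l []) (.l [(0, 2), (3, 3)]) (.l []))) (.n (.l []) (.l [(2, 1)]) (.l
  []) (.l [(2, 1)]) (.l []) (.l [(1, 1), (2, 2), (7, 4)]) (.l []) (.l [(1, 1), (2, 2), (7, 2)]))
  s11) (.l [(1, 1), (16, 149)]) (.l [(3, 1)]) (.l []) (.n (.l [(0, 1), (5, 2)]) (.n (.l [(1,
  1)]) (.l []) (.l [(0, 1), (7, 4)]) (.n (.l [(1, 1)]) (.l []) (.l [(0, 2), (3, 3)]) (.l []) (.l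
  [(3, 1)]) (.l []) (.l [(0, 2), (3, 3)]) (.l [])) (.l [(3, 1)]) (.l []) (.l [(0, 1), (7, 4)])
  (.n (.l [(3, 1)]) (.l []) (.l [(0, 2), (3, 3)]) (.l []) (.l [(3, 1)]) (.l []) (.l [(0, 2), (3,
  3)]) (.l []))) (.l [(0, 2), (5, 3)]) (.n (.l [(0, 1), (7, 4)]) (.l [(1, 1), (4, 3)]) (.l [(0,
  1), (4, 3), (11, 21)]) (.l [(1, 1), (4, 3)]) (.l [(0, 1), (7, 4)]) (.l [(1, 1), (4, 6), (11,
  19)]) (.l [(0, 1), (4, 3), (11, 21)]) (.l [(1, 1), (4, 6), (11, 19)])) (.l [(0, 1), (5, 2)])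
  (.n (.l [(3, 1)]) (.l []) (.l [(0, 1), (7, 4)]) (.n (.l [(3, 1)]) (.l []) (.l [(0, 2), (3,
  3)]) (.l []) (.l [(3, 1)]) (.l []) (.l [(0, 2), (3, 3)]) (.l [])) (.l [(3, 1)]) (.l []) (.l
  [(0, 1), (7, 4)]) (.n (.l [(3, 1)]) (.l []) (.l [(0, 2), (3, 3)]) (.l []) (.l [(3, 1)]) (.l
  []) (.l [(0, 2), (3, 3)]) (.l []))) (.l [(0, 2), (5, 3)]) (.n (.l [(0, 1), (7, 4)]) (.l [(1,
  1), (4, 5), (7, 3)]) (.l [(0, 1), (4, 3), (11, 21)]) (.l [(1, 1), (4, 5), (7, 3)]) (.l [(0,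
  1), (7, 4)]) (.l [(1, 1), (4, 5), (7, 3)]) (.l [(0, 1), (4, 3), (11, 21)]) (.l [(1, 1), (4,
  5), (7, 3)]))) (.n (.l [(3, 1)]) (.l []) (.l [(0, 2), (3, 3)]) (.l []) (.l [(3, 1)]) (.l [])
  (.l [(0, 2), (3, 3)]) (.l []))

def s13 : Tr := .n (.l [(3, 1)]) (.l []) (.n (.l [(0, 1), (5, 2)]) (.n (.l [(1, 1)]) (.l []) (.l
  [(0, 1), (7, 3)]) (.n (.l [(1, 1)]) (.l []) (.l [(0, 2), (3, 3)]) (.l []) (.l [(3, 1)]) (.l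
  []) (.l [(0, 2), (3, 3)]) (.l [])) (.l [(3, 1)]) (.l []) (.l [(0, 1), (7, 3)]) (.n (.l [(3,
  1)]) (.l []) (.l [(0, 2), (3, 3)]) (.l []) (.l [(3, 1)]) (.l []) (.l [(0, 2), (3, 3)]) (.l
  []))) (.l [(0, 2), (5, 3)]) (.n (.l [(0, 1), (7, 3)]) (.l [(1, 1), (4, 3)]) (.l [(4, 1), (11,
  4)]) (.l [(1, 1), (4, 3)]) (.l [(0, 1), (7, 3)]) (.l [(4, 1), (11, 3)]) (.l [(4, 1), (11, 4)])
  (.l [(4, 1), (11, 3)])) (.l [(0, 1), (5, 2)]) (.n (.l [(3, 1)]) (.l []) (.l [(0, 1), (7, 3)])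
  (.n (.l [(3, 1)]) (.l []) (.l [(0, 2), (3, 3)]) (.l []) (.l [(3, 1)]) (.l []) (.l [(0, 2), (3,
  3)]) (.l [])) (.l [(3, 1)]) (.l []) (.l [(0, 1), (7, 3)]) (.n (.l [(3, 1)]) (.l []) (.l [(0,
  2), (3, 3)]) (.l []) (.l [(3, 1)]) (.l []) (.l [(0, 2), (3, 3)]) (.l []))) (.l [(0, 2), (5,
  3)]) (.n (.l [(0, 1), (7, 3)]) (.l [(1, 1), (4, 3), (11, 4)]) (.l [(4, 1), (11, 4)]) (.l [(1,
  1), (4, 3), (11, 4)]) (.l [(0, 1), (7, 3)]) (.l [(1, 1), (4, 3), (11, 4)]) (.l [(4, 1), (11,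
  4)]) (.l [(1, 1), (4, 3), (11, 4)]))) (.n (.l [(3, 1)]) (.l []) (.l [(0, 2), (3, 3)]) (.l [])
  (.l [(3, 1)]) (.l []) (.l [(0, 2), (3, 3)]) (.l [])) (.l [(3, 1)]) (.l []) (.n (.l [(0, 1),
  (5, 2)]) (.n (.l [(3, 1)]) (.l []) (.l [(0, 1), (7, 3)]) (.n (.l [(3, 1)]) (.l []) (.l [(0,
  2), (3, 3)]) (.l []) (.l [(3, 1)]) (.l []) (.l [(0, 2), (3, 3)]) (.l [])) (.l [(3, 1)]) (.l
  []) (.l [(0, 1), (7, 3)]) (.n (.l [(3, 1)]) (.l []) (.l [(0, 2), (3, 3)]) (.l []) (.l [(3,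
  1)]) (.l []) (.l [(0, 2), (3, 3)]) (.l []))) (.l [(0, 2), (5, 3)]) (.n (.l [(0, 1), (7, 3)])
  (.l [(1, 1), (4, 3), (11, 3)]) (.l [(4, 1), (11, 4)]) (.l [(1, 1), (4, 3), (11, 3)]) (.l [(0,
  1), (7, 3)]) (.l [(1, 1), (4, 3), (11, 3)]) (.l [(4, 1), (11, 4)]) (.l [(1, 1), (4, 3), (11,
  3)])) (.l [(0, 1), (5, 2)]) (.n (.l [(3, 1)]) (.l []) (.l [(0, 1), (7, 3)]) (.n (.l [(3, 1)])
  (.l []) (.l [(0, 2), (3, 3)]) (.l []) (.l [(3, 1)]) (.l []) (.l [(0, 2), (3, 3)]) (.l [])) (.l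
  [(3, 1)]) (.l []) (.l [(0, 1), (7, 3)]) (.n (.l [(3, 1)]) (.l []) (.l [(0, 2), (3, 3)]) (.l
  []) (.l [(3, 1)]) (.l []) (.l [(0, 2), (3, 3)]) (.l []))) (.l [(0, 2), (5, 3)]) (.n (.l [(0,
  1), (7, 3)]) (.l [(1, 1), (4, 3), (11, 3)]) (.l [(4, 1), (11, 4)]) (.l [(1, 1), (4, 3), (11,
  3)]) (.l [(0, 1), (7, 3)]) (.l [(1, 1), (4, 3), (11, 3)]) (.l [(4, 1), (11, 4)]) (.l [(1, 1),
  (4, 3), (11, 3)]))) (.n (.l [(3, 1)]) (.l []) (.l [(0, 2), (3, 3)]) (.l []) (.l [(3, 1)]) (.l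
  []) (.l [(0, 2), (3, 3)]) (.l []))

def s14 : Tr := .n (.l [(0, 1), (5, 2)]) s12 (.l [(0, 3), (5, 5)]) (.n (.l [(3, 1), (16, 99)])
  (.l [(1, 1), (4, 2)]) (.l [(3, 1), (16, 99)]) (.l [(1, 1), (4, 2)]) (.l [(3, 1), (16, 99)])
  (.l [(1, 4), (4, 7)]) (.l [(3, 1), (16, 99)]) (.l [(1, 4), (4, 7)])) (.l [(0, 1), (5, 2)]) s13
  (.l [(0, 3), (5, 5)]) (.n (.l [(3, 8), (16, 692)]) (.l [(1, 4), (4, 7)]) (.l [(3, 8), (16,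
  692)]) (.l [(1, 4), (4, 7)]) (.n (.l [(0, 1), (5, 2)]) (.l [(2, 1), (5, 2), (18, 79)]) (.l
  [(0, 2), (5, 3)]) (.l [(2, 1), (5, 2), (18, 79)]) (.l [(0, 1), (5, 2)]) (.n (.l [(3, 1)]) (.l
  []) (.l [(0, 1), (7, 4)]) (.l [(4, 1), (7, 2), (20, 78)]) (.l [(3, 1)]) (.l []) (.l [(0, 1),
  (7, 4)]) (.n (.l [(3, 1)]) (.l []) (.l [(0, 2), (3, 3)]) (.l []) (.l [(3, 1)]) (.l []) (.l
  [(0, 2), (3, 3)]) (.l []))) (.l [(0, 2), (5, 3)]) (.n (.l [(0, 1), (7, 4)]) (.l [(1, 1), (4,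
  3), (7, 2)]) (.l [(0, 1), (4, 3), (7, 7)]) (.l [(1, 1), (4, 3), (7, 2)]) (.l [(0, 1), (7, 4)])
  (.l [(1, 1), (4, 3), (7, 2)]) (.l [(0, 1), (4, 3), (7, 7)]) (.l [(1, 1), (4, 3), (7, 2)])))
  (.l [(1, 4), (4, 7)]) (.n (.l [(0, 2), (5, 3)]) (.l [(2, 1), (5, 2), (18, 79)]) (.l [(0, 2),
  (5, 3)]) (.l [(2, 1), (5, 2), (18, 79)]) (.l [(0, 2), (5, 3)]) (.n (.l [(4, 2), (7, 3)]) (.l
  [(1, 1), (4, 2), (7, 1)]) (.l [(4, 2), (7, 3)]) (.l [(1, 1), (4, 2), (7, 1)]) (.l [(4, 2), (7,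
  3)]) (.l [(1, 1), (4, 2), (7, 1)]) (.l [(4, 2), (7, 3)]) (.l [(1, 1), (4, 2), (7, 1)])) (.l
  [(0, 2), (5, 3)]) (.n (.l [(4, 2), (7, 3)]) (.l [(1, 1), (4, 2), (7, 1)]) (.l [(4, 2), (7,
  3)]) (.l [(1, 1), (4, 2), (7, 1)]) (.l [(4, 2), (7, 3)]) (.l [(1, 1), (4, 2), (7, 1)]) (.l
  [(4, 2), (7, 3)]) (.l [(1, 1), (4, 2), (7, 1)]))) (.l [(1, 4), (4, 7)]))

def s15 : Tr := .n (.l [(0, 1), (7, 4)]) (.l [(1, 1), (4, 2)]) (.n (.l []) (.l [(2, 1)]) (.l [])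
  (.l [(2, 1)]) (.n (.l []) (.l [(2, 1)]) (.l []) (.l [(2, 1)]) (.l []) (.l [(1, 1), (2, 1),
  (11, 2)]) (.l []) (.l [(1, 1), (2, 2), (11, 3)])) (.l [(1, 1), (2, 6), (9, 19)]) (.n (.l [])
  (.l [(2, 1)]) (.l []) (.l [(2, 1)]) (.l []) (.l [(1, 1), (2, 2), (11, 2)]) (.l []) (.l [(1,
  1), (2, 2), (11, 2)])) (.n (.l [(4, 1), (11, 3)]) (.l [(1, 1), (4, 2)]) (.n (.l []) (.l [(2,
  1)]) (.l []) (.l [(2, 1)]) (.l [(6, 3), (13, 8)]) (.l [(1, 1), (6, 5)]) (.n (.l []) (.l [(2,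
  1)]) (.l []) (.l [(2, 1)]) (.l []) (.l [(1, 2), (2, 3)]) (.l []) (.l [(1, 2), (2, 3)])) (.l
  [(1, 1), (6, 5)])) (.l [(1, 1), (4, 2)]) (.l [(3, 2), (4, 11), (11, 29)]) (.l [(1, 2), (4,
  3)]) (.n (.l [(0, 1), (5, 5), (6, 3)]) (.l [(1, 1), (6, 7), (13, 18)]) (.l [(0, 1), (5, 5),
  (6, 3)]) (.l [(1, 1), (6, 6), (13, 9)]) (.l [(0, 1), (5, 5), (6, 3)]) (.l [(5, 2), (6, 11),
  (13, 27)]) (.l [(0, 1), (5, 5), (6, 3)]) (.l [(1, 1), (5, 5), (6, 18), (13, 27)])) (.l [(1,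
  2), (4, 3)]))) (.l [(1, 1), (4, 2)]) (.l [(0, 1), (7, 4)]) (.n (.l [(3, 1)]) (.l []) (.l [(3,
  1), (6, 2)]) (.l []) (.l [(3, 1)]) (.l []) (.l [(0, 1), (3, 2), (6, 2)]) (.l [])) (.n (.l [(0,
  2), (5, 3)]) (.l [(2, 1), (9, 3)]) (.l [(0, 2), (5, 3)]) (.l [(2, 3), (5, 2), (9, 3)]) (.l
  [(0, 2), (5, 3)]) (.l [(2, 1), (9, 3)]) (.l [(0, 2), (5, 3)]) (.l [(2, 3), (5, 2), (9, 3)]))
  (.n (.l [(3, 1), (6, 2)]) (.l []) (.l [(3, 1), (6, 2)]) (.l []) (.l [(0, 1), (3, 2), (6, 2)])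
  (.l []) (.l [(0, 1), (3, 2), (6, 2)]) (.l []))

def s16 : Tr := .n (.l [(1, 1)]) (.l []) (.n (.l [(0, 1)]) (.l []) (.l []) (.l [(2, 1)]) (.l
  [(0, 1), (5, 4)]) (.n (.l [(1, 1)]) (.l []) (.n (.l [(0, 1)]) (.l []) (.l []) (.l [(2, 1)])
  (.n (.l [(0, 1)]) (.l []) (.l []) (.l [(2, 1)]) (.l []) (.l [(1, 2), (2, 3)]) (.l []) (.l [(1,
  2), (2, 3)])) (.l [(1, 1), (14, 149)]) (.n (.l []) (.l [(2, 1)]) (.l []) (.l [(2, 1)]) (.l [])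
  (.l [(1, 2), (2, 3)]) (.l []) (.l [(1, 2), (2, 3)])) (.l [(1, 1), (14, 149)])) (.l [(1, 1),
  (12, 50)]) (.l [(3, 1)]) (.l []) s14 (.n (.l [(3, 1)]) (.l []) (.l [(0, 2), (3, 3)]) (.l [])
  (.l [(3, 1)]) (.l []) (.l [(0, 2), (3, 3)]) (.l []))) (.n (.l []) (.l [(2, 1)]) (.l []) (.l
  [(2, 1)]) (.l []) (.l [(1, 1), (2, 2), (7, 4)]) (.l []) (.l [(1, 1), (2, 2), (7, 2)])) (.n (.l
  [(3, 1), (12, 19)]) (.l [(1, 1), (4, 2)]) (.l [(3, 1), (12, 19)]) (.l [(1, 1), (4, 2)]) (.l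
  [(3, 1), (12, 19)]) (.l [(1, 1), (12, 19)]) (.l [(3, 1), (12, 19)]) (.l [(1, 1), (12, 19)])))
  (.l [(1, 1), (8, 8)]) (.l [(3, 1)]) (.l []) (.n (.l [(0, 1), (5, 2)]) (.n (.l [(1, 1)]) (.l
  []) (.l [(0, 1), (7, 4)]) (.n (.l [(1, 1)]) (.l []) (.l [(0, 2), (3, 3)]) (.l []) (.l [(3,
  1)]) (.l []) (.l [(0, 2), (3, 3)]) (.l [])) (.l [(3, 1)]) (.l []) (.l [(0, 1), (7, 4)]) (.n
  (.l [(3, 1)]) (.l []) (.l [(0, 2), (3, 3)]) (.l []) (.l [(3, 1)]) (.l []) (.l [(0, 2), (3,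
  3)]) (.l []))) (.l [(0, 2), (5, 3)]) s15 (.l [(0, 1), (5, 2)]) (.n (.l [(3, 1)]) (.l []) (.l
  [(0, 1), (7, 4)]) (.n (.l [(3, 1)]) (.l []) (.l [(0, 2), (3, 3)]) (.l []) (.l [(3, 1)]) (.l
  []) (.l [(0, 2), (3, 3)]) (.l [])) (.l [(3, 1)]) (.l []) (.l [(0, 1), (7, 4)]) (.n (.l [(3,
  1)]) (.l []) (.l [(0, 2), (3, 3)]) (.l []) (.l [(3, 1)]) (.l []) (.l [(0, 2), (3, 3)]) (.l
  []))) (.l [(0, 2), (5, 3)]) (.n (.l [(0, 1), (7, 4)]) (.l [(1, 1), (4, 6), (7, 5)]) (.n (.l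
  [(0, 2), (5, 3)]) (.l [(2, 1), (9, 2)]) (.l [(0, 2), (5, 3)]) (.l [(2, 2), (5, 1), (9, 2)])
  (.l [(0, 2), (5, 3)]) (.l [(2, 1), (9, 2)]) (.l [(0, 2), (5, 3)]) (.l [(2, 2), (5, 1), (9,
  2)])) (.l [(1, 1), (4, 6), (7, 5)]) (.l [(0, 1), (7, 4)]) (.l [(1, 1), (4, 6), (7, 5)]) (.n
  (.l [(0, 2), (5, 3)]) (.l [(2, 1), (9, 2)]) (.l [(0, 2), (5, 3)]) (.l [(2, 2), (5, 1), (9,
  2)]) (.l [(0, 2), (5, 3)]) (.l [(2, 1), (9, 2)]) (.l [(0, 2), (5, 3)]) (.l [(2, 2), (5, 1),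
  (9, 2)])) (.l [(1, 1), (4, 6), (7, 5)]))) (.n (.l [(3, 1)]) (.l []) (.l [(0, 2), (3, 3)]) (.l
  []) (.l [(3, 1)]) (.l []) (.l [(0, 2), (3, 3)]) (.l []))

def s17 : Tr := .n (.l [(3, 1)]) (.l []) (.n (.l [(0, 1), (5, 2)]) (.n (.l [(1, 1)]) (.l []) (.l
  [(0, 1), (7, 4)]) (.n (.l [(1, 1)]) (.l []) (.l [(0, 2), (3, 3)]) (.l []) (.l [(3, 1)]) (.l
  []) (.l [(0, 2), (3, 3)]) (.l [])) (.l [(3, 1)]) (.l []) (.l [(0, 1), (7, 4)]) (.n (.l [(3,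
  1)]) (.l []) (.l [(0, 2), (3, 3)]) (.l []) (.l [(3, 1)]) (.l []) (.l [(0, 2), (3, 3)]) (.l
  []))) (.l [(0, 2), (5, 3)]) (.n (.l [(0, 1), (7, 4)]) (.l [(1, 1), (4, 2)]) (.l [(0, 2), (4,
  9), (7, 20)]) (.l [(1, 1), (4, 2)]) (.l [(0, 1), (7, 4)]) (.l [(1, 1), (4, 10), (7, 10)]) (.l
  [(0, 2), (4, 9), (7, 20)]) (.l [(1, 1), (4, 10), (7, 10)])) (.l [(0, 1), (5, 2)]) (.n (.l [(3,
  1)]) (.l []) (.l [(0, 1), (7, 4)]) (.n (.l [(3, 1)]) (.l []) (.l [(0, 2), (3, 3)]) (.l []) (.l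
  [(3, 1)]) (.l []) (.l [(0, 2), (3, 3)]) (.l [])) (.l [(3, 1)]) (.l []) (.l [(0, 1), (7, 4)])
  (.n (.l [(3, 1)]) (.l []) (.l [(0, 2), (3, 3)]) (.l []) (.l [(3, 1)]) (.l []) (.l [(0, 2), (3,
  3)]) (.l []))) (.l [(0, 2), (5, 3)]) (.n (.l [(0, 1), (7, 4)]) (.l [(1, 1), (4, 5), (7, 3)])
  (.l [(0, 2), (4, 9), (7, 20)]) (.l [(1, 1), (4, 5), (7, 3)]) (.l [(0, 1), (7, 4)]) (.l [(1,
  1), (4, 5), (7, 3)]) (.l [(0, 2), (4, 9), (7, 20)]) (.l [(1, 1), (4, 5), (7, 3)]))) (.n (.l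
  [(3, 1)]) (.l []) (.l [(0, 2), (3, 3)]) (.l []) (.l [(3, 1)]) (.l []) (.l [(0, 2), (3, 3)])
  (.l [])) (.l [(3, 1)]) (.l []) (.n (.l [(0, 1), (5, 2)]) (.n (.l [(3, 1)]) (.l []) (.l [(0,
  1), (7, 4)]) (.n (.l [(3, 1)]) (.l []) (.l [(0, 2), (3, 3)]) (.l []) (.l [(3, 1)]) (.l []) (.l
  [(0, 2), (3, 3)]) (.l [])) (.l [(3, 1)]) (.l []) (.l [(0, 1), (7, 4)]) (.n (.l [(3, 1)]) (.l
  []) (.l [(0, 2), (3, 3)]) (.l []) (.l [(3, 1)]) (.l []) (.l [(0, 2), (3, 3)]) (.l []))) (.l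
  [(0, 2), (5, 3)]) (.n (.l [(0, 1), (7, 4)]) (.l [(1, 1), (4, 5), (7, 3)]) (.l [(0, 2), (4, 9),
  (7, 20)]) (.l [(1, 1), (4, 5), (7, 3)]) (.l [(0, 1), (7, 4)]) (.l [(1, 1), (4, 5), (7, 3)])
  (.l [(0, 2), (4, 9), (7, 20)]) (.l [(1, 1), (4, 5), (7, 3)])) (.l [(0, 1), (5, 2)]) (.n (.l
  [(3, 1)]) (.l []) (.l [(0, 1), (7, 4)]) (.n (.l [(3, 1)]) (.l []) (.l [(0, 2), (3, 3)]) (.l
  []) (.l [(3, 1)]) (.l []) (.l [(0, 2), (3, 3)]) (.l [])) (.l [(3, 1)]) (.l []) (.l [(0, 1),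
  (7, 4)]) (.n (.l [(3, 1)]) (.l []) (.l [(0, 2), (3, 3)]) (.l []) (.l [(3, 1)]) (.l []) (.l
  [(0, 2), (3, 3)]) (.l []))) (.l [(0, 2), (5, 3)]) (.n (.l [(0, 1), (7, 4)]) (.l [(1, 1), (4,
  5), (7, 3)]) (.l [(0, 2), (4, 9), (7, 20)]) (.l [(1, 1), (4, 5), (7, 3)]) (.l [(0, 1), (7,
  4)]) (.l [(1, 1), (4, 5), (7, 3)]) (.l [(0, 2), (4, 9), (7, 20)]) (.l [(1, 1), (4, 5), (7,
  3)]))) (.n (.l [(3, 1)]) (.l []) (.l [(0, 2), (3, 3)]) (.l []) (.l [(3, 1)]) (.l []) (.l [(0,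
  2), (3, 3)]) (.l []))

def s18 : Tr := .n (.l [(0, 1), (5, 3)]) s16 (.n (.l []) (.l [(2, 1)]) (.l []) (.l [(2, 1)]) (.l
  []) (.l [(2, 1), (7, 3)]) (.l []) (.l [(1, 1), (2, 2), (7, 2)])) (.n (.l [(3, 1), (8, 5)]) (.l
  [(1, 1), (4, 2)]) (.l [(3, 1), (8, 5)]) (.l [(1, 1), (4, 2)]) (.l [(3, 1), (8, 5)]) (.l [(1,
  3), (4, 5)]) (.l [(3, 1), (8, 5)]) (.l [(1, 3), (4, 5)])) (.l [(0, 1), (5, 3)]) s17 (.n (.l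
  []) (.l [(2, 1), (7, 2)]) (.l []) (.l [(1, 1), (2, 2), (7, 2)]) (.l []) (.l [(2, 1), (7, 2)])
  (.l []) (.l [(1, 1), (2, 2), (7, 2)])) (.n (.l [(0, 1), (3, 12), (8, 48)]) (.l [(1, 3), (4,
  5)]) (.l [(0, 1), (3, 12), (8, 48)]) (.l [(1, 3), (4, 5)]) (.n (.l [(0, 1), (5, 2)]) (.l [(2,
  1), (5, 3), (10, 8)]) (.l [(0, 2), (5, 3)]) (.l [(2, 1), (5, 3), (10, 8)]) (.l [(0, 1), (5,
  2)]) (.n (.l [(3, 1)]) (.l []) (.l [(0, 1), (7, 5)]) (.l [(1, 1), (4, 27), (7, 52), (12,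
  120)]) (.l [(3, 1)]) (.l []) (.l [(0, 1), (7, 5)]) (.n (.l [(3, 1)]) (.l []) (.l [(0, 2), (3,
  3)]) (.l []) (.l [(3, 1)]) (.l []) (.l [(0, 2), (3, 3)]) (.l []))) (.l [(0, 2), (5, 3)]) (.n
  (.l [(4, 5), (7, 7)]) (.l [(1, 1), (4, 3), (7, 2)]) (.l [(4, 5), (7, 7)]) (.l [(1, 1), (4, 3),
  (7, 2)]) (.l [(4, 5), (7, 7)]) (.l [(1, 1), (4, 3), (7, 2)]) (.l [(4, 5), (7, 7)]) (.l [(1,
  1), (4, 3), (7, 2)]))) (.l [(1, 3), (4, 5)]) (.n (.l [(0, 2), (5, 3)]) (.l [(2, 1), (5, 3),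
  (10, 8)]) (.l [(0, 2), (5, 3)]) (.l [(2, 1), (5, 3), (10, 8)]) (.l [(0, 2), (5, 3)]) (.n (.l
  [(4, 2), (7, 3)]) (.l [(1, 1), (4, 2), (7, 1)]) (.l [(4, 2), (7, 3)]) (.l [(1, 1), (4, 2), (7,
  1)]) (.l [(4, 2), (7, 3)]) (.l [(1, 1), (4, 2), (7, 1)]) (.l [(4, 2), (7, 3)]) (.l [(1, 1),
  (4, 2), (7, 1)])) (.l [(0, 2), (5, 3)]) (.n (.l [(4, 2), (7, 3)]) (.l [(1, 1), (4, 2), (7,
  1)]) (.l [(4, 2), (7, 3)]) (.l [(1, 1), (4, 2), (7, 1)]) (.l [(4, 2), (7, 3)]) (.l [(1, 1),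
  (4, 2), (7, 1)]) (.l [(4, 2), (7, 3)]) (.l [(1, 1), (4, 2), (7, 1)]))) (.l [(1, 3), (4, 5)]))

def s19 : Tr := .n (.l [(0, 1)]) (.l []) (.l []) (.l [(2, 1)]) (.n (.l [(0, 1)]) (.l []) (.l [])
  (.l [(2, 1)]) (.l []) (.l [(1, 2), (2, 3)]) (.l []) (.l [(1, 2), (2, 3)])) (.n .e (.l []) (.n
  (.l [(0, 1)]) (.l []) (.l []) (.l [(2, 1)]) (.n (.l [(0, 1)]) (.l []) (.l []) (.l [(2, 1)])
  (.l []) (.l [(1, 2), (2, 3)]) (.l []) (.l [(1, 2), (2, 3)])) (.l [(1, 1), (6, 8)]) (.n (.l [])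
  (.l [(2, 1)]) (.l []) (.l [(2, 1)]) (.l []) (.l [(1, 2), (2, 3)]) (.l []) (.l [(1, 2), (2,
  3)])) (.l [(1, 1), (6, 8)])) (.l [(1, 1), (4, 3)]) (.n (.l [(3, 1)]) (.l []) (.l [(0, 1), (5,
  3)]) (.n (.l [(1, 1)]) (.l []) (.l [(0, 1), (7, 5)]) (.n (.l [(1, 1)]) (.l []) (.l [(0, 1),
  (3, 1)]) (.l []) (.l [(3, 1)]) (.l []) (.l [(0, 1), (3, 1)]) (.l [])) (.l [(3, 1)]) (.l [])
  (.l [(0, 1), (7, 5)]) (.n (.l [(3, 1)]) (.l []) (.l [(0, 1), (3, 1)]) (.l []) (.l [(3, 1)])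
  (.l []) (.l [(0, 1), (3, 1)]) (.l []))) (.l [(5, 1)]) (.l []) (.l [(0, 1), (5, 3)]) (.n (.l
  [(3, 1)]) (.l []) (.l [(0, 1), (7, 5)]) (.n (.l [(3, 1)]) (.l []) (.l [(0, 1), (3, 1)]) (.l
  []) (.l [(3, 1)]) (.l []) (.l [(0, 1), (3, 1)]) (.l [])) (.l [(3, 1)]) (.l []) (.l [(0, 1),
  (7, 5)]) (.n (.l [(3, 1)]) (.l []) (.l [(0, 1), (3, 1)]) (.l []) (.l [(3, 1)]) (.l []) (.l
  [(0, 1), (3, 1)]) (.l [])))) (.l []) s18 (.n (.l [(3, 1)]) (.l []) (.l [(0, 1), (3, 1), (6,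
  2)]) (.l []) (.l [(3, 1)]) (.l []) (.l [(0, 1), (3, 2), (6, 2)]) (.l []))) (.n (.l []) (.l
  [(2, 1)]) (.l []) (.l [(2, 1)]) (.l []) (.l [(1, 2), (2, 3)]) (.l []) (.l [(1, 2), (2, 3)]))
  (.n (.n (.l [(0, 1)]) (.l []) (.l []) (.l [(2, 1)]) (.n (.l [(0, 1)]) (.l []) (.l []) (.l [(2,
  1)]) (.l []) (.l [(1, 2), (2, 3)]) (.l []) (.l [(1, 2), (2, 3)])) (.l [(1, 1), (6, 3)]) (.n
  (.l []) (.l [(2, 1)]) (.l []) (.l [(2, 1)]) (.l []) (.l [(1, 2), (2, 3)]) (.l []) (.l [(1, 2),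
  (2, 3)])) (.l [(1, 1), (6, 3)])) (.l [(1, 1), (4, 2)]) (.n (.l []) (.l [(2, 1)]) (.l []) (.l
  [(2, 1)]) (.n (.l []) (.l [(2, 1)]) (.l []) (.l [(2, 1)]) (.l []) (.l [(1, 2), (2, 3)]) (.l
  []) (.l [(1, 2), (2, 3)])) (.l [(1, 1), (6, 3)]) (.n (.l []) (.l [(2, 1)]) (.l []) (.l [(2,
  1)]) (.l []) (.l [(1, 2), (2, 3)]) (.l []) (.l [(1, 2), (2, 3)])) (.l [(1, 1), (6, 3)])) (.l
  [(1, 1), (4, 2)]) (.n (.l [(0, 1), (5, 3)]) (.l [(1, 1), (6, 3)]) (.l [(0, 1), (5, 7), (6,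
  7)]) (.l [(1, 1), (6, 3)]) (.l [(0, 1), (5, 3)]) (.l [(5, 2), (6, 3)]) (.l [(0, 1), (5, 7),
  (6, 7)]) (.l [(5, 2), (6, 3)])) (.l [(1, 2), (4, 3)]) (.n (.l [(0, 1), (5, 5), (6, 3)]) (.l
  [(1, 1), (6, 3)]) (.l [(0, 1), (5, 5), (6, 3)]) (.l [(1, 1), (6, 3)]) (.l [(0, 1), (5, 5), (6,
  3)]) (.l [(5, 2), (6, 3)]) (.l [(0, 1), (5, 5), (6, 3)]) (.l [(5, 2), (6, 3)])) (.l [(1, 2),
  (4, 3)]))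

def s20 : Tr := .n (.l [(3, 1)]) (.l []) (.n (.l [(0, 1), (5, 2)]) (.n (.l [(1, 1)]) (.l []) (.l
  [(0, 1), (7, 5)]) (.l [(1, 1), (12, 19)]) (.l [(3, 1)]) (.l []) (.l [(0, 1), (7, 5)]) (.n (.l
  [(3, 1)]) (.l []) (.l [(0, 2), (3, 3)]) (.l []) (.l [(3, 1)]) (.l []) (.l [(0, 2), (3, 3)])
  (.l []))) (.l [(0, 2), (5, 3)]) (.n (.l [(0, 3), (55, 9999997)]) (.l [(1, 1), (4, 2)]) (.l
  [(0, 13), (4, 43), (55, 99999944)]) (.l [(1, 1), (4, 2)]) (.l [(0, 3), (55, 9999997)]) (.l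
  [(1, 7), (4, 13)]) (.l [(0, 13), (4, 43), (55, 99999944)]) (.l [(1, 7), (4, 13)])) (.l [(0,
  1), (5, 2)]) (.n (.l [(3, 1)]) (.l []) (.l [(0, 1), (7, 5)]) (.n (.l [(3, 1)]) (.l []) (.l
  [(0, 2), (3, 3)]) (.l []) (.l [(3, 1)]) (.l []) (.l [(0, 2), (3, 3)]) (.l [])) (.l [(3, 1)])
  (.l []) (.l [(0, 1), (7, 5)]) (.n (.l [(3, 1)]) (.l []) (.l [(0, 2), (3, 3)]) (.l []) (.l [(3,
  1)]) (.l []) (.l [(0, 2), (3, 3)]) (.l []))) (.l [(0, 2), (5, 3)]) (.n (.l [(0, 3), (55,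
  9999997)]) (.l [(1, 1), (4, 6), (7, 4)]) (.l [(0, 13), (4, 43), (55, 99999944)]) (.l [(1, 1),
  (4, 6), (7, 4)]) (.l [(0, 3), (55, 9999997)]) (.l [(1, 1), (4, 6), (7, 4)]) (.l [(0, 13), (4,
  43), (55, 99999944)]) (.l [(1, 1), (4, 6), (7, 4)]))) (.n (.l [(3, 1)]) (.l []) (.l [(0, 1),
  (3, 2), (6, 3)]) (.l []) (.l [(3, 1)]) (.l []) (.l [(0, 1), (3, 2), (6, 2)]) (.l [])) (.l [(3,
  1)]) (.l []) (.n (.l [(0, 1), (5, 2)]) (.n (.l [(3, 1)]) (.l []) (.l [(0, 1), (7, 5)]) (.n (.l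
  [(3, 1)]) (.l []) (.l [(0, 2), (3, 3)]) (.l []) (.l [(3, 1)]) (.l []) (.l [(0, 2), (3, 3)])
  (.l [])) (.l [(3, 1)]) (.l []) (.l [(0, 1), (7, 5)]) (.n (.l [(3, 1)]) (.l []) (.l [(0, 2),
  (3, 3)]) (.l []) (.l [(3, 1)]) (.l []) (.l [(0, 2), (3, 3)]) (.l []))) (.l [(0, 2), (5, 3)])
  (.n (.l [(0, 3), (55, 9999997)]) (.l [(1, 1), (4, 5), (7, 3)]) (.l [(0, 13), (4, 43), (55,
  99999944)]) (.l [(1, 1), (4, 5), (7, 3)]) (.l [(0, 3), (55, 9999997)]) (.l [(1, 1), (4, 5),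
  (7, 3)]) (.l [(0, 13), (4, 43), (55, 99999944)]) (.l [(1, 1), (4, 5), (7, 3)])) (.l [(0, 1),
  (5, 2)]) (.n (.l [(3, 1)]) (.l []) (.l [(0, 1), (7, 5)]) (.n (.l [(3, 1)]) (.l []) (.l [(0,
  2), (3, 3)]) (.l []) (.l [(3, 1)]) (.l []) (.l [(0, 2), (3, 3)]) (.l [])) (.l [(3, 1)]) (.l
  []) (.l [(0, 1), (7, 5)]) (.n (.l [(3, 1)]) (.l []) (.l [(0, 2), (3, 3)]) (.l []) (.l [(3,
  1)]) (.l []) (.l [(0, 2), (3, 3)]) (.l []))) (.l [(0, 2), (5, 3)]) (.n (.l [(0, 3), (55,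
  9999997)]) (.l [(1, 1), (4, 5), (7, 3)]) (.l [(0, 13), (4, 43), (55, 99999944)]) (.l [(1, 1),
  (4, 5), (7, 3)]) (.l [(0, 3), (55, 9999997)]) (.l [(1, 1), (4, 5), (7, 3)]) (.l [(0, 13), (4,
  43), (55, 99999944)]) (.l [(1, 1), (4, 5), (7, 3)]))) (.n (.l [(3, 1)]) (.l []) (.l [(0, 1),
  (3, 2), (6, 2)]) (.l []) (.l [(3, 1)]) (.l []) (.l [(0, 1), (3, 2), (6, 2)]) (.l []))

def s21 : Tr := .n (.l [(4, 44), (47, 9999956)]) (.l [(1, 1), (4, 2)]) (.n (.l []) (.l [(2, 1)])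
  (.l []) (.l [(2, 1)]) (.l [(6, 453), (49, 99999547)]) (.l [(1, 1), (6, 5)]) (.n (.l []) (.l
  [(2, 1)]) (.l []) (.l [(2, 1)]) (.l []) (.l [(1, 2), (2, 3)]) (.l []) (.l [(1, 2), (2, 3)]))
  (.l [(1, 1), (6, 5)])) (.l [(1, 1), (4, 2)]) (.n (.l [(0, 1), (5, 2)]) (.l [(6, 428), (49,
  99999572)]) (.l [(0, 7), (5, 13)]) (.l [(1, 39), (6, 4437), (49, 999995524)]) (.l [(0, 1), (5,
  2)]) s20 (.l [(0, 7), (5, 13)]) (.n (.l [(3, 1), (8, 3)]) (.l [(1, 2), (4, 3)]) (.l [(3, 1),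
  (8, 3)]) (.l [(1, 2), (4, 3)]) (.l [(3, 5), (4, 3), (8, 6)]) (.l [(1, 2), (4, 3)]) (.l [(3,
  5), (4, 3), (8, 6)]) (.l [(1, 2), (4, 3)]))) (.l [(1, 2), (4, 3)]) (.n (.l [(0, 1), (5, 6),
  (6, 4)]) (.n (.l [(3, 1), (8, 2)]) (.l [(1, 1), (4, 2)]) (.l [(3, 1), (8, 2)]) (.l [(1, 1),
  (4, 2)]) (.l [(3, 1), (8, 2)]) (.l [(1, 2), (4, 3)]) (.l [(3, 1), (8, 2)]) (.l [(1, 2), (4,
  3)])) (.l [(0, 1), (5, 6), (6, 4)]) (.n (.l [(3, 1), (8, 2)]) (.l [(1, 1), (4, 2)]) (.l [(3,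
  1), (8, 2)]) (.l [(1, 1), (4, 2)]) (.l [(3, 1), (8, 2)]) (.l [(1, 2), (4, 3)]) (.l [(3, 1),
  (8, 2)]) (.l [(1, 2), (4, 3)])) (.l [(0, 1), (5, 6), (6, 4)]) (.n (.l [(3, 1), (8, 2)]) (.l
  [(1, 2), (4, 3)]) (.l [(3, 1), (8, 2)]) (.l [(1, 2), (4, 3)]) (.l [(3, 2), (4, 1), (8, 2)])
  (.l [(1, 2), (4, 3)]) (.l [(3, 2), (4, 1), (8, 2)]) (.l [(1, 2), (4, 3)])) (.l [(0, 1), (5,
  6), (6, 4)]) (.n (.l [(3, 1), (8, 2)]) (.l [(1, 2), (4, 3)]) (.l [(3, 1), (8, 2)]) (.l [(1,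
  2), (4, 3)]) (.l [(3, 2), (4, 1), (8, 2)]) (.l [(1, 2), (4, 3)]) (.l [(3, 2), (4, 1), (8, 2)])
  (.l [(1, 2), (4, 3)]))) (.l [(1, 2), (4, 3)])

def s22 : Tr := .n (.n (.l []) (.l [(2, 1)]) (.l []) (.l [(2, 1)]) (.n (.l []) (.l [(2, 1)]) (.l
  []) (.l [(2, 1)]) (.l []) (.l [(1, 2), (2, 3)]) (.l []) (.l [(1, 2), (2, 3)])) (.l [(1, 1),
  (6, 5)]) (.n (.l []) (.l [(2, 1)]) (.l []) (.l [(2, 1)]) (.l []) (.l [(1, 2), (2, 3)]) (.l [])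
  (.l [(1, 2), (2, 3)])) (.l [(1, 1), (6, 5)])) (.l [(1, 1), (4, 2)]) (.n (.l []) (.l [(2, 1)])
  (.l []) (.l [(2, 1)]) (.n (.l []) (.l [(2, 1)]) (.l []) (.l [(2, 1)]) (.l []) (.l [(1, 2), (2,
  3)]) (.l []) (.l [(1, 2), (2, 3)])) (.l [(1, 1), (6, 5)]) (.n (.l []) (.l [(2, 1)]) (.l [])
  (.l [(2, 1)]) (.l []) (.l [(1, 2), (2, 3)]) (.l []) (.l [(1, 2), (2, 3)])) (.l [(1, 1), (6,
  5)])) (.l [(1, 1), (4, 2)]) (.n (.l [(0, 1), (5, 5), (6, 3)]) (.n (.l [(3, 1), (8, 2)]) (.l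
  [(1, 1), (4, 1)]) (.l [(3, 1), (8, 2)]) (.l [(1, 1), (4, 1)]) (.l [(3, 1), (8, 2)]) (.l [(1,
  1), (4, 1)]) (.l [(3, 1), (8, 2)]) (.l [(1, 1), (4, 1)])) (.l [(0, 1), (5, 5), (6, 3)]) (.n
  (.l [(3, 1), (8, 2)]) (.l [(1, 1), (4, 1)]) (.l [(3, 1), (8, 2)]) (.l [(1, 1), (4, 1)]) (.l
  [(3, 1), (8, 2)]) (.l [(1, 1), (4, 1)]) (.l [(3, 1), (8, 2)]) (.l [(1, 1), (4, 1)])) (.l [(0,
  1), (5, 5), (6, 3)]) (.n (.l [(3, 1), (8, 2)]) (.l [(1, 1), (4, 1)]) (.l [(3, 1), (8, 2)]) (.l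
  [(1, 1), (4, 1)]) (.l [(3, 2), (4, 1), (8, 2)]) (.l [(1, 1), (4, 1)]) (.l [(3, 2), (4, 1), (8,
  2)]) (.l [(1, 1), (4, 1)])) (.l [(0, 1), (5, 5), (6, 3)]) (.n (.l [(3, 1), (8, 2)]) (.l [(1,
  1), (4, 1)]) (.l [(3, 1), (8, 2)]) (.l [(1, 1), (4, 1)]) (.l [(3, 2), (4, 1), (8, 2)]) (.l
  [(1, 1), (4, 1)]) (.l [(3, 2), (4, 1), (8, 2)]) (.l [(1, 1), (4, 1)]))) (.l [(1, 2), (4, 3)])
  (.n (.l [(0, 1), (5, 5), (6, 3)]) (.n (.l [(3, 1), (8, 2)]) (.l [(1, 1), (4, 1)]) (.l [(3, 1),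
  (8, 2)]) (.l [(1, 1), (4, 1)]) (.l [(3, 1), (8, 2)]) (.l [(1, 1), (4, 1)]) (.l [(3, 1), (8,
  2)]) (.l [(1, 1), (4, 1)])) (.l [(0, 1), (5, 5), (6, 3)]) (.n (.l [(3, 1), (8, 2)]) (.l [(1,
  1), (4, 1)]) (.l [(3, 1), (8, 2)]) (.l [(1, 1), (4, 1)]) (.l [(3, 1), (8, 2)]) (.l [(1, 1),
  (4, 1)]) (.l [(3, 1), (8, 2)]) (.l [(1, 1), (4, 1)])) (.l [(0, 1), (5, 5), (6, 3)]) (.n (.l
  [(3, 1), (8, 2)]) (.l [(1, 1), (4, 1)]) (.l [(3, 1), (8, 2)]) (.l [(1, 1), (4, 1)]) (.l [(3,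
  2), (4, 1), (8, 2)]) (.l [(1, 1), (4, 1)]) (.l [(3, 2), (4, 1), (8, 2)]) (.l [(1, 1), (4,
  1)])) (.l [(0, 1), (5, 5), (6, 3)]) (.n (.l [(3, 1), (8, 2)]) (.l [(1, 1), (4, 1)]) (.l [(3,
  1), (8, 2)]) (.l [(1, 1), (4, 1)]) (.l [(3, 2), (4, 1), (8, 2)]) (.l [(1, 1), (4, 1)]) (.l
  [(3, 2), (4, 1), (8, 2)]) (.l [(1, 1), (4, 1)]))) (.l [(1, 2), (4, 3)])

def s23 : Tr := .n (.l [(0, 1), (5, 2)]) (.n (.l [(1, 1)]) (.l []) (.l [(0, 1), (7, 4)]) (.l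
  [(1, 1), (12, 19)]) (.l [(3, 1)]) (.l []) (.l [(0, 1), (7, 4)]) (.n (.l [(3, 1)]) (.l []) (.l
  [(0, 2), (3, 3)]) (.l []) (.l [(3, 1)]) (.l []) (.l [(0, 2), (3, 3)]) (.l []))) (.l [(0, 2),
  (5, 3)]) (.n (.l [(0, 1), (7, 4)]) (.l [(1, 1), (4, 2)]) (.n (.l []) (.l [(2, 1)]) (.l []) (.l
  [(2, 1)]) (.n (.l []) (.l [(2, 1)]) (.l []) (.l [(2, 1)]) (.l []) (.l [(1, 1), (2, 2), (7,
  3)]) (.l []) (.l [(1, 1), (2, 2), (7, 2)])) s21 (.n (.l []) (.l [(2, 1)]) (.l []) (.l [(2,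
  1)]) (.l []) (.l [(1, 1), (2, 2), (7, 2)]) (.l []) (.l [(1, 1), (2, 2), (7, 2)])) s22) (.l
  [(1, 1), (4, 2)]) (.l [(0, 1), (7, 4)]) (.l [(1, 7), (4, 13)]) (.n (.l [(0, 2), (5, 3)]) (.l
  [(2, 1), (9, 3)]) (.l [(0, 2), (5, 3)]) (.l [(2, 3), (5, 2), (9, 3)]) (.l [(0, 2), (5, 3)])
  (.l [(2, 1), (9, 3)]) (.l [(0, 2), (5, 3)]) (.l [(2, 3), (5, 2), (9, 3)])) (.l [(1, 7), (4,
  13)])) (.l [(0, 1), (5, 2)]) (.n (.l [(3, 1)]) (.l []) (.l [(0, 1), (7, 4)]) (.n (.l [(3, 1)])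
  (.l []) (.l [(0, 2), (3, 3)]) (.l []) (.l [(3, 1)]) (.l []) (.l [(0, 2), (3, 3)]) (.l [])) (.l
  [(3, 1)]) (.l []) (.l [(0, 1), (7, 4)]) (.n (.l [(3, 1)]) (.l []) (.l [(0, 2), (3, 3)]) (.l
  []) (.l [(3, 1)]) (.l []) (.l [(0, 2), (3, 3)]) (.l []))) (.l [(0, 2), (5, 3)]) (.n (.l [(0,
  1), (7, 4)]) (.l [(1, 1), (4, 5), (7, 3)]) (.n (.l [(0, 2), (5, 3)]) (.l [(2, 1), (9, 2)]) (.l
  [(0, 2), (5, 3)]) (.l [(2, 2), (5, 1), (9, 2)]) (.l [(0, 2), (5, 3)]) (.l [(2, 1), (9, 2)])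
  (.l [(0, 2), (5, 3)]) (.l [(2, 2), (5, 1), (9, 2)])) (.l [(1, 1), (4, 5), (7, 3)]) (.l [(0,
  1), (7, 4)]) (.l [(1, 1), (4, 5), (7, 3)]) (.n (.l [(0, 2), (5, 3)]) (.l [(2, 1), (9, 2)]) (.l
  [(0, 2), (5, 3)]) (.l [(2, 2), (5, 1), (9, 2)]) (.l [(0, 2), (5, 3)]) (.l [(2, 1), (9, 2)])
  (.l [(0, 2), (5, 3)]) (.l [(2, 2), (5, 1), (9, 2)])) (.l [(1, 1), (4, 5), (7, 3)]))

def s24 : Tr := .n (.l [(0, 1), (5, 2)]) (.n (.l [(3, 1)]) (.l []) (.l [(0, 1), (7, 4)]) (.n (.l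
  [(3, 1)]) (.l []) (.l [(0, 2), (3, 3)]) (.l []) (.l [(3, 1)]) (.l []) (.l [(0, 2), (3, 3)])
  (.l [])) (.l [(3, 1)]) (.l []) (.l [(0, 1), (7, 4)]) (.n (.l [(3, 1)]) (.l []) (.l [(0, 2),
  (3, 3)]) (.l []) (.l [(3, 1)]) (.l []) (.l [(0, 2), (3, 3)]) (.l []))) (.l [(0, 2), (5, 3)])
  (.n (.l [(0, 1), (7, 4)]) (.l [(1, 1), (4, 5), (7, 3)]) (.n (.l [(0, 1), (5, 1)]) (.l [(2, 1),
  (9, 2)]) (.l [(0, 1), (5, 1)]) (.l [(2, 2), (5, 1), (9, 2)]) (.l [(0, 1), (5, 1)]) (.l [(2,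
  1), (9, 2)]) (.l [(0, 1), (5, 1)]) (.l [(2, 2), (5, 1), (9, 2)])) (.l [(1, 1), (4, 5), (7,
  3)]) (.l [(0, 1), (7, 4)]) (.l [(1, 1), (4, 5), (7, 3)]) (.n (.l [(0, 1), (5, 1)]) (.l [(2,
  1), (9, 2)]) (.l [(0, 1), (5, 1)]) (.l [(2, 2), (5, 1), (9, 2)]) (.l [(0, 1), (5, 1)]) (.l
  [(2, 1), (9, 2)]) (.l [(0, 1), (5, 1)]) (.l [(2, 2), (5, 1), (9, 2)])) (.l [(1, 1), (4, 5),
  (7, 3)])) (.l [(0, 1), (5, 2)]) (.n (.l [(3, 1)]) (.l []) (.l [(0, 1), (7, 4)]) (.n (.l [(3,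
  1)]) (.l []) (.l [(0, 2), (3, 3)]) (.l []) (.l [(3, 1)]) (.l []) (.l [(0, 2), (3, 3)]) (.l
  [])) (.l [(3, 1)]) (.l []) (.l [(0, 1), (7, 4)]) (.n (.l [(3, 1)]) (.l []) (.l [(0, 2), (3,
  3)]) (.l []) (.l [(3, 1)]) (.l []) (.l [(0, 2), (3, 3)]) (.l []))) (.l [(0, 2), (5, 3)]) (.n
  (.l [(0, 1), (7, 4)]) (.l [(1, 1), (4, 5), (7, 3)]) (.n (.l [(0, 1), (5, 1)]) (.l [(2, 1), (9,
  2)]) (.l [(0, 1), (5, 1)]) (.l [(2, 2), (5, 1), (9, 2)]) (.l [(0, 1), (5, 1)]) (.l [(2, 1),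
  (9, 2)]) (.l [(0, 1), (5, 1)]) (.l [(2, 2), (5, 1), (9, 2)])) (.l [(1, 1), (4, 5), (7, 3)])
  (.l [(0, 1), (7, 4)]) (.l [(1, 1), (4, 5), (7, 3)]) (.n (.l [(0, 1), (5, 1)]) (.l [(2, 1), (9,
  2)]) (.l [(0, 1), (5, 1)]) (.l [(2, 2), (5, 1), (9, 2)]) (.l [(0, 1), (5, 1)]) (.l [(2, 1),
  (9, 2)]) (.l [(0, 1), (5, 1)]) (.l [(2, 2), (5, 1), (9, 2)])) (.l [(1, 1), (4, 5), (7, 3)]))

def s25 : Tr := .n (.n (.l [(0, 1)]) (.l []) (.l []) (.l [(2, 1)]) (.l [(0, 1), (37, 99999)])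
  (.l [(1, 1), (6, 5)]) (.n (.l []) (.l [(2, 1)]) (.l []) (.l [(2, 1)]) (.l []) (.l [(1, 2), (2,
  3)]) (.l []) (.l [(1, 2), (2, 3)])) (.l [(1, 1), (6, 5)])) (.l [(1, 1), (4, 2)]) (.n (.l [])
  (.l [(2, 1)]) (.l []) (.l [(2, 1)]) (.n (.l []) (.l [(2, 1)]) (.l []) (.l [(2, 1)]) (.l [])
  (.l [(1, 2), (2, 3)]) (.l []) (.l [(1, 2), (2, 3)])) (.l [(1, 1), (6, 5)]) (.n (.l []) (.l
  [(2, 1)]) (.l []) (.l [(2, 1)]) (.l []) (.l [(1, 2), (2, 3)]) (.l []) (.l [(1, 2), (2, 3)]))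
  (.l [(1, 1), (6, 5)])) (.l [(1, 1), (4, 2)]) (.n (.l [(0, 1), (5, 2)]) (.l [(1, 3), (6, 13)])
  (.l [(0, 25), (37, 999975)]) (.l [(1, 3), (6, 13)]) (.l [(0, 1), (5, 2)]) (.n (.l [(3, 1)])
  (.l []) s23 (.n (.l [(3, 1)]) (.l []) (.l [(0, 1), (3, 2), (6, 3)]) (.l []) (.l [(3, 1)]) (.l
  []) (.l [(0, 1), (3, 2), (6, 2)]) (.l [])) (.l [(3, 1)]) (.l []) s24 (.n (.l [(3, 1)]) (.l [])
  (.l [(0, 1), (3, 2), (6, 2)]) (.l []) (.l [(3, 1)]) (.l []) (.l [(0, 1), (3, 2), (6, 2)]) (.l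
  []))) (.l [(0, 25), (37, 999975)]) (.n (.l [(3, 1), (8, 3)]) (.l [(1, 2), (4, 3)]) (.l [(3,
  1), (8, 3)]) (.l [(1, 2), (4, 3)]) (.l [(3, 6), (4, 4), (8, 7)]) (.l [(1, 2), (4, 3)]) (.l
  [(3, 6), (4, 4), (8, 7)]) (.l [(1, 2), (4, 3)]))) (.l [(1, 2), (4, 3)]) (.n (.l [(0, 1), (5,
  6), (6, 5)]) (.l [(1, 3), (6, 13)]) (.l [(0, 1), (5, 6), (6, 5)]) (.l [(1, 3), (6, 13)]) (.l
  [(0, 1), (5, 6), (6, 5)]) (.n (.l [(3, 1), (8, 2)]) (.l [(1, 2), (4, 3)]) (.l [(3, 1), (8,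
  2)]) (.l [(1, 2), (4, 3)]) (.l [(3, 3), (4, 1), (8, 4)]) (.l [(1, 2), (4, 3)]) (.l [(3, 3),
  (4, 1), (8, 4)]) (.l [(1, 2), (4, 3)])) (.l [(0, 1), (5, 6), (6, 5)]) (.n (.l [(3, 1), (8,
  2)]) (.l [(1, 2), (4, 3)]) (.l [(3, 1), (8, 2)]) (.l [(1, 2), (4, 3)]) (.l [(3, 3), (4, 1),
  (8, 4)]) (.l [(1, 2), (4, 3)]) (.l [(3, 3), (4, 1), (8, 4)]) (.l [(1, 2), (4, 3)]))) (.l [(1,
  2), (4, 3)])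

def s26 : Tr := .n (.n (.l [(0, 1)]) (.l []) (.l []) (.l [(2, 1)]) (.n (.l [(0, 1)]) (.l []) (.l
  []) (.l [(2, 1)]) (.l []) (.l [(1, 2), (2, 3)]) (.l []) (.l [(1, 2), (2, 3)])) (.l [(1, 1),
  (6, 4)]) (.n (.l []) (.l [(2, 1)]) (.l []) (.l [(2, 1)]) (.l []) (.l [(1, 2), (2, 3)]) (.l [])
  (.l [(1, 2), (2, 3)])) (.l [(1, 1), (6, 4)])) (.l [(1, 1), (4, 2)]) (.n (.l []) (.l [(2, 1)])
  (.l []) (.l [(2, 1)]) (.n (.l []) (.l [(2, 1)]) (.l []) (.l [(2, 1)]) (.l []) (.l [(1, 2), (2,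
  3)]) (.l []) (.l [(1, 2), (2, 3)])) (.l [(1, 1), (6, 4)]) (.n (.l []) (.l [(2, 1)]) (.l [])
  (.l [(2, 1)]) (.l []) (.l [(1, 2), (2, 3)]) (.l []) (.l [(1, 2), (2, 3)])) (.l [(1, 1), (6,
  4)])) (.l [(1, 1), (4, 2)]) (.n (.l [(0, 1), (5, 2)]) (.l [(1, 1), (6, 4)]) (.l [(0, 1), (5,
  10), (6, 10)]) (.l [(1, 1), (6, 4)]) (.l [(0, 1), (5, 2)]) (.n (.l [(3, 1)]) (.l []) (.l [(0,
  1), (3, 6), (8, 18)]) (.l [(1, 3), (8, 10)]) (.l [(3, 1)]) (.l []) (.n (.l [(0, 1), (5, 2)])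
  (.l [(5, 1), (10, 3)]) (.l [(0, 2), (5, 3)]) (.l [(2, 1), (5, 4), (10, 9)]) (.l [(0, 1), (5,
  2)]) (.n (.l [(3, 1)]) (.l []) (.l [(0, 1), (7, 5)]) (.l [(7, 2), (12, 5)]) (.l [(3, 1)]) (.l
  []) (.l [(0, 1), (7, 5)]) (.n (.l [(3, 1)]) (.l []) (.l [(0, 2), (3, 3)]) (.l []) (.l [(3,
  1)]) (.l []) (.l [(0, 2), (3, 3)]) (.l []))) (.l [(0, 2), (5, 3)]) (.n (.l [(0, 1), (7, 9),
  (12, 22)]) (.l [(1, 1), (4, 5), (7, 3)]) (.l [(4, 2), (7, 11), (12, 27)]) (.l [(1, 1), (4, 5),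
  (7, 3)]) (.l [(0, 1), (7, 6), (12, 9)]) (.l [(1, 1), (4, 5), (7, 3)]) (.l [(0, 1), (4, 3), (7,
  14), (12, 22)]) (.l [(1, 1), (4, 5), (7, 3)]))) (.n (.l [(3, 1)]) (.l []) (.l [(0, 1), (3, 2),
  (10, 2)]) (.l []) (.l [(3, 1)]) (.l []) (.l [(0, 1), (3, 2), (6, 2)]) (.l []))) (.l [(0, 1),
  (5, 10), (6, 10)]) (.n (.l [(3, 1), (8, 3)]) (.l [(1, 2), (4, 3)]) (.l [(3, 1), (8, 3)]) (.l
  [(1, 2), (4, 3)]) (.l [(3, 3), (4, 2), (8, 3)]) (.l [(1, 2), (4, 3)]) (.l [(3, 3), (4, 2), (8,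
  3)]) (.l [(1, 2), (4, 3)]))) (.l [(1, 2), (4, 3)]) (.n (.l [(0, 1), (5, 5), (6, 3)]) (.l [(1,
  1), (6, 4)]) (.l [(0, 1), (5, 5), (6, 3)]) (.l [(1, 1), (6, 4)]) (.l [(0, 1), (5, 5), (6, 3)])
  (.n (.l [(3, 1), (8, 2)]) (.l [(1, 1), (4, 1)]) (.l [(3, 1), (8, 2)]) (.l [(1, 1), (4, 1)])
  (.l [(3, 2), (4, 1), (8, 2)]) (.l [(1, 1), (4, 1)]) (.l [(3, 2), (4, 1), (8, 2)]) (.l [(1, 1),
  (4, 1)])) (.l [(0, 1), (5, 5), (6, 3)]) (.n (.l [(3, 1), (8, 2)]) (.l [(1, 1), (4, 1)]) (.l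
  [(3, 1), (8, 2)]) (.l [(1, 1), (4, 1)]) (.l [(3, 2), (4, 1), (8, 2)]) (.l [(1, 1), (4, 1)])
  (.l [(3, 2), (4, 1), (8, 2)]) (.l [(1, 1), (4, 1)]))) (.l [(1, 2), (4, 3)])

def s27 : Tr := .n (.n (.l []) (.l [(2, 1)]) (.l []) (.l [(2, 1)]) (.n (.l []) (.l [(2, 1)]) (.l
  []) (.l [(2, 1)]) (.l []) (.l [(1, 2), (2, 3)]) (.l []) (.l [(1, 2), (2, 3)])) (.l [(1, 1),
  (6, 4)]) (.n (.l []) (.l [(2, 1)]) (.l []) (.l [(2, 1)]) (.l []) (.l [(1, 2), (2, 3)]) (.l [])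
  (.l [(1, 2), (2, 3)])) (.l [(1, 1), (6, 4)])) (.l [(1, 1), (4, 2)]) (.n (.l []) (.l [(2, 1)])
  (.l []) (.l [(2, 1)]) (.n (.l []) (.l [(2, 1)]) (.l []) (.l [(2, 1)]) (.l []) (.l [(1, 2), (2,
  3)]) (.l []) (.l [(1, 2), (2, 3)])) (.l [(1, 1), (6, 4)]) (.n (.l []) (.l [(2, 1)]) (.l [])
  (.l [(2, 1)]) (.l []) (.l [(1, 2), (2, 3)]) (.l []) (.l [(1, 2), (2, 3)])) (.l [(1, 1), (6,
  4)])) (.l [(1, 1), (4, 2)]) (.n (.l [(0, 1), (5, 5), (6, 3)]) (.l [(1, 1), (6, 4)]) (.l [(0,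
  1), (5, 5), (6, 3)]) (.l [(1, 1), (6, 4)]) (.l [(0, 1), (5, 5), (6, 3)]) (.n (.l [(3, 1), (8,
  2)]) (.l [(1, 1), (4, 1)]) (.l [(3, 1), (8, 2)]) (.l [(1, 1), (4, 1)]) (.l [(3, 2), (4, 1),
  (8, 2)]) (.l [(1, 1), (4, 1)]) (.l [(3, 2), (4, 1), (8, 2)]) (.l [(1, 1), (4, 1)])) (.l [(0,
  1), (5, 5), (6, 3)]) (.n (.l [(3, 1), (8, 2)]) (.l [(1, 1), (4, 1)]) (.l [(3, 1), (8, 2)]) (.l
  [(1, 1), (4, 1)]) (.l [(3, 2), (4, 1), (8, 2)]) (.l [(1, 1), (4, 1)]) (.l [(3, 2), (4, 1), (8,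
  2)]) (.l [(1, 1), (4, 1)]))) (.l [(1, 2), (4, 3)]) (.n (.l [(0, 1), (5, 5), (6, 3)]) (.l [(1,
  1), (6, 4)]) (.l [(0, 1), (5, 5), (6, 3)]) (.l [(1, 1), (6, 4)]) (.l [(0, 1), (5, 5), (6, 3)])
  (.n (.l [(3, 1), (8, 2)]) (.l [(1, 1), (4, 1)]) (.l [(3, 1), (8, 2)]) (.l [(1, 1), (4, 1)])
  (.l [(3, 2), (4, 1), (8, 2)]) (.l [(1, 1), (4, 1)]) (.l [(3, 2), (4, 1), (8, 2)]) (.l [(1, 1),
  (4, 1)])) (.l [(0, 1), (5, 5), (6, 3)]) (.n (.l [(3, 1), (8, 2)]) (.l [(1, 1), (4, 1)]) (.l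
  [(3, 1), (8, 2)]) (.l [(1, 1), (4, 1)]) (.l [(3, 2), (4, 1), (8, 2)]) (.l [(1, 1), (4, 1)])
  (.l [(3, 2), (4, 1), (8, 2)]) (.l [(1, 1), (4, 1)]))) (.l [(1, 2), (4, 3)])

def s28 : Tr := .n (.l [(0, 1), (5, 2)]) (.n (.l [(1, 1)]) (.l []) (.l [(0, 1), (31, 19999)])
  (.l [(1, 9), (20, 4991)]) (.l [(3, 1)]) (.l []) (.l [(0, 1), (31, 19999)]) (.n (.l [(3, 1)])
  (.l []) (.l [(0, 2), (3, 3)]) (.l []) (.l [(3, 1)]) (.l []) (.l [(0, 2), (3, 3)]) (.l [])))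
  (.l [(0, 1), (29, 4999)]) (.n (.n (.l [(0, 1)]) (.l []) (.l []) (.l [(2, 1)]) (.l [(0, 1), (5,
  4)]) (.n (.l [(1, 1)]) (.l []) (.l [(0, 1), (35, 99999)]) (.l [(1, 1), (4, 5)]) (.l [(3, 1)])
  (.l []) (.l [(0, 1), (35, 99999)]) (.n (.l [(3, 1)]) (.l []) (.l [(0, 2), (3, 3)]) (.l []) (.l
  [(3, 1)]) (.l []) (.l [(0, 2), (3, 3)]) (.l []))) (.n (.l []) (.l [(2, 1)]) (.l []) (.l [(2,
  1)]) (.l []) (.l [(1, 2), (2, 3)]) (.l []) (.l [(1, 2), (2, 3)])) s25) (.l [(1, 1), (4, 2)])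
  (.n (.l []) (.l [(2, 1)]) (.l []) (.l [(2, 1)]) (.n (.l []) (.l [(2, 1)]) (.l []) (.l [(2,
  1)]) (.l []) (.l [(1, 2), (2, 3)]) (.l []) (.l [(1, 2), (2, 3)])) s26 (.n (.l []) (.l [(2,
  1)]) (.l []) (.l [(2, 1)]) (.l []) (.l [(1, 2), (2, 3)]) (.l []) (.l [(1, 2), (2, 3)])) s27)
  (.l [(1, 1), (4, 2)]) (.n (.l [(0, 1), (5, 2)]) (.l [(2, 1), (33, 9999)]) (.l [(0, 2), (5,
  3)]) (.l [(2, 1), (33, 9999)]) (.l [(0, 1), (5, 2)]) (.l [(2, 1), (33, 9999)]) (.l [(0, 2),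
  (5, 3)]) (.l [(2, 1), (33, 9999)])) (.l [(1, 3), (4, 5)]) (.n (.l [(0, 2), (5, 3)]) (.l [(2,
  1), (33, 9999)]) (.l [(0, 2), (5, 3)]) (.l [(2, 3), (6, 4), (33, 49993)]) (.l [(0, 2), (5,
  3)]) (.l [(2, 1), (33, 9999)]) (.l [(0, 2), (5, 3)]) (.l [(2, 3), (6, 4), (33, 49993)])) (.l
  [(1, 3), (4, 5)])) (.l [(0, 1), (5, 2)]) (.n (.l [(3, 1)]) (.l []) (.l [(0, 1), (31, 19999)])
  (.n (.l [(3, 1)]) (.l []) (.l [(0, 2), (3, 3)]) (.l []) (.l [(3, 1)]) (.l []) (.l [(0, 2), (3,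
  3)]) (.l [])) (.l [(3, 1)]) (.l []) (.l [(0, 1), (31, 19999)]) (.n (.l [(3, 1)]) (.l []) (.l
  [(0, 2), (3, 3)]) (.l []) (.l [(3, 1)]) (.l []) (.l [(0, 2), (3, 3)]) (.l []))) (.l [(0, 1),
  (29, 4999)]) (.n (.n (.l [(0, 1), (5, 2)]) (.l [(2, 1), (33, 9999)]) (.l [(0, 2), (5, 3)]) (.l
  [(2, 1), (33, 9999)]) (.l [(0, 1), (5, 2)]) (.l [(2, 1), (33, 9999)]) (.l [(0, 2), (5, 3)])
  (.l [(2, 1), (33, 9999)])) (.l [(1, 3), (4, 5)]) (.n (.l [(0, 2), (5, 3)]) (.l [(2, 1), (33,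
  9999)]) (.l [(0, 2), (5, 3)]) (.l [(2, 2), (5, 1), (33, 9999)]) (.l [(0, 2), (5, 3)]) (.l [(2,
  1), (33, 9999)]) (.l [(0, 2), (5, 3)]) (.l [(2, 2), (5, 1), (33, 9999)])) (.l [(1, 3), (4,
  5)]) (.n (.l [(0, 1), (5, 2)]) (.l [(2, 1), (33, 9999)]) (.l [(0, 2), (5, 3)]) (.l [(2, 1),
  (33, 9999)]) (.l [(0, 1), (5, 2)]) (.l [(2, 1), (33, 9999)]) (.l [(0, 2), (5, 3)]) (.l [(2,
  1), (33, 9999)])) (.l [(1, 3), (4, 5)]) (.n (.l [(0, 2), (5, 3)]) (.l [(2, 1), (33, 9999)])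
  (.l [(0, 2), (5, 3)]) (.l [(2, 2), (5, 1), (33, 9999)]) (.l [(0, 2), (5, 3)]) (.l [(2, 1),
  (33, 9999)]) (.l [(0, 2), (5, 3)]) (.l [(2, 2), (5, 1), (33, 9999)])) (.l [(1, 3), (4, 5)]))

def s29 : Tr := .n (.l [(0, 1)]) (.l []) (.l []) (.l [(2, 1)]) (.l [(0, 1), (5, 4)]) (.n (.l
  [(1, 1)]) (.l []) (.n (.l [(0, 1)]) (.l []) (.l []) (.l [(2, 1)]) (.l [(0, 1), (29, 19999)])
  (.l [(1, 9), (18, 4991)]) (.n (.l []) (.l [(2, 1)]) (.l []) (.l [(2, 1)]) (.l []) (.l [(1, 2),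
  (2, 3)]) (.l []) (.l [(1, 2), (2, 3)])) (.l [(1, 9), (18, 4991)])) (.l [(1, 1), (4, 5)]) (.l
  [(3, 1)]) (.l []) s28 (.n (.l [(3, 1)]) (.l []) (.l [(0, 2), (3, 3)]) (.l []) (.l [(3, 1)])
  (.l []) (.l [(0, 2), (3, 3)]) (.l []))) (.n (.l []) (.l [(2, 1)]) (.l []) (.l [(2, 1)]) (.l
  []) (.l [(1, 2), (2, 3)]) (.l []) (.l [(1, 2), (2, 3)])) (.n (.n (.l [(0, 1)]) (.l []) (.l [])
  (.l [(2, 1)]) (.n (.l [(0, 1)]) (.l []) (.l []) (.l [(2, 1)]) (.l []) (.l [(1, 2), (2, 3)])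
  (.l []) (.l [(1, 2), (2, 3)])) (.l [(1, 1), (6, 5)]) (.n (.l []) (.l [(2, 1)]) (.l []) (.l
  [(2, 1)]) (.l []) (.l [(1, 2), (2, 3)]) (.l []) (.l [(1, 2), (2, 3)])) (.l [(1, 1), (6, 5)]))
  (.l [(1, 1), (4, 2)]) (.n (.l []) (.l [(2, 1)]) (.l []) (.l [(2, 1)]) (.n (.l []) (.l [(2,
  1)]) (.l []) (.l [(2, 1)]) (.l []) (.l [(1, 2), (2, 3)]) (.l []) (.l [(1, 2), (2, 3)])) (.l
  [(1, 1), (6, 5)]) (.n (.l []) (.l [(2, 1)]) (.l []) (.l [(2, 1)]) (.l []) (.l [(1, 2), (2,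
  3)]) (.l []) (.l [(1, 2), (2, 3)])) (.l [(1, 1), (6, 5)])) (.l [(1, 1), (4, 2)]) (.n (.l [(0,
  1), (5, 2)]) (.l [(1, 3), (6, 13)]) (.l [(5, 1), (18, 49)]) (.l [(1, 3), (6, 13)]) (.l [(0,
  1), (5, 2)]) (.l [(5, 1), (18, 49)]) (.l [(5, 1), (18, 49)]) (.l [(5, 1), (18, 49)])) (.l [(1,
  2), (4, 3)]) (.n (.l [(0, 1), (5, 6), (6, 5)]) (.l [(1, 3), (6, 13)]) (.l [(0, 1), (5, 6), (6,
  5)]) (.l [(1, 3), (6, 13)]) (.l [(0, 1), (5, 6), (6, 5)]) (.l [(5, 1), (18, 49)]) (.l [(0, 1),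
  (5, 6), (6, 5)]) (.l [(5, 1), (18, 49)])) (.l [(1, 2), (4, 3)]))

def s30 : Tr := .n (.l []) (.l [(2, 1)]) (.l []) (.l [(2, 1)]) (.n (.l []) (.l [(2, 1)]) (.l [])
  (.l [(2, 1)]) (.l []) (.l [(1, 2), (2, 3)]) (.l []) (.l [(1, 2), (2, 3)])) (.n (.n (.l [(0,
  1)]) (.l []) (.l []) (.l [(2, 1)]) (.n (.l [(0, 1)]) (.l []) (.l []) (.l [(2, 1)]) (.l []) (.l
  [(1, 2), (2, 3)]) (.l []) (.l [(1, 2), (2, 3)])) (.l [(1, 1), (6, 4)]) (.n (.l []) (.l [(2,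
  1)]) (.l []) (.l [(2, 1)]) (.l []) (.l [(1, 2), (2, 3)]) (.l []) (.l [(1, 2), (2, 3)])) (.l
  [(1, 1), (6, 4)])) (.l [(1, 1), (4, 2)]) (.n (.l []) (.l [(2, 1)]) (.l []) (.l [(2, 1)]) (.n
  (.l []) (.l [(2, 1)]) (.l []) (.l [(2, 1)]) (.l []) (.l [(1, 2), (2, 3)]) (.l []) (.l [(1, 2),
  (2, 3)])) (.l [(1, 1), (6, 4)]) (.n (.l []) (.l [(2, 1)]) (.l []) (.l [(2, 1)]) (.l []) (.l
  [(1, 2), (2, 3)]) (.l []) (.l [(1, 2), (2, 3)])) (.l [(1, 1), (6, 4)])) (.l [(1, 1), (4, 2)])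
  (.n (.l [(0, 1), (5, 2)]) (.l [(1, 1), (6, 4)]) (.l [(5, 1), (18, 39)]) (.l [(1, 1), (6, 4)])
  (.l [(0, 1), (5, 2)]) (.l [(5, 1), (18, 49)]) (.l [(5, 1), (18, 39)]) (.l [(5, 1), (18, 49)]))
  (.l [(1, 2), (4, 3)]) (.n (.l [(0, 1), (5, 5), (6, 3)]) (.l [(1, 1), (6, 4)]) (.l [(0, 1), (5,
  5), (6, 3)]) (.l [(1, 1), (6, 4)]) (.l [(0, 1), (5, 5), (6, 3)]) (.l [(5, 1), (18, 49)]) (.l
  [(0, 1), (5, 5), (6, 3)]) (.l [(5, 1), (18, 49)])) (.l [(1, 2), (4, 3)])) (.n (.l []) (.l [(2,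
  1)]) (.l []) (.l [(2, 1)]) (.l []) (.l [(1, 2), (2, 3)]) (.l []) (.l [(1, 2), (2, 3)])) (.n
  (.n (.l []) (.l [(2, 1)]) (.l []) (.l [(2, 1)]) (.n (.l []) (.l [(2, 1)]) (.l []) (.l [(2,
  1)]) (.l []) (.l [(1, 2), (2, 3)]) (.l []) (.l [(1, 2), (2, 3)])) (.l [(1, 1), (6, 4)]) (.n
  (.l []) (.l [(2, 1)]) (.l []) (.l [(2, 1)]) (.l []) (.l [(1, 2), (2, 3)]) (.l []) (.l [(1, 2),
  (2, 3)])) (.l [(1, 1), (6, 4)])) (.l [(1, 1), (4, 2)]) (.n (.l []) (.l [(2, 1)]) (.l []) (.l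
  [(2, 1)]) (.n (.l []) (.l [(2, 1)]) (.l []) (.l [(2, 1)]) (.l []) (.l [(1, 2), (2, 3)]) (.l
  []) (.l [(1, 2), (2, 3)])) (.l [(1, 1), (6, 4)]) (.n (.l []) (.l [(2, 1)]) (.l []) (.l [(2,
  1)]) (.l []) (.l [(1, 2), (2, 3)]) (.l []) (.l [(1, 2), (2, 3)])) (.l [(1, 1), (6, 4)])) (.l
  [(1, 1), (4, 2)]) (.n (.l [(0, 1), (5, 5), (6, 3)]) (.l [(1, 1), (6, 4)]) (.l [(0, 1), (5, 5),
  (6, 3)]) (.l [(1, 1), (6, 4)]) (.l [(0, 1), (5, 5), (6, 3)]) (.l [(5, 1), (18, 49)]) (.l [(0,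
  1), (5, 5), (6, 3)]) (.l [(5, 1), (18, 49)])) (.l [(1, 2), (4, 3)]) (.n (.l [(0, 1), (5, 5),
  (6, 3)]) (.l [(1, 1), (6, 4)]) (.l [(0, 1), (5, 5), (6, 3)]) (.l [(1, 1), (6, 4)]) (.l [(0,
  1), (5, 5), (6, 3)]) (.l [(5, 1), (18, 49)]) (.l [(0, 1), (5, 5), (6, 3)]) (.l [(5, 1), (18,
  49)])) (.l [(1, 2), (4, 3)]))

def s31 : Tr := .n (.l [(0, 1), (5, 3)]) (.n (.l [(1, 1)]) (.l []) (.l [(0, 1), (23, 1999)]) (.l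
  [(1, 1), (12, 39)]) (.l [(3, 1)]) (.l []) (.l [(0, 1), (23, 1999)]) (.n (.l [(3, 1)]) (.l [])
  (.l [(0, 2), (3, 3)]) (.l []) (.l [(3, 1)]) (.l []) (.l [(0, 2), (3, 3)]) (.l []))) (.l [(0,
  1), (21, 499)]) (.n s29 (.l [(1, 1), (4, 2)]) s30 (.l [(1, 1), (4, 2)]) (.n (.l [(0, 1), (5,
  2)]) (.l [(2, 11), (25, 9989)]) (.l [(0, 2), (5, 3)]) (.l [(2, 11), (25, 9989)]) (.l [(0, 1),
  (5, 2)]) (.l [(2, 11), (25, 9989)]) (.l [(0, 2), (5, 3)]) (.l [(2, 11), (25, 9989)])) (.l [(1,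
  3), (4, 5)]) (.n (.l [(0, 2), (5, 3)]) (.l [(2, 11), (25, 9989)]) (.l [(0, 2), (5, 3)]) (.n
  (.l [(4, 3), (7, 1), (27, 1996)]) (.l [(1, 1), (4, 2)]) (.l [(4, 5), (7, 6), (27, 991)]) (.l
  [(1, 1), (4, 2)]) (.l [(4, 3), (7, 1), (27, 1996)]) (.l [(1, 2), (4, 3)]) (.l [(4, 5), (7, 6),
  (27, 991)]) (.l [(1, 2), (4, 3)])) (.l [(0, 2), (5, 3)]) (.l [(2, 11), (25, 9989)]) (.l [(0,
  2), (5, 3)]) (.n (.l [(4, 3), (7, 1), (27, 1996)]) (.l [(1, 2), (4, 3)]) (.l [(4, 5), (7, 6),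
  (27, 991)]) (.l [(1, 2), (4, 3)]) (.l [(4, 3), (7, 1), (27, 1996)]) (.l [(1, 2), (4, 3)]) (.l
  [(4, 5), (7, 6), (27, 991)]) (.l [(1, 2), (4, 3)]))) (.l [(1, 3), (4, 5)])) (.l [(0, 1), (5,
  3)]) (.n (.l [(3, 1)]) (.l []) (.l [(0, 1), (23, 1999)]) (.n (.l [(3, 1)]) (.l []) (.l [(0,
  2), (3, 3)]) (.l []) (.l [(3, 1)]) (.l []) (.l [(0, 2), (3, 3)]) (.l [])) (.l [(3, 1)]) (.l
  []) (.l [(0, 1), (23, 1999)]) (.n (.l [(3, 1)]) (.l []) (.l [(0, 2), (3, 3)]) (.l []) (.l [(3,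
  1)]) (.l []) (.l [(0, 2), (3, 3)]) (.l []))) (.l [(0, 1), (21, 499)]) (.n (.n (.l [(0, 1), (5,
  2)]) (.l [(2, 1), (25, 699)]) (.l [(0, 2), (5, 3)]) (.l [(2, 1), (25, 699)]) (.l [(0, 1), (5,
  2)]) (.l [(2, 1), (25, 699)]) (.l [(0, 2), (5, 3)]) (.l [(2, 1), (25, 699)])) (.l [(1, 3), (4,
  5)]) (.n (.l [(0, 2), (5, 3)]) (.l [(2, 1), (25, 699)]) (.l [(0, 2), (5, 3)]) (.l [(2, 4), (5,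
  1), (25, 1996)]) (.l [(0, 2), (5, 3)]) (.l [(2, 1), (25, 699)]) (.l [(0, 2), (5, 3)]) (.l [(2,
  4), (5, 1), (25, 1996)])) (.l [(1, 3), (4, 5)]) (.n (.l [(0, 1), (5, 2)]) (.l [(2, 1), (25,
  699)]) (.l [(0, 2), (5, 3)]) (.l [(2, 1), (25, 699)]) (.l [(0, 1), (5, 2)]) (.l [(2, 1), (25,
  699)]) (.l [(0, 2), (5, 3)]) (.l [(2, 1), (25, 699)])) (.l [(1, 3), (4, 5)]) (.n (.l [(0, 2),
  (5, 3)]) (.l [(2, 1), (25, 699)]) (.l [(0, 2), (5, 3)]) (.l [(2, 4), (5, 1), (25, 1996)]) (.l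
  [(0, 2), (5, 3)]) (.l [(2, 1), (25, 699)]) (.l [(0, 2), (5, 3)]) (.l [(2, 4), (5, 1), (25,
  1996)])) (.l [(1, 3), (4, 5)]))

def s32 : Tr := .n (.l [(0, 1)]) (.l []) (.l []) (.l [(2, 1)]) (.l [(0, 1), (17, 149)]) (.n (.l
  [(1, 1)]) (.l []) (.n (.l [(0, 1)]) (.l []) (.l []) (.l [(2, 1)]) (.l [(0, 1), (21, 1999)])
  (.l [(1, 1), (10, 39)]) (.n (.l []) (.l [(2, 1)]) (.l []) (.l [(2, 1)]) (.l []) (.l [(1, 2),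
  (2, 3)]) (.l []) (.l [(1, 2), (2, 3)])) (.l [(1, 1), (10, 39)])) (.l [(1, 1), (4, 4)]) (.l
  [(3, 1)]) (.l []) s31 (.n (.l [(3, 1)]) (.l []) (.l [(0, 1), (3, 2), (6, 4)]) (.l []) (.l [(3,
  1)]) (.l []) (.l [(0, 1), (3, 2), (6, 2)]) (.l []))) (.n (.l []) (.l [(2, 1)]) (.l []) (.l
  [(2, 1)]) (.l []) (.l [(1, 2), (2, 3)]) (.l []) (.l [(1, 2), (2, 3)])) (.n (.n (.l [(0, 1)])
  (.l []) (.l []) (.l [(2, 1)]) (.n (.l [(0, 1)]) (.l []) (.l []) (.l [(2, 1)]) (.l []) (.l [(1,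
  2), (2, 3)]) (.l []) (.l [(1, 2), (2, 3)])) (.l [(1, 1), (6, 4)]) (.n (.l []) (.l [(2, 1)])
  (.l []) (.l [(2, 1)]) (.l []) (.l [(1, 2), (2, 3)]) (.l []) (.l [(1, 2), (2, 3)])) (.l [(1,
  1), (6, 4)])) (.l [(1, 1), (4, 2)]) (.n (.l []) (.l [(2, 1)]) (.l []) (.l [(2, 1)]) (.n (.l
  []) (.l [(2, 1)]) (.l []) (.l [(2, 1)]) (.l []) (.l [(1, 2), (2, 3)]) (.l []) (.l [(1, 2), (2,
  3)])) (.l [(1, 1), (6, 4)]) (.n (.l []) (.l [(2, 1)]) (.l []) (.l [(2, 1)]) (.l []) (.l [(1,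
  2), (2, 3)]) (.l []) (.l [(1, 2), (2, 3)])) (.l [(1, 1), (6, 4)])) (.l [(1, 1), (4, 2)]) (.n
  (.l [(0, 1), (5, 3)]) (.l [(1, 1), (6, 4)]) (.l [(0, 1), (5, 6), (10, 19)]) (.l [(1, 1), (6,
  4)]) (.l [(0, 1), (5, 3)]) (.l [(1, 1), (5, 3), (10, 21)]) (.l [(0, 1), (5, 6), (10, 19)]) (.l
  [(1, 1), (5, 3), (10, 21)])) (.l [(1, 2), (4, 3)]) (.n (.l [(0, 1), (5, 5), (6, 3)]) (.l [(1,
  1), (6, 4)]) (.l [(0, 1), (5, 5), (6, 3)]) (.l [(1, 1), (6, 4)]) (.l [(0, 1), (5, 5), (6, 3)])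
  (.l [(1, 1), (5, 3), (10, 21)]) (.l [(0, 1), (5, 5), (6, 3)]) (.l [(1, 1), (5, 3), (10, 21)]))
  (.l [(1, 2), (4, 3)]))

def s33 : Tr := .n (.l []) (.l [(2, 1)]) (.l []) (.l [(2, 1)]) (.n (.l []) (.l [(2, 1)]) (.l [])
  (.l [(2, 1)]) (.l []) (.l [(1, 2), (2, 3)]) (.l []) (.l [(1, 2), (2, 3)])) (.n (.n (.l [(0,
  1)]) (.l []) (.l []) (.l [(2, 1)]) (.n (.l [(0, 1)]) (.l []) (.l []) (.l [(2, 1)]) (.l []) (.l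
  [(1, 2), (2, 3)]) (.l []) (.l [(1, 2), (2, 3)])) (.l [(1, 1), (6, 3)]) (.n (.l []) (.l [(2,
  1)]) (.l []) (.l [(2, 1)]) (.l []) (.l [(1, 2), (2, 3)]) (.l []) (.l [(1, 2), (2, 3)])) (.l
  [(1, 1), (6, 3)])) (.l [(1, 1), (4, 2)]) (.n (.l []) (.l [(2, 1)]) (.l []) (.l [(2, 1)]) (.n
  (.l []) (.l [(2, 1)]) (.l []) (.l [(2, 1)]) (.l []) (.l [(1, 2), (2, 3)]) (.l []) (.l [(1, 2),
  (2, 3)])) (.l [(1, 1), (6, 3)]) (.n (.l []) (.l [(2, 1)]) (.l []) (.l [(2, 1)]) (.l []) (.l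
  [(1, 2), (2, 3)]) (.l []) (.l [(1, 2), (2, 3)])) (.l [(1, 1), (6, 3)])) (.l [(1, 1), (4, 2)])
  (.n (.l [(0, 1), (5, 3)]) (.l [(1, 1), (6, 3)]) (.l [(5, 1), (10, 3)]) (.l [(1, 1), (6, 3)])
  (.l [(0, 1), (5, 3)]) (.l [(5, 1), (10, 4)]) (.l [(5, 1), (10, 3)]) (.l [(5, 1), (10, 4)]))
  (.l [(1, 2), (4, 3)]) (.n (.l [(0, 1), (5, 3), (10, 4)]) (.l [(1, 1), (6, 3)]) (.l [(0, 1),
  (5, 3), (10, 4)]) (.l [(1, 1), (6, 3)]) (.l [(0, 1), (5, 3), (10, 4)]) (.l [(5, 1), (10, 4)])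
  (.l [(0, 1), (5, 3), (10, 4)]) (.l [(5, 1), (10, 4)])) (.l [(1, 2), (4, 3)])) (.n (.l []) (.l
  [(2, 1)]) (.l []) (.l [(2, 1)]) (.l []) (.l [(1, 2), (2, 3)]) (.l []) (.l [(1, 2), (2, 3)]))
  (.n (.n (.l []) (.l [(2, 1)]) (.l []) (.l [(2, 1)]) (.n (.l []) (.l [(2, 1)]) (.l []) (.l [(2,
  1)]) (.l []) (.l [(1, 2), (2, 3)]) (.l []) (.l [(1, 2), (2, 3)])) (.l [(1, 1), (6, 3)]) (.n
  (.l []) (.l [(2, 1)]) (.l []) (.l [(2, 1)]) (.l []) (.l [(1, 2), (2, 3)]) (.l []) (.l [(1, 2),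
  (2, 3)])) (.l [(1, 1), (6, 3)])) (.l [(1, 1), (4, 2)]) (.n (.l []) (.l [(2, 1)]) (.l []) (.l
  [(2, 1)]) (.n (.l []) (.l [(2, 1)]) (.l []) (.l [(2, 1)]) (.l []) (.l [(1, 2), (2, 3)]) (.l
  []) (.l [(1, 2), (2, 3)])) (.l [(1, 1), (6, 3)]) (.n (.l []) (.l [(2, 1)]) (.l []) (.l [(2,
  1)]) (.l []) (.l [(1, 2), (2, 3)]) (.l []) (.l [(1, 2), (2, 3)])) (.l [(1, 1), (6, 3)])) (.l
  [(1, 1), (4, 2)]) (.n (.l [(0, 1), (5, 3), (10, 3)]) (.l [(1, 1), (6, 3)]) (.l [(0, 1), (5,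
  3), (10, 3)]) (.l [(1, 1), (6, 3)]) (.l [(0, 1), (5, 3), (10, 3)]) (.l [(5, 1), (10, 4)]) (.l
  [(0, 1), (5, 3), (10, 3)]) (.l [(5, 1), (10, 4)])) (.l [(1, 2), (4, 3)]) (.n (.l [(0, 1), (5,
  3), (10, 3)]) (.l [(1, 1), (6, 3)]) (.l [(0, 1), (5, 3), (10, 3)]) (.l [(1, 1), (6, 3)]) (.l
  [(0, 1), (5, 3), (10, 3)]) (.l [(5, 1), (10, 4)]) (.l [(0, 1), (5, 3), (10, 3)]) (.l [(5, 1),
  (10, 4)])) (.l [(1, 2), (4, 3)]))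

def s34 : Tr := .n s32 (.l [(1, 1), (4, 2)]) s33 (.l [(1, 1), (4, 2)]) (.n (.l [(0, 1), (5, 2)])
  (.l [(2, 1), (17, 99)]) (.l [(0, 4), (5, 7)]) (.l [(2, 1), (17, 99)]) (.l [(0, 1), (5, 2)])
  (.l [(2, 1), (17, 99)]) (.l [(0, 4), (5, 7)]) (.l [(2, 1), (17, 99)])) (.l [(1, 3), (4, 5)])
  (.n (.l [(0, 4), (5, 7)]) (.l [(2, 8), (17, 692)]) (.l [(0, 4), (5, 7)]) (.n (.l [(3, 1), (4,
  2), (19, 79)]) (.l [(1, 1), (4, 2)]) (.n (.l []) (.l [(2, 1)]) (.l []) (.l [(2, 1)]) (.l [(5,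
  1), (6, 2), (21, 78)]) (.l [(1, 1), (6, 4)]) (.n (.l []) (.l [(2, 1)]) (.l []) (.l [(2, 1)])
  (.l []) (.l [(1, 2), (2, 3)]) (.l []) (.l [(1, 2), (2, 3)])) (.l [(1, 1), (6, 4)])) (.l [(1,
  1), (4, 2)]) (.l [(3, 1), (4, 2), (19, 79)]) (.l [(1, 2), (4, 3)]) (.n (.l [(0, 1), (5, 3),
  (6, 2)]) (.l [(1, 1), (6, 4)]) (.l [(0, 1), (5, 3), (6, 2)]) (.l [(1, 1), (6, 4)]) (.l [(0,
  1), (5, 3), (6, 2)]) (.l [(1, 1), (5, 3), (6, 7)]) (.l [(0, 1), (5, 3), (6, 2)]) (.l [(1, 1),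
  (5, 3), (6, 7)])) (.l [(1, 2), (4, 3)])) (.l [(0, 4), (5, 7)]) (.l [(2, 8), (17, 692)]) (.l
  [(0, 4), (5, 7)]) (.n (.l [(3, 1), (4, 2), (19, 79)]) (.l [(1, 2), (4, 3)]) (.n (.l [(0, 1),
  (5, 2), (6, 1)]) (.l [(5, 2), (6, 3)]) (.l [(0, 1), (5, 2), (6, 1)]) (.l [(5, 2), (6, 3)]) (.l
  [(0, 1), (5, 2), (6, 1)]) (.l [(5, 2), (6, 3)]) (.l [(0, 1), (5, 2), (6, 1)]) (.l [(5, 2), (6,
  3)])) (.l [(1, 2), (4, 3)]) (.l [(3, 1), (4, 2), (19, 79)]) (.l [(1, 2), (4, 3)]) (.n (.l [(0,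
  1), (5, 2), (6, 1)]) (.l [(5, 2), (6, 3)]) (.l [(0, 1), (5, 2), (6, 1)]) (.l [(5, 2), (6, 3)])
  (.l [(0, 1), (5, 2), (6, 1)]) (.l [(5, 2), (6, 3)]) (.l [(0, 1), (5, 2), (6, 1)]) (.l [(5, 2),
  (6, 3)])) (.l [(1, 2), (4, 3)]))) (.l [(1, 3), (4, 5)])

def s35 : Tr := .n (.l [(0, 1), (5, 2)]) (.l [(1, 1), (6, 4)]) (.n (.l []) (.l [(2, 1)]) (.l [])
  (.l [(2, 1)]) (.l []) (.l [(2, 1), (7, 2)]) (.l []) (.l [(1, 1), (2, 2), (7, 2)])) (.l [(1,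
  1), (6, 4)]) (.l [(0, 1), (5, 2)]) (.n (.l [(3, 1)]) (.l []) (.l [(0, 1), (3, 6), (8, 19)])
  (.n (.l [(3, 1)]) (.l []) (.l [(0, 1), (3, 1), (10, 2)]) (.l []) (.l [(3, 1)]) (.l []) (.l
  [(0, 1), (3, 2), (10, 3)]) (.l [])) (.l [(3, 1)]) (.l []) (.n (.l [(0, 1), (5, 2)]) (.l [(5,
  1), (10, 3)]) (.l [(0, 2), (5, 3)]) (.l [(2, 2), (5, 11), (10, 29)]) (.l [(0, 1), (5, 2)]) (.n
  (.l [(3, 1)]) (.l []) (.l [(0, 1), (7, 5)]) (.l [(7, 3), (12, 8)]) (.l [(3, 1)]) (.l []) (.l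
  [(0, 1), (7, 5)]) (.n (.l [(3, 1)]) (.l []) (.l [(0, 2), (3, 3)]) (.l []) (.l [(3, 1)]) (.l
  []) (.l [(0, 2), (3, 3)]) (.l []))) (.l [(0, 2), (5, 3)]) (.n (.l [(0, 1), (7, 7), (12, 18)])
  (.l [(1, 1), (4, 5), (7, 3)]) (.l [(4, 2), (7, 11), (12, 27)]) (.l [(1, 1), (4, 5), (7, 3)])
  (.l [(0, 1), (7, 6), (12, 9)]) (.l [(1, 1), (4, 5), (7, 3)]) (.l [(0, 1), (4, 5), (7, 18),
  (12, 27)]) (.l [(1, 1), (4, 5), (7, 3)]))) (.n (.l [(3, 1)]) (.l []) (.l [(0, 1), (3, 2), (10,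
  2)]) (.l []) (.l [(3, 1)]) (.l []) (.l [(0, 1), (3, 2), (10, 2)]) (.l []))) (.n (.l []) (.l
  [(2, 1), (7, 2)]) (.l []) (.l [(1, 1), (2, 2), (7, 2)]) (.l []) (.l [(2, 1), (7, 2)]) (.l [])
  (.l [(1, 1), (2, 2), (7, 2)])) (.n (.l [(3, 1), (8, 3)]) (.l [(1, 2), (4, 3)]) (.l [(3, 1),
  (8, 3)]) (.l [(1, 2), (4, 3)]) (.l [(3, 3), (4, 2), (8, 3)]) (.l [(1, 2), (4, 3)]) (.l [(3,
  3), (4, 2), (8, 3)]) (.l [(1, 2), (4, 3)]))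

def s36 : Tr := .n (.l [(0, 1)]) (.l []) (.l []) (.l [(2, 1)]) (.l [(0, 1), (9, 8)]) (.n (.l
  [(1, 1)]) (.l []) (.n (.l [(0, 1)]) (.l []) (.l []) (.l [(2, 1)]) (.l [(0, 1), (13, 50)]) (.n
  (.l [(1, 1)]) (.l []) (.l [(0, 1), (15, 149)]) (.n (.l [(1, 1)]) (.l []) (.l [(0, 2), (3, 3)])
  (.l []) (.l [(3, 1)]) (.l []) (.l [(0, 2), (3, 3)]) (.l [])) (.l [(3, 1)]) (.l []) (.l [(0,
  1), (15, 149)]) (.n (.l [(3, 1)]) (.l []) (.l [(0, 2), (3, 3)]) (.l []) (.l [(3, 1)]) (.l [])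
  (.l [(0, 2), (3, 3)]) (.l []))) (.n (.l []) (.l [(2, 1)]) (.l []) (.l [(2, 1)]) (.l []) (.l
  [(1, 2), (2, 3)]) (.l []) (.l [(1, 2), (2, 3)])) s34) (.l [(1, 1), (4, 4)]) (.l [(3, 1)]) (.l
  []) (.n (.l [(0, 1), (5, 2)]) (.l [(2, 1), (13, 19)]) (.l [(0, 1), (13, 19)]) (.l [(2, 1),
  (13, 19)]) (.l [(0, 1), (5, 2)]) (.l [(2, 1), (13, 19)]) (.l [(0, 1), (13, 19)]) (.l [(2, 1),
  (13, 19)])) (.n (.l [(3, 1)]) (.l []) (.l [(0, 1), (3, 2), (6, 4)]) (.l []) (.l [(3, 1)]) (.l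
  []) (.l [(0, 1), (3, 2), (6, 2)]) (.l []))) (.n (.l []) (.l [(2, 1)]) (.l []) (.l [(2, 1)])
  (.l []) (.l [(1, 2), (2, 3)]) (.l []) (.l [(1, 2), (2, 3)])) (.n (.n (.l [(0, 1)]) (.l []) (.l
  []) (.l [(2, 1)]) (.n (.l [(0, 1)]) (.l []) (.l []) (.l [(2, 1)]) (.l []) (.l [(1, 2), (2,
  3)]) (.l []) (.l [(1, 2), (2, 3)])) (.l [(1, 1), (6, 4)]) (.n (.l []) (.l [(2, 1)]) (.l [])
  (.l [(2, 1)]) (.l []) (.l [(1, 2), (2, 3)]) (.l []) (.l [(1, 2), (2, 3)])) (.l [(1, 1), (6,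
  4)])) (.l [(1, 1), (4, 2)]) (.n (.l []) (.l [(2, 1)]) (.l []) (.l [(2, 1)]) (.n (.l []) (.l
  [(2, 1)]) (.l []) (.l [(2, 1)]) (.l []) (.l [(1, 2), (2, 3)]) (.l []) (.l [(1, 2), (2, 3)]))
  (.l [(1, 1), (6, 4)]) (.n (.l []) (.l [(2, 1)]) (.l []) (.l [(2, 1)]) (.l []) (.l [(1, 2), (2,
  3)]) (.l []) (.l [(1, 2), (2, 3)])) (.l [(1, 1), (6, 4)])) (.l [(1, 1), (4, 2)]) s35 (.l [(1,
  2), (4, 3)]) (.n (.l [(0, 1), (5, 6), (6, 5)]) (.l [(1, 1), (6, 4)]) (.l [(0, 1), (5, 6), (6,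
  5)]) (.l [(1, 1), (6, 4)]) (.l [(0, 1), (5, 6), (6, 5)]) (.n (.l [(3, 1), (8, 2)]) (.l [(1,
  2), (4, 3)]) (.l [(3, 1), (8, 2)]) (.l [(1, 2), (4, 3)]) (.l [(3, 2), (4, 1), (8, 2)]) (.l
  [(1, 2), (4, 3)]) (.l [(3, 2), (4, 1), (8, 2)]) (.l [(1, 2), (4, 3)])) (.l [(0, 1), (5, 6),
  (6, 5)]) (.n (.l [(3, 1), (8, 2)]) (.l [(1, 2), (4, 3)]) (.l [(3, 1), (8, 2)]) (.l [(1, 2),
  (4, 3)]) (.l [(3, 2), (4, 1), (8, 2)]) (.l [(1, 2), (4, 3)]) (.l [(3, 2), (4, 1), (8, 2)]) (.l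
  [(1, 2), (4, 3)]))) (.l [(1, 2), (4, 3)]))

def s37 : Tr := .n (.l []) (.l [(2, 1)]) (.l []) (.l [(2, 1)]) (.n (.l []) (.l [(2, 1)]) (.l [])
  (.l [(2, 1)]) (.l []) (.l [(1, 2), (2, 3)]) (.l []) (.l [(1, 2), (2, 3)])) (.n (.n (.l [(0,
  1)]) (.l []) (.l []) (.l [(2, 1)]) (.n (.l [(0, 1)]) (.l []) (.l []) (.l [(2, 1)]) (.l []) (.l
  [(1, 2), (2, 3)]) (.l []) (.l [(1, 2), (2, 3)])) (.l [(1, 1), (6, 4)]) (.n (.l []) (.l [(2,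
  1)]) (.l []) (.l [(2, 1)]) (.l []) (.l [(1, 2), (2, 3)]) (.l []) (.l [(1, 2), (2, 3)])) (.l
  [(1, 1), (6, 4)])) (.l [(1, 1), (4, 2)]) (.n (.l []) (.l [(2, 1)]) (.l []) (.l [(2, 1)]) (.n
  (.l []) (.l [(2, 1)]) (.l []) (.l [(2, 1)]) (.l []) (.l [(1, 2), (2, 3)]) (.l []) (.l [(1, 2),
  (2, 3)])) (.l [(1, 1), (6, 4)]) (.n (.l []) (.l [(2, 1)]) (.l []) (.l [(2, 1)]) (.l []) (.l
  [(1, 2), (2, 3)]) (.l []) (.l [(1, 2), (2, 3)])) (.l [(1, 1), (6, 4)])) (.l [(1, 1), (4, 2)])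
  (.n (.l [(0, 1), (5, 2)]) (.l [(1, 1), (6, 4)]) (.l [(0, 1), (5, 10), (6, 10)]) (.l [(1, 1),
  (6, 4)]) (.l [(0, 1), (5, 2)]) (.l [(1, 2), (5, 9), (6, 20)]) (.l [(0, 1), (5, 10), (6, 10)])
  (.l [(1, 2), (5, 9), (6, 20)])) (.l [(1, 2), (4, 3)]) (.n (.l [(0, 1), (5, 5), (6, 3)]) (.l
  [(1, 1), (6, 4)]) (.l [(0, 1), (5, 5), (6, 3)]) (.l [(1, 1), (6, 4)]) (.l [(0, 1), (5, 5), (6,
  3)]) (.l [(1, 2), (5, 9), (6, 20)]) (.l [(0, 1), (5, 5), (6, 3)]) (.l [(1, 2), (5, 9), (6,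
  20)])) (.l [(1, 2), (4, 3)])) (.n (.l []) (.l [(2, 1)]) (.l []) (.l [(2, 1)]) (.l []) (.l [(1,
  2), (2, 3)]) (.l []) (.l [(1, 2), (2, 3)])) (.n (.n (.l []) (.l [(2, 1)]) (.l []) (.l [(2,
  1)]) (.n (.l []) (.l [(2, 1)]) (.l []) (.l [(2, 1)]) (.l []) (.l [(1, 2), (2, 3)]) (.l []) (.l
  [(1, 2), (2, 3)])) (.l [(1, 1), (6, 4)]) (.n (.l []) (.l [(2, 1)]) (.l []) (.l [(2, 1)]) (.l
  []) (.l [(1, 2), (2, 3)]) (.l []) (.l [(1, 2), (2, 3)])) (.l [(1, 1), (6, 4)])) (.l [(1, 1),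
  (4, 2)]) (.n (.l []) (.l [(2, 1)]) (.l []) (.l [(2, 1)]) (.n (.l []) (.l [(2, 1)]) (.l []) (.l
  [(2, 1)]) (.l []) (.l [(1, 2), (2, 3)]) (.l []) (.l [(1, 2), (2, 3)])) (.l [(1, 1), (6, 4)])
  (.n (.l []) (.l [(2, 1)]) (.l []) (.l [(2, 1)]) (.l []) (.l [(1, 2), (2, 3)]) (.l []) (.l [(1,
  2), (2, 3)])) (.l [(1, 1), (6, 4)])) (.l [(1, 1), (4, 2)]) (.n (.l [(0, 1), (5, 5), (6, 3)])
  (.l [(1, 1), (6, 4)]) (.l [(0, 1), (5, 5), (6, 3)]) (.l [(1, 1), (6, 4)]) (.l [(0, 1), (5, 5),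
  (6, 3)]) (.l [(1, 2), (5, 9), (6, 20)]) (.l [(0, 1), (5, 5), (6, 3)]) (.l [(1, 2), (5, 9), (6,
  20)])) (.l [(1, 2), (4, 3)]) (.n (.l [(0, 1), (5, 5), (6, 3)]) (.l [(1, 1), (6, 4)]) (.l [(0,
  1), (5, 5), (6, 3)]) (.l [(1, 1), (6, 4)]) (.l [(0, 1), (5, 5), (6, 3)]) (.l [(1, 2), (5, 9),
  (6, 20)]) (.l [(0, 1), (5, 5), (6, 3)]) (.l [(1, 2), (5, 9), (6, 20)])) (.l [(1, 2), (4, 3)]))

def s38 : Tr := .n s36 (.l [(1, 1), (4, 3)]) s37 (.l [(1, 1), (4, 3)]) (.n (.l [(0, 1), (5, 2)])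
  (.l [(2, 1), (9, 5)]) (.l [(0, 3), (5, 5)]) (.l [(2, 1), (9, 5)]) (.l [(0, 1), (5, 2)]) (.l
  [(2, 1), (9, 5)]) (.l [(0, 3), (5, 5)]) (.l [(2, 1), (9, 5)])) (.n (.l [(3, 1)]) (.l []) (.l
  [(3, 1), (6, 3)]) (.l []) (.l [(3, 1)]) (.l []) (.l [(0, 1), (3, 2), (6, 2)]) (.l [])) (.n (.l
  [(0, 3), (5, 5)]) (.l [(1, 1), (2, 12), (9, 48)]) (.l [(0, 3), (5, 5)]) (.n (.l [(3, 1), (4,
  3), (11, 8)]) (.l [(1, 1), (4, 2)]) (.n (.l []) (.l [(2, 1)]) (.l []) (.l [(2, 1)]) (.l [(0,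
  1), (5, 27), (6, 52), (13, 120)]) (.l [(1, 1), (6, 5)]) (.n (.l []) (.l [(2, 1)]) (.l []) (.l
  [(2, 1)]) (.l []) (.l [(1, 2), (2, 3)]) (.l []) (.l [(1, 2), (2, 3)])) (.l [(1, 1), (6, 5)]))
  (.l [(1, 1), (4, 2)]) (.l [(3, 1), (4, 3), (11, 8)]) (.l [(1, 2), (4, 3)]) (.n (.l [(0, 1),
  (5, 3), (6, 2)]) (.l [(5, 5), (6, 7)]) (.l [(0, 1), (5, 3), (6, 2)]) (.l [(5, 5), (6, 7)]) (.l
  [(0, 1), (5, 3), (6, 2)]) (.l [(5, 5), (6, 7)]) (.l [(0, 1), (5, 3), (6, 2)]) (.l [(5, 5), (6,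
  7)])) (.l [(1, 2), (4, 3)])) (.l [(0, 3), (5, 5)]) (.l [(1, 1), (2, 12), (9, 48)]) (.l [(0,
  3), (5, 5)]) (.n (.l [(3, 1), (4, 3), (11, 8)]) (.l [(1, 2), (4, 3)]) (.n (.l [(0, 2), (5,
  3)]) (.l [(5, 2), (6, 3)]) (.l [(0, 2), (5, 3)]) (.l [(5, 2), (6, 3)]) (.l [(0, 2), (5, 3)])
  (.l [(5, 2), (6, 3)]) (.l [(0, 2), (5, 3)]) (.l [(5, 2), (6, 3)])) (.l [(1, 2), (4, 3)]) (.l
  [(3, 1), (4, 3), (11, 8)]) (.l [(1, 2), (4, 3)]) (.n (.l [(0, 2), (5, 3)]) (.l [(5, 2), (6,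
  3)]) (.l [(0, 2), (5, 3)]) (.l [(5, 2), (6, 3)]) (.l [(0, 2), (5, 3)]) (.l [(5, 2), (6, 3)])
  (.l [(0, 2), (5, 3)]) (.l [(5, 2), (6, 3)])) (.l [(1, 2), (4, 3)]))) (.n (.l [(3, 1), (6, 2)])
  (.l []) (.l [(3, 1), (6, 2)]) (.l []) (.l [(0, 1), (3, 2), (6, 2)]) (.l []) (.l [(0, 1), (3,
  2), (6, 2)]) (.l []))

def s39 : Tr := .n (.l [(1, 1)]) (.l []) (.n .e (.l []) (.l []) (.n (.l [(2, 1)]) (.l []) (.l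
  []) (.l [(4, 1)]) (.n (.l [(0, 1)]) (.l []) (.l []) (.l [(2, 1)]) (.n (.l [(0, 1)]) (.l [])
  (.l []) (.l [(2, 1)]) (.l []) (.l [(1, 1), (2, 1)]) (.l []) (.l [(1, 1), (2, 1)])) (.l [(1,
  1), (6, 5)]) (.n (.l []) (.l [(2, 1)]) (.l []) (.l [(2, 1)]) (.l []) (.l [(1, 1), (2, 1)]) (.l
  []) (.l [(1, 1), (2, 1)])) (.l [(1, 1), (6, 5)])) (.l [(1, 1), (4, 3)]) (.n (.l []) (.l [(2,
  1)]) (.l []) (.l [(2, 1)]) (.n (.l []) (.l [(2, 1)]) (.l []) (.l [(2, 1)]) (.l []) (.l [(1,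
  1), (2, 1)]) (.l []) (.l [(1, 1), (2, 1)])) (.l [(1, 1), (6, 5)]) (.n (.l []) (.l [(2, 1)])
  (.l []) (.l [(2, 1)]) (.l []) (.l [(1, 1), (2, 1)]) (.l []) (.l [(1, 1), (2, 1)])) (.l [(1,
  1), (6, 5)])) (.l [(1, 1), (4, 3)])) (.l [(0, 1), (5, 3)]) (.n (.l [(1, 1)]) (.l []) (.l [(0,
  1), (7, 7)]) (.n (.l [(1, 1)]) (.l []) (.l [(0, 2), (3, 3)]) (.l []) (.l [(3, 1)]) (.l []) (.l
  [(0, 2), (3, 3)]) (.l [])) (.l [(3, 1)]) (.l []) (.l [(0, 1), (7, 7)]) (.n (.l [(3, 1)]) (.l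
  []) (.l [(0, 2), (3, 3)]) (.l []) (.l [(3, 1)]) (.l []) (.l [(0, 2), (3, 3)]) (.l []))) (.n
  (.l []) (.l [(2, 1)]) (.l []) (.l [(2, 1)]) (.l []) (.l [(1, 1), (2, 1), (7, 2)]) (.l []) (.l
  [(1, 1), (2, 2), (7, 2)])) s38) (.n (.l [(1, 1)]) (.l []) (.l [(0, 2), (3, 3)]) (.l []) (.l
  [(3, 1)]) (.l []) (.l [(0, 2), (3, 3)]) (.l [])) (.l [(3, 1)]) (.l []) (.n (.l [(0, 1), (5,
  2)]) (.n (.l [(1, 1)]) (.l []) (.l [(0, 1), (7, 3)]) (.n (.l [(1, 1)]) (.l []) (.l [(0, 2),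
  (3, 3)]) (.l []) (.l [(3, 1)]) (.l []) (.l [(0, 2), (3, 3)]) (.l [])) (.l [(3, 1)]) (.l [])
  (.l [(0, 1), (7, 3)]) (.n (.l [(3, 1)]) (.l []) (.l [(0, 2), (3, 3)]) (.l []) (.l [(3, 1)])
  (.l []) (.l [(0, 2), (3, 3)]) (.l []))) (.l [(0, 2), (5, 3)]) (.n (.l [(0, 1), (7, 3)]) (.l
  [(1, 1), (4, 3)]) (.l [(4, 2), (7, 3)]) (.l [(1, 1), (4, 3)]) (.l [(0, 1), (7, 3)]) (.l [(1,
  1), (4, 7), (7, 7)]) (.l [(4, 2), (7, 3)]) (.l [(1, 1), (4, 7), (7, 7)])) (.l [(0, 1), (5,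
  2)]) (.n (.l [(3, 1)]) (.l []) (.l [(0, 1), (7, 3)]) (.n (.l [(3, 1)]) (.l []) (.l [(0, 2),
  (3, 3)]) (.l []) (.l [(3, 1)]) (.l []) (.l [(0, 1), (9, 4)]) (.l [])) (.l [(3, 1)]) (.l [])
  (.l [(0, 1), (7, 3)]) (.n (.l [(3, 1)]) (.l []) (.l [(0, 1), (9, 4)]) (.l []) (.l [(3, 1)])
  (.l []) (.l [(0, 1), (9, 4)]) (.l []))) (.l [(0, 2), (5, 3)]) (.n (.l [(0, 1), (7, 3)]) (.l
  [(1, 1), (4, 5), (7, 3)]) (.l [(4, 2), (7, 3)]) (.l [(1, 1), (4, 5), (7, 3)]) (.l [(0, 1), (7,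
  3)]) (.l [(1, 1), (4, 5), (7, 3)]) (.l [(4, 2), (7, 3)]) (.l [(1, 1), (4, 5), (7, 3)]))) (.n
  (.l [(3, 1)]) (.l []) (.l [(0, 2), (3, 3)]) (.l []) (.l [(3, 1)]) (.l []) (.l [(0, 2), (3,
  3)]) (.l []))

def tree0 : Tr := s19

def tree1 : Tr := s39

end Pool.Agent.Gap.Data
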