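import Mathlib
import Pool.Agent.Lib_MP_33fb9b_gap.Check

set_option autoImplicit false

/-!
# Soundness of the checker
-/

namespace Pool.Agent.Gap

/-- the current run of steps of the median path to the next index -/
def RunA (S : Strip) (k q : ℕ) : Prop :=
  q ≤ k ∧ (∀ t, t < q → S.med (k - t) = S.med (k - t - 1) + 1) ∧
    (0 < q → S.lo (k - q + 1) ≤ S.med (k - q))

/-- the current run of steps of the median path to the same index -/
def RunB (S : Strip) (k q : ℕ) : Prop :=
  q ≤ k ∧ (∀ t, t < q → S.med (k - t) = S.med (k - t - 1)) ∧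
    (0 < q → S.med (k - q) + 1 ≤ S.hi (k - q + 1))

/-- the state describes the strip at level `k` -/
structure Good (S : Strip) (c : ℝ) (st : St) (k : ℕ) : Prop where
  hk1 : 1 ≤ k
  hkn : k < S.n
  hd : st.d = k
  two : S.lo k < S.hi k
  hN : st.N = tab (S.N k) (S.lo k) (S.hi k - S.lo k + 1)
  hr : S.med k = S.lo k + st.r
  hC : ∀ x ∈ st.C, x.length = S.hi k - S.lo k + 1 ∧ dot x (S.w k) (S.lo k) < c
  hra : RunA S k st.ra
  hrb : RunB S k st.rb

/-- the first three levels are those of the three-element poset `E` -/
def EShape (S : Strip) : Prop :=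
  3 ≤ S.n ∧ S.lo 1 = 0 ∧ S.hi 1 = 1 ∧
    ((S.lo 2 = 0 ∧ S.hi 2 = 1 ∧ S.lo 3 = 1 ∧ S.hi 3 = 1) ∨
     (S.lo 2 = 1 ∧ S.hi 2 = 2 ∧ S.lo 3 = 2 ∧ S.hi 3 = 2))

variable {S : Strip}

theorem T_eq_sum (k m : ℕ) (hk : k ≤ S.n) (hm : m ≤ S.hi k + 1) :
    S.T k m = ∑ i ∈ Finset.Ico m (S.hi k + 1), (S.N k i : ℝ) * S.w k i := by
  have h1 := S.hi_le k hk
  unfold Strip.T
  rw [← Finset.sum_Ico_consecutive _ hm (by omega : S.hi k + 1 ≤ S.n + 2)]
  rw [Finset.sum_eq_zero (s := Finset.Ico (S.hi k + 1) (S.n + 2))]
  · rw [add_zero]; rfl
  · intro i hi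
    rw [Finset.mem_Ico] at hi
    exact S.mass_zero k i (by omega)

theorem sum_low (k : ℕ) (hk : k ≤ S.n) (m : ℕ) (h1 : S.lo k ≤ m) (h2 : m ≤ S.hi k) :
    ∑ i ∈ Finset.Ico (S.lo k) m, (S.N k i : ℝ) * S.w k i = 1 - S.T k m := by
  have h3 : S.T k (S.lo k) = 1 := by
    rw [← S.T_total k hk]
    unfold Strip.T
    have := S.hi_le k hk
    rw [← Finset.sum_Ico_consecutive _ (Nat.zero_le (S.lo k)) (by omega : S.lo k ≤ S.n + 2)]
    rw [Finset.sum_eq_zero (s := Finset.Ico 0 (S.lo k)), zero_add]
    intro i hi
    rw [Finset.mem_Ico] at hi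
    exact S.mass_zero k i (by omega)
  rw [T_eq_sum k m hk (by omega)]
  rw [T_eq_sum k (S.lo k) hk (by omega),
    ← Finset.sum_Ico_consecutive _ h1 (by omega : m ≤ S.hi k + 1)] at h3
  linarith

theorem dot_N_total (k : ℕ) (hk : k ≤ S.n) :
    dot (tab (S.N k) (S.lo k) (S.hi k - S.lo k + 1)) (S.w k) (S.lo k) = 1 := by
  have h0 := S.lohi k hk
  rw [dot_tab]
  have : S.lo k + (S.hi k - S.lo k + 1) = S.hi k + 1 := by omega
  rw [this]
  have h1 := sum_low (S := S) k hk (S.hi k) h0 (le_refl _)
  rw [T_eq_sum k (S.hi k) hk (by omega)] at h1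
  rw [← Finset.sum_Ico_consecutive _ h0 (by omega : S.hi k ≤ S.hi k + 1)]
  linarith

theorem dot_push (k : ℕ) (hk : k < S.n) (x : List ℕ) (hx : x.length = S.hi k - S.lo k + 1)
    (il ih : Bool) (hil : il = decide (S.lo (k + 1) = S.lo k))
    (hih : ih = decide (S.hi (k + 1) = S.hi k + 1)) :
    dot (push il ih x) (S.w (k + 1)) (S.lo (k + 1)) = dot x (S.w k) (S.lo k) := by
  have h0 := S.lohi k hk.le
  have e1 : dot (go 0 x) (S.w (k + 1)) (S.lo k) = dot x (S.w k) (S.lo k) := by
    rw [dot_go]
    rw [dot_congr x (fun i => S.w (k + 1) i + S.w (k + 1) (i + 1)) (S.w k) (S.lo k)]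
    · simp
    · intro i h1 h2
      exact (S.wr k hk i h1 (by omega)).symm
  have hlen : (go 0 x).length = x.length + 1 := length_go 0 x
  have hne : go 0 x ≠ [] := by
    intro h; rw [h] at hlen; simp at hlen
  -- the first trimming
  have e2 : dot (bif il then go 0 x else (go 0 x).tail) (S.w (k + 1)) (S.lo (k + 1)) =
      dot x (S.w k) (S.lo k) ∧
      S.lo (k + 1) + (bif il then go 0 x else (go 0 x).tail).length = S.hi k + 2 := by
    rcases S.loS k hk with h | h
    · have : il = true := by rw [hil]; exact decide_eq_true h
      subst this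
      simp only [cond_true]
      rw [h]
      exact ⟨e1, by omega⟩
    · have : il = false := by rw [hil]; exact decide_eq_false (by omega)
      subst this
      simp only [cond_false]
      rw [h]
      constructor
      · rw [dot_tail _ _ _ (S.wz (k + 1) hk (S.lo k) (by omega)), e1]
      · rw [List.length_tail]; omega
  have hne2 : (bif il then go 0 x else (go 0 x).tail) ≠ [] := by
    intro hcon
    have := e2.2
    rw [hcon] at this
    simp only [List.length_nil] at this
    rcases S.loS k hk with h | h <;> omega
  show dot (bif ih then (bif il then go 0 x else (go 0 x).tail)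
    else (bif il then go 0 x else (go 0 x).tail).dropLast) _ _ = _
  rcases S.hiS k hk with h | h
  · have : ih = false := by rw [hih]; exact decide_eq_false (by omega)
    subst this
    simp only [cond_false]
    rw [dot_dropLast _ _ _ hne2, e2.1]
    have : S.lo (k + 1) + (bif il then go 0 x else (go 0 x).tail).length - 1 = S.hi k + 1 := by
      rw [e2.2]; omega
    rw [this]
    exact S.wz (k + 1) hk _ (by omega)
  · have : ih = true := by rw [hih]; exact decide_eq_true h
    subst this
    simp only [cond_true]
    exact e2.1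

theorem tab_push (k : ℕ) (hk : k < S.n) (il ih : Bool)
    (hil : il = decide (S.lo (k + 1) = S.lo k))
    (hih : ih = decide (S.hi (k + 1) = S.hi k + 1)) :
    push il ih (tab (S.N k) (S.lo k) (S.hi k - S.lo k + 1)) =
      tab (S.N (k + 1)) (S.lo (k + 1)) (S.hi (k + 1) - S.lo (k + 1) + 1) := by
  have h0 := S.lohi k hk.le
  have h00 := S.lohi (k + 1) hk
  have hp : predF (S.N k) (S.lo k) = 0 := by
    rcases Nat.eq_zero_or_pos (S.lo k) with h | h
    · rw [h]; rfl
    · obtain ⟨m, hm⟩ : ∃ m, S.lo k = m + 1 := ⟨S.lo k - 1, by omega⟩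
      rw [hm]
      exact S.N_zero k m (by omega)
  have e1 : go 0 (tab (S.N k) (S.lo k) (S.hi k - S.lo k + 1)) =
      tab (fun i => S.N k i + predF (S.N k) i) (S.lo k) (S.hi k - S.lo k + 1 + 1) := by
    have := tab_go (S.N k) (S.lo k) (S.hi k - S.lo k + 1) (S.N_zero k _ (by omega))
    rw [hp] at this
    exact this
  have e3 : tab (S.N (k + 1)) (S.lo (k + 1)) (S.hi (k + 1) - S.lo (k + 1) + 1) =
      tab (fun i => S.N k i + predF (S.N k) i) (S.lo (k + 1))
        (S.hi (k + 1) - S.lo (k + 1) + 1) := by
    apply tab_congr
    intro i h1 h2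
    show (if _ then _ else _) = _
    rw [if_pos ⟨h1, by omega⟩]
  rw [e3]
  show (bif ih then (bif il then go 0 _ else (go 0 _).tail)
    else (bif il then go 0 _ else (go 0 _).tail).dropLast) = _
  rw [e1]
  have e4 : (bif il then tab (fun i => S.N k i + predF (S.N k) i) (S.lo k)
        (S.hi k - S.lo k + 1 + 1)
      else (tab (fun i => S.N k i + predF (S.N k) i) (S.lo k)
        (S.hi k - S.lo k + 1 + 1)).tail) =
      tab (fun i => S.N k i + predF (S.N k) i) (S.lo (k + 1)) (S.hi k + 2 - S.lo (k + 1)) := by
    rcases S.loS k hk with h | h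
    · have : il = true := by rw [hil]; exact decide_eq_true h
      subst this
      simp only [cond_true]
      rw [h]
      congr 1
      omega
    · have : il = false := by rw [hil]; exact decide_eq_false (by omega)
      subst this
      simp only [cond_false]
      rw [h]
      have : S.hi k + 2 - (S.lo k + 1) = S.hi k - S.lo k + 1 := by omega
      rw [this]
      rfl
  rw [e4]
  rcases S.hiS k hk with h | h
  · have : ih = false := by rw [hih]; exact decide_eq_false (by omega)
    subst this
    simp only [cond_false]
    have h5 : S.hi k + 2 - S.lo (k + 1) = (S.hi (k + 1) - S.lo (k + 1) + 1) + 1 := by omega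
    rw [h5, tab_dropLast]
  · have : ih = true := by rw [hih]; exact decide_eq_true h
    subst this
    simp only [cond_true]
    congr 1
    omega

theorem runA_step (k q : ℕ) (h : RunA S k q) (hm : S.med (k + 1) = S.med k + 1)
    (hlo : S.lo (k + 1) ≤ S.med k) : RunA S (k + 1) (q + 1) := by
  obtain ⟨h1, h2, h3⟩ := h
  refine ⟨by omega, ?_, ?_⟩
  · intro t ht
    cases t with
    | zero => exact hm
    | succ t =>
      have := h2 t (by omega)
      have e1 : k + 1 - (t + 1) = k - t := by omega
      rw [e1]; exact this
  · intro _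
    rcases Nat.eq_zero_or_pos q with hq | hq
    · subst hq
      have e1 : k + 1 - (0 + 1) + 1 = k + 1 := by omega
      have e2 : k + 1 - (0 + 1) = k := by omega
      rw [e1, e2]; exact hlo
    · have := h3 hq
      have e1 : k + 1 - (q + 1) + 1 = k - q + 1 := by omega
      have e2 : k + 1 - (q + 1) = k - q := by omega
      rw [e1, e2]; exact this

theorem runB_step (k q : ℕ) (h : RunB S k q) (hm : S.med (k + 1) = S.med k)
    (hhi : S.med k + 1 ≤ S.hi (k + 1)) : RunB S (k + 1) (q + 1) := by
  obtain ⟨h1, h2, h3⟩ := h
  refine ⟨by omega, ?_, ?_⟩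
  · intro t ht
    cases t with
    | zero => exact hm
    | succ t =>
      have := h2 t (by omega)
      have e1 : k + 1 - (t + 1) = k - t := by omega
      rw [e1]; exact this
  · intro _
    rcases Nat.eq_zero_or_pos q with hq | hq
    · subst hq
      have e1 : k + 1 - (0 + 1) + 1 = k + 1 := by omega
      have e2 : k + 1 - (0 + 1) = k := by omega
      rw [e1, e2]; exact hhi
    · have := h3 hq
      have e1 : k + 1 - (q + 1) + 1 = k - q + 1 := by omega
      have e2 : k + 1 - (q + 1) = k - q := by omega
      rw [e1, e2]; exact this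

theorem runA_zero (k : ℕ) : RunA S k 0 := ⟨Nat.zero_le _, fun t ht => absurd ht (by omega), by omega⟩
theorem runB_zero (k : ℕ) : RunB S k 0 := ⟨Nat.zero_le _, fun t ht => absurd ht (by omega), by omega⟩

theorem runA_three (h : S.Unb (7 / 20)) (k q : ℕ) (hk : k ≤ S.n) (hr : RunA S k q) (hq : 3 ≤ q) :
    False := by
  obtain ⟨h1, h2, h3⟩ := hr
  have a0 := h2 0 (by omega)
  have a1 := h2 1 (by omega)
  have a2 := h2 2 (by omega)
  -- the last three steps
  have hlo : S.lo (k - 3 + 1) ≤ S.med (k - 3) := by
    have b := h3 (by omega)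
    have key : ∀ j, j + 3 ≤ q → S.med (k - q + j) = S.med (k - q) + j := by
      intro j
      induction j with
      | zero => intro _; rfl
      | succ j ih =>
        intro hj
        have c1 := ih (by omega)
        have c2 := h2 (q - j - 1) (by omega)
        have e1 : k - (q - j - 1) = k - q + (j + 1) := by omega
        have e2 : k - (q - j - 1) - 1 = k - q + j := by omega
        rw [e2, e1] at c2
        rw [c2, c1]; ring
    have c := key (q - 3) (by omega)
    have e1 : k - q + (q - 3) = k - 3 := by omega
    rw [e1] at c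
    have d := Strip.lo_add_le (S := S) (k - q + 1) (q - 3) (by omega)
    have e2 : k - q + 1 + (q - 3) = k - 3 + 1 := by omega
    rw [e2] at d
    omega
  have e1 : k - 1 = k - 3 + 2 := by omega
  have e2 : k - 2 = k - 3 + 1 := by omega
  have e3 : k - 0 = k - 3 + 3 := by omega
  have e4 : k - 0 - 1 = k - 3 + 2 := by omega
  have e5 : k - 1 - 1 = k - 3 + 1 := by omega
  have e6 : k - 2 - 1 = k - 3 := by omega
  rw [e4, e3] at a0
  rw [e5, e1] at a1
  rw [e6, e2] at a2
  exact Strip.run_a h (k - 3) (by omega) hlo a2 (by rw [a1, a2]) (by rw [a0, a1, a2])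

theorem runB_three (h : S.Unb (7 / 20)) (k q : ℕ) (hk : k ≤ S.n) (hr : RunB S k q) (hq : 3 ≤ q) :
    False := by
  obtain ⟨h1, h2, h3⟩ := hr
  have a0 := h2 0 (by omega)
  have a1 := h2 1 (by omega)
  have a2 := h2 2 (by omega)
  have hhi : S.med (k - 3) + 1 ≤ S.hi (k - 3 + 1) := by
    have b := h3 (by omega)
    have key : ∀ j, j + 3 ≤ q → S.med (k - q + j) = S.med (k - q) := by
      intro j
      induction j with
      | zero => intro _; rfl
      | succ j ih =>
        intro hj
        have c1 := ih (by omega)
        have c2 := h2 (q - j - 1) (by omega)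
        have e1 : k - (q - j - 1) = k - q + (j + 1) := by omega
        have e2 : k - (q - j - 1) - 1 = k - q + j := by omega
        rw [e2, e1] at c2
        rw [c2, c1]
    have c := key (q - 3) (by omega)
    have e1 : k - q + (q - 3) = k - 3 := by omega
    rw [e1] at c
    have d := Strip.le_hi_add (S := S) (k - q + 1) (q - 3) (by omega)
    have e2 : k - q + 1 + (q - 3) = k - 3 + 1 := by omega
    rw [e2] at d
    omega
  have e1 : k - 1 = k - 3 + 2 := by omega
  have e2 : k - 2 = k - 3 + 1 := by omega
  have e3 : k - 0 = k - 3 + 3 := by omega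
  have e4 : k - 0 - 1 = k - 3 + 2 := by omega
  have e5 : k - 1 - 1 = k - 3 + 1 := by omega
  have e6 : k - 2 - 1 = k - 3 := by omega
  rw [e4, e3] at a0
  rw [e5, e1] at a1
  rw [e6, e2] at a2
  exact Strip.run_b h (k - 3) (by omega) hhi a2 (by rw [a1, a2]) (by rw [a0, a1, a2])

/-- the closing check -/
theorem closing_sound (num den : ℕ) (hden : 0 < den) (h : S.Unb ((num : ℝ) / den))
    (st : St) (k : ℕ) (hg : Good S ((num : ℝ) / den) st k) (t : Tr)
    (hone : S.lo (k + 1) = S.hi (k + 1)) (C' : List (List ℕ)) (N' : List ℕ)
    (hN' : N' = tab (S.N (k + 1)) (S.lo (k + 1)) (S.hi (k + 1) - S.lo (k + 1) + 1))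
    (hC' : ∀ x ∈ C', x.length = N'.length ∧
      dot x (S.w (k + 1)) (S.lo (k + 1)) < (num : ℝ) / den)
    (hcl : closing num den st t C' N' = true) : EShape S := by
  cases t with
  | l lam =>
    exfalso
    apply lamOK_false num den hden lam C' N' (S.w (k + 1)) (S.wn (k + 1)) (S.lo (k + 1)) hC' _ hcl
    rw [hN']
    exact dot_N_total (k + 1) hg.hkn
  | n => simp [closing] at hcl
  | e =>
    have h2 : st.d = 2 ∧ (st.N = [1, 2] ∨ st.N = [2, 1]) := by
      simp only [closing, Bool.and_eq_true, Bool.or_eq_true, Nat.beq_eq, beq_iff_eq] at hcl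
      exact hcl
    obtain ⟨hd, hN⟩ := h2
    have hk : k = 2 := by rw [← hg.hd, hd]
    subst hk
    have hkn := hg.hkn
    have htwo := hg.two
    have hNt := hg.hN
    have l1 := S.loS 0 (by omega)
    have l2 := S.loS 1 (by omega)
    have l3 := S.loS 2 (by omega)
    have m1 := S.hiS 0 (by omega)
    have m2 := S.hiS 1 (by omega)
    have m3 := S.hiS 2 (by omega)
    rw [S.lo0] at l1
    rw [S.hi0] at m1
    simp only [Nat.zero_add, Nat.reduceAdd] at l1 l2 l3 m1 m2 m3 hone
    -- length of the table is two
    have hlen : S.hi 2 - S.lo 2 + 1 = 2 := by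
      have e : st.N.length = 2 := by rcases hN with h | h <;> rw [h] <;> rfl
      rw [hNt, length_tab] at e
      exact e
    -- level one
    have hle1 := S.lohi 1 (by omega)
    have hN1 : ∀ i, S.N 1 i = if S.lo 1 ≤ i ∧ i ≤ S.hi 1 then
        S.N 0 i + predF (S.N 0) i else 0 := fun i => rfl
    have hN2 : ∀ i, S.N 2 i = if S.lo 2 ≤ i ∧ i ≤ S.hi 2 then
        S.N 1 i + predF (S.N 1) i else 0 := fun i => rfl
    have n00 : S.N 0 0 = 1 := rfl
    have n01 : S.N 0 1 = 0 := rfl
    have hlist : tab (S.N 2) (S.lo 2) 2 = [S.N 2 (S.lo 2), S.N 2 (S.lo 2 + 1)] := rfl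
    rw [hlen, hlist] at hNt
    have hone1 : S.lo 1 = 0 ∧ S.hi 1 = 1 := by
      by_contra hcon
      -- then level one has a single node and all counts at level two are at most one
      have hs : S.lo 1 = S.hi 1 := by omega
      have hsum : ∀ i, S.N 2 i ≤ 1 := by
        intro i
        rw [hN2]
        split_ifs with h9
        · have n1 : ∀ j, S.N 1 j ≤ (if j = S.lo 1 then 1 else 0) := by
            intro j
            rw [hN1]
            split_ifs with h10 h11
            · have hj : j = 0 ∨ j = 1 := by omega
              rcases hj with rfl | rfl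
              · have : predF (S.N 0) 0 = 0 := rfl
                rw [n00, this]
              · have : predF (S.N 0) 1 = S.N 0 0 := rfl
                rw [n01, this, n00]
            · omega
            · omega
            · exact le_refl _
          cases i with
          | zero =>
            have := n1 0
            have e : predF (S.N 1) 0 = 0 := rfl
            rw [e]
            split_ifs at this <;> omega
          | succ i =>
            have a := n1 (i + 1)
            have b := n1 i
            have e : predF (S.N 1) (i + 1) = S.N 1 i := rfl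
            rw [e]
            split_ifs at a b <;> omega
        · exact Nat.zero_le _
      have b1 := hsum (S.lo 2)
      have b2 := hsum (S.lo 2 + 1)
      rcases hN with h9 | h9
      · rw [h9] at hNt
        simp only [List.cons.injEq] at hNt
        omega
      · rw [h9] at hNt
        simp only [List.cons.injEq] at hNt
        omega
    refine ⟨by omega, hone1.1, hone1.2, ?_⟩
    omega

/-- soundness of one branch -/
theorem br_sound (num den : ℕ) (hden : 0 < den) (hc : num * 20 ≤ 7 * den)
    (h : S.Unb ((num : ℝ) / den)) (st : St) (k : ℕ) (hg : Good S ((num : ℝ) / den) st k)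
    (il ih : Bool) (hil : il = decide (S.lo (k + 1) = S.lo k))
    (hih : ih = decide (S.hi (k + 1) = S.hi k + 1)) (ta tb : St → Bool) (tc : Tr)
    (hta : ∀ st', Good S ((num : ℝ) / den) st' (k + 1) → ta st' = true → EShape S)
    (htb : ∀ st', Good S ((num : ℝ) / den) st' (k + 1) → tb st' = true → EShape S)
    (hbr : br num den st il ih ta tb tc = true) : EShape S := by
  have hd : (0 : ℝ) < den := by exact_mod_cast hden
  have hc' : (num : ℝ) / den ≤ 7 / 20 := by
    rw [div_le_div_iff₀ hd (by norm_num)]
    exact_mod_cast hc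
  have hhalf : (num : ℝ) / den < 1 / 2 := by linarith [hc', (by norm_num : (7 / 20 : ℝ) < 1 / 2)]
  have h7 : S.Unb (7 / 20) := h.mono hc'
  have hkn := hg.hkn
  have hN' : push il ih st.N =
      tab (S.N (k + 1)) (S.lo (k + 1)) (S.hi (k + 1) - S.lo (k + 1) + 1) := by
    rw [hg.hN]; exact tab_push k hkn il ih hil hih
  have hlen' : (push il ih st.N).length = S.hi (k + 1) - S.lo (k + 1) + 1 := by
    rw [hN', length_tab]
  have hlenN : st.N.length = S.hi k - S.lo k + 1 := by rw [hg.hN, length_tab]
  have h0 := S.lohi (k + 1) hkn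
  have hC' : ∀ x ∈ st.C.map (push il ih), x.length = S.hi (k + 1) - S.lo (k + 1) + 1 ∧
      dot x (S.w (k + 1)) (S.lo (k + 1)) < (num : ℝ) / den := by
    intro x hx
    rw [List.mem_map] at hx
    obtain ⟨y, hy, rfl⟩ := hx
    obtain ⟨h1, h2⟩ := hg.hC y hy
    constructor
    · have hyne : y ≠ [] := by intro hcon; rw [hcon] at h1; simp at h1
      rw [length_push il ih y hyne, h1]
      have hNne : st.N ≠ [] := by intro hcon; rw [hcon] at hlenN; simp at hlenN
      rw [length_push il ih st.N hNne, hlenN] at hlen'
      exact hlen'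
    · rw [dot_push k hkn y h1 il ih hil hih]
      exact h2
  unfold br at hbr
  simp only at hbr
  rw [if_neg (by rw [hlen']; omega)] at hbr
  by_cases hone : (push il ih st.N).length = 1
  · rw [if_pos hone] at hbr
    apply closing_sound num den hden h st k hg tc (by omega) _ _ hN' _ hbr
    intro x hx
    rw [hlen']
    exact hC' x hx
  · rw [if_neg hone, Bool.and_eq_true] at hbr
    have hnn : k + 1 < S.n := by
      by_contra hcon
      have : k + 1 = S.n := by omega
      have := S.lon
      rw [← ‹k + 1 = S.n›] at this
      omega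
    have hup := h.up hhalf (k + 1) hkn
    have hdn := h.dn hhalf (k + 1) hkn
    have hmem := h.med_mem hhalf (k + 1) hkn
    have hilr : (bif il then 1 else 0) + S.lo (k + 1) = S.lo k + 1 := by
      rcases S.loS k hkn with h1 | h1
      · have : il = true := by rw [hil]; exact decide_eq_true h1
        rw [this, h1]; simp only [cond_true]; omega
      · have : il = false := by rw [hil]; exact decide_eq_false (by omega)
        rw [this, h1]; simp only [cond_false]; omega
    -- the new constraints
    have hnew : ∀ r', S.med (k + 1) = S.lo (k + 1) + r' →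
        ∀ x ∈ maskUp r' (push il ih st.N) :: maskDn r' (push il ih st.N) ::
          st.C.map (push il ih), x.length = S.hi (k + 1) - S.lo (k + 1) + 1 ∧
          dot x (S.w (k + 1)) (S.lo (k + 1)) < (num : ℝ) / den := by
      intro r' hr' x hx
      have hrlt : r' < S.hi (k + 1) - S.lo (k + 1) + 1 := by omega
      rw [List.mem_cons, List.mem_cons] at hx
      rcases hx with rfl | rfl | hx
      · constructor
        · rw [length_maskUp, hlen']
        · rw [hN', dot_maskUp_tab _ _ _ _ _ hrlt]
          have e1 : S.lo (k + 1) + (S.hi (k + 1) - S.lo (k + 1) + 1) = S.hi (k + 1) + 1 := by omega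
          rw [e1, ← hr', ← T_eq_sum (k + 1) _ hkn (by omega)]
          exact hup
      · constructor
        · rw [length_maskDn, hlen']
        · rw [hN', dot_maskDn_tab _ _ _ _ _ hrlt, ← hr', sum_low (k + 1) hkn _ hmem.1 hmem.2]
          linarith
      · exact hC' x hx
    rcases h.med_step hhalf k hkn with hm | hm
    · -- same index
      have hr := hg.hr
      have hr' : S.med (k + 1) = S.lo (k + 1) + (st.r + (bif il then 1 else 0) - 1) := by omega
      have hB := hbr.1
      have hrb : RunB S (k + 1) (if ih = true ∨ st.r + 1 < st.N.length then st.rb + 1 else 0) := by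
        split_ifs with hcond
        · apply runB_step k _ hg.hrb hm
          rcases hcond with h1 | h1
          · rw [hih] at h1
            have := of_decide_eq_true h1
            have h4 := h.med_mem hhalf k hkn.le
            omega
          · rw [hlenN] at h1
            have h5 := S.hiS k hkn
            omega
        · exact runB_zero _
      have hcond : ¬ (st.r + (bif il then 1 else 0) = 0 ∨
          (push il ih st.N).length ≤ st.r + (bif il then 1 else 0) - 1 ∨
          3 ≤ (if ih = true ∨ st.r + 1 < st.N.length then st.rb + 1 else 0)) := by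
        rintro (h1 | h1 | h1)
        · omega
        · rw [hlen'] at h1; omega
        · exact runB_three h7 (k + 1) _ hkn hrb h1
      rw [if_neg hcond] at hB
      refine hta _ ?_ hB
      exact
        { hk1 := by omega
          hkn := hnn
          hd := by show st.d + 1 = k + 1; rw [hg.hd]
          two := by omega
          hN := hN'
          hr := hr'
          hC := hnew _ hr'
          hra := runA_zero _
          hrb := hrb }
    · have hr := hg.hr
      have hr' : S.med (k + 1) = S.lo (k + 1) + (st.r + (bif il then 1 else 0)) := by omega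
      have hA := hbr.2
      have hra : RunA S (k + 1) (if il = true ∨ 1 ≤ st.r then st.ra + 1 else 0) := by
        split_ifs with hcond
        · apply runA_step k _ hg.hra hm
          rcases hcond with h1 | h1
          · rw [h1] at hilr
            simp only [cond_true] at hilr
            omega
          · have h5 := S.loS k hkn
            omega
        · exact runA_zero _
      have hcond : ¬ ((push il ih st.N).length ≤ st.r + (bif il then 1 else 0) ∨
          3 ≤ (if il = true ∨ 1 ≤ st.r then st.ra + 1 else 0)) := by
        rintro (h1 | h1)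
        · rw [hlen'] at h1; omega
        · exact runA_three h7 (k + 1) _ hkn hra h1
      rw [if_neg hcond] at hA
      refine htb _ ?_ hA
      exact
        { hk1 := by omega
          hkn := hnn
          hd := by show st.d + 1 = k + 1; rw [hg.hd]
          two := by omega
          hN := hN'
          hr := hr'
          hC := hnew _ hr'
          hra := hra
          hrb := runB_zero _ }

/-- soundness of the checker -/
theorem sound (num den : ℕ) (hden : 0 < den) (hc : num * 20 ≤ 7 * den)
    (h : S.Unb ((num : ℝ) / den)) (t : Tr) : ∀ (st : St) (k : ℕ),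
    Good S ((num : ℝ) / den) st k → check num den t st = true → EShape S := by
  induction t with
  | l lam =>
    intro st k hg hch
    exfalso
    apply lamOK_false num den hden lam st.C st.N (S.w k) (S.wn k) (S.lo k) _ _ hch
    · intro x hx
      rw [hg.hN, length_tab]
      exact hg.hC x hx
    · rw [hg.hN]
      exact dot_N_total k hg.hkn.le
  | e =>
    intro st k hg hch
    simp [check] at hch
  | n t0 t1 t2 t3 t4 t5 t6 t7 i0 i1 i2 i3 i4 i5 i6 i7 =>
    intro st k hg hch
    simp only [check, Bool.and_eq_true] at hch
    obtain ⟨c0, c1, c2, c3⟩ := hch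
    have hkn := hg.hkn
    rcases hil : decide (S.lo (k + 1) = S.lo k) with _ | _
    · rcases hih : decide (S.hi (k + 1) = S.hi k + 1) with _ | _
      · exact br_sound num den hden hc h st k hg false false hil.symm hih.symm _ _ _
          (fun st' hg' hc' => i0 st' (k + 1) hg' hc') (fun st' hg' hc' => i1 st' (k + 1) hg' hc') c0
      · exact br_sound num den hden hc h st k hg false true hil.symm hih.symm _ _ _
          (fun st' hg' hc' => i2 st' (k + 1) hg' hc') (fun st' hg' hc' => i3 st' (k + 1) hg' hc') c1
    · rcases hih : decide (S.hi (k + 1) = S.hi k + 1) with _ | _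
      · exact br_sound num den hden hc h st k hg true false hil.symm hih.symm _ _ _
          (fun st' hg' hc' => i4 st' (k + 1) hg' hc') (fun st' hg' hc' => i5 st' (k + 1) hg' hc') c2
      · exact br_sound num den hden hc h st k hg true true hil.symm hih.symm _ _ _
          (fun st' hg' hc' => i6 st' (k + 1) hg' hc') (fun st' hg' hc' => i7 st' (k + 1) hg' hc') c3

/-- the initial states -/
def root0 : St := { d := 1, N := [1, 1], C := [[0, 1], [0, 0]], r := 0, ra := 0, rb := 1 }
def root1 : St := { d := 1, N := [1, 1], C := [[0, 0], [1, 0]], r := 1, ra := 1, rb := 0 }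

/-- the conclusion for a strip whose first level has two nodes -/
theorem strip_main (num den : ℕ) (hden : 0 < den) (hc : num * 20 ≤ 7 * den)
    (t0 t1 : Tr) (h0 : check num den t0 root0 = true) (h1 : check num den t1 root1 = true)
    (h : S.Unb ((num : ℝ) / den)) (hlo1 : S.lo 1 = 0) (hhi1 : S.hi 1 = 1) : EShape S := by
  have hd : (0 : ℝ) < den := by exact_mod_cast hden
  have hc' : (num : ℝ) / den ≤ 7 / 20 := by
    rw [div_le_div_iff₀ hd (by norm_num)]
    exact_mod_cast hc
  have hhalf : (num : ℝ) / den < 1 / 2 := by linarith [hc', (by norm_num : (7 / 20 : ℝ) < 1 / 2)]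
  have hnpos := S.npos
  have hn : 1 < S.n := by
    by_contra hcon
    have h2 : S.n = 1 := by omega
    have := S.lon
    rw [h2] at this
    omega
  have hN : ([1, 1] : List ℕ) = tab (S.N 1) (S.lo 1) (S.hi 1 - S.lo 1 + 1) := by
    rw [hlo1, hhi1]
    have n10 : S.N 1 0 = 1 := by
      show (if S.lo 1 ≤ 0 ∧ 0 ≤ S.hi 1 then S.N 0 0 + predF (S.N 0) 0 else 0) = 1
      rw [hlo1, hhi1]; rfl
    have n11 : S.N 1 1 = 1 := by
      show (if S.lo 1 ≤ 1 ∧ 1 ≤ S.hi 1 then S.N 0 1 + predF (S.N 0) 1 else 0) = 1
      rw [hlo1, hhi1]; rfl
    show [1, 1] = [S.N 1 0, S.N 1 (0 + 1)]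
    rw [n10, n11]
  have hup := h.up hhalf 1 hn.le
  have hdn := h.dn hhalf 1 hn.le
  have hmem := h.med_mem hhalf 1 hn.le
  have hmed0 : S.med 0 = 0 := by
    have := h.med_mem hhalf 0 (Nat.zero_le _)
    rw [S.lo0, S.hi0] at this
    omega
  have hw : dot [1, 1] (S.w 1) 0 = 1 := by
    have := dot_N_total (S := S) 1 hn.le
    rw [← hN, hlo1] at this
    exact this
  rw [hlo1, hhi1] at hmem
  have hT1 : S.T 1 1 = S.w 1 1 := by
    rw [T_eq_sum 1 1 hn.le (by omega), hhi1]
    have n11 : S.N 1 1 = 1 := by
      show (if S.lo 1 ≤ 1 ∧ 1 ≤ S.hi 1 then S.N 0 1 + predF (S.N 0) 1 else 0) = 1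
      rw [hlo1, hhi1]; rfl
    simp [n11]
  have hw' : S.w 1 0 + S.w 1 1 = 1 := by
    have := hw
    simp only [dot] at this
    norm_num at this
    exact this
  have hmm : S.med 1 = 0 ∨ S.med 1 = 1 := by omega
  rcases hmm with hm | hm
  · apply sound num den hden hc h t0 root0 1 _ h0
    rw [hm] at hup hdn
    have e : (0 : ℕ) + 1 = 1 := rfl
    rw [e, hT1] at hup
    exact
      { hk1 := le_refl _
        hkn := hn
        hd := rfl
        two := by omega
        hN := hN
        hr := by rw [hm, hlo1]; rfl
        hC := by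
          intro x hx
          rw [hlo1, hhi1]
          have hx' : x = [0, 1] ∨ x = [0, 0] := by simpa [root0] using hx
          rcases hx' with rfl | rfl
          · refine ⟨rfl, ?_⟩
            simp only [dot]
            norm_num
            exact hup
          · refine ⟨rfl, ?_⟩
            simp only [dot]
            norm_num
            have := S.wn 1 1
            linarith
        hra := runA_zero _
        hrb := by
          refine ⟨le_refl _, ?_, ?_⟩
          · intro t ht
            have : t = 0 := by
              have : t < 1 := ht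
              omega
            subst this
            show S.med 1 = S.med 0
            rw [hm, hmed0]
          · intro _
            show S.med 0 + 1 ≤ S.hi 1
            rw [hmed0, hhi1] }
  · apply sound num den hden hc h t1 root1 1 _ h1
    rw [hm] at hup hdn
    rw [hT1] at hdn
    exact
      { hk1 := le_refl _
        hkn := hn
        hd := rfl
        two := by omega
        hN := hN
        hr := by rw [hm, hlo1]; rfl
        hC := by
          intro x hx
          rw [hlo1, hhi1]
          have hx' : x = [0, 0] ∨ x = [1, 0] := by simpa [root1] using hx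
          rcases hx' with rfl | rfl
          · refine ⟨rfl, ?_⟩
            simp only [dot]
            norm_num
            have := S.wn 1 0
            linarith
          · refine ⟨rfl, ?_⟩
            simp only [dot]
            norm_num
            linarith
        hra := by
          refine ⟨le_refl _, ?_, ?_⟩
          · intro t ht
            have : t = 0 := by
              have : t < 1 := ht
              omega
            subst this
            show S.med 1 = S.med 0 + 1
            rw [hm, hmed0]
          · intro _
            show S.lo 1 ≤ S.med 0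
            rw [hmed0, hlo1]
        hrb := runB_zero _ }

end Pool.Agent.Gap
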