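import Mathlib
import Pool.Agent.Lib_MP_33fb9b_gap.Sound
import Pool.Agent.Lib_MP_33fb9b_gap.Data

set_option autoImplicit false

/-!
# Evaluation of the certificates in the kernel
-/

namespace Pool.Agent.Gap

theorem eval0 : check 348842372 1000000000 Data.tree0 root0 = true := by decide +kernel

theorem eval1 : check 348842372 1000000000 Data.tree1 root1 = true := by decide +kernel

end Pool.Agent.Gap
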