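import Mathlib
import Pool.Agent.Lib_MP_33fb9b_gap.Strip

set_option autoImplicit false

/-!
# Building a strip from a system of nodes
-/

namespace Pool.Agent.Gap

open Classical

/-- a system of nodes -/
structure NodeSys where
  M : ℕ
  Node : ℕ → ℕ → Prop
  Mpos : 0 < M
  n0 : Node 0 0
  bd : ∀ k i, Node k i → i ≤ k
  succ : ∀ k i, k < M → Node k i → Node (k + 1) i ∨ Node (k + 1) (i + 1)
  pred : ∀ k i, k < M → Node (k + 1) i → Node k i ∨ ∃ i', i = i' + 1 ∧ Node k i'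
  mid : ∀ k i t i', Node k i → Node k i' → i ≤ t → t ≤ i' → Node k t
  last : ∀ i i', Node M i → Node M i' → i = i'
  W : ℕ → ℕ → ℝ
  Wn : ∀ k i, 0 ≤ W k i
  W0 : W 0 0 = 1
  Wr : ∀ k i, k < M → Node k i →
    W k i = (if Node (k + 1) i then W (k + 1) i else 0) +
      (if Node (k + 1) (i + 1) then W (k + 1) (i + 1) else 0)

namespace NodeSys

variable (Q : NodeSys)

theorem ex (k : ℕ) (hk : k ≤ Q.M) : ∃ i, Q.Node k i := by
  induction k with
  | zero => exact ⟨0, Q.n0⟩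
  | succ k ih =>
    obtain ⟨i, hi⟩ := ih (by omega)
    rcases Q.succ k i (by omega) hi with h | h
    · exact ⟨_, h⟩
    · exact ⟨_, h⟩

noncomputable def lo (k : ℕ) : ℕ := sInf {i | Q.Node k i}
noncomputable def hi (k : ℕ) : ℕ := Nat.findGreatest (fun i => Q.Node k i) k

theorem node_lo (k : ℕ) (hk : k ≤ Q.M) : Q.Node k (Q.lo k) := Nat.sInf_mem (Q.ex k hk)

theorem lo_le (k i : ℕ) (h : Q.Node k i) : Q.lo k ≤ i := Nat.sInf_le h

theorem node_hi (k : ℕ) (hk : k ≤ Q.M) : Q.Node k (Q.hi k) := by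
  obtain ⟨i, h⟩ := Q.ex k hk
  exact Nat.findGreatest_spec (P := fun i => Q.Node k i) (Q.bd k i h) h

theorem le_hi (k i : ℕ) (h : Q.Node k i) : i ≤ Q.hi k :=
  Nat.le_findGreatest (P := fun i => Q.Node k i) (Q.bd k i h) h

theorem node_iff (k i : ℕ) (hk : k ≤ Q.M) : Q.Node k i ↔ Q.lo k ≤ i ∧ i ≤ Q.hi k :=
  ⟨fun h => ⟨Q.lo_le k i h, Q.le_hi k i h⟩,
    fun h => Q.mid k (Q.lo k) i (Q.hi k) (Q.node_lo k hk) (Q.node_hi k hk) h.1 h.2⟩

theorem loS (k : ℕ) (hk : k < Q.M) : Q.lo (k + 1) = Q.lo k ∨ Q.lo (k + 1) = Q.lo k + 1 := by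
  have h1 : Q.lo (k + 1) ≤ Q.lo k + 1 := by
    rcases Q.succ k _ hk (Q.node_lo k hk.le) with h | h
    · exact (Q.lo_le _ _ h).trans (by omega)
    · exact Q.lo_le _ _ h
  have h2 : Q.lo k ≤ Q.lo (k + 1) := by
    rcases Q.pred k _ hk (Q.node_lo (k + 1) hk) with h | ⟨i', h3, h⟩
    · exact Q.lo_le _ _ h
    · have := Q.lo_le _ _ h
      omega
  omega

theorem hiS (k : ℕ) (hk : k < Q.M) : Q.hi (k + 1) = Q.hi k ∨ Q.hi (k + 1) = Q.hi k + 1 := by
  have h1 : Q.hi (k + 1) ≤ Q.hi k + 1 := by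
    rcases Q.pred k _ hk (Q.node_hi (k + 1) hk) with h | ⟨i', h3, h⟩
    · exact (Q.le_hi _ _ h).trans (by omega)
    · have := Q.le_hi _ _ h
      omega
  have h2 : Q.hi k ≤ Q.hi (k + 1) := by
    rcases Q.succ k _ hk (Q.node_hi k hk.le) with h | h
    · exact Q.le_hi _ _ h
    · have := Q.le_hi _ _ h
      omega
  omega

theorem lo0 : Q.lo 0 = 0 := Nat.le_zero.mp (Q.lo_le 0 0 Q.n0)

theorem hi0 : Q.hi 0 = 0 := by
  have := Q.bd 0 _ (Q.node_hi 0 (Nat.zero_le _))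
  omega

/-- the strip of the system -/
noncomputable def strip : Strip where
  n := Q.M
  lo := Q.lo
  hi := Q.hi
  w := fun k i => if k ≤ Q.M ∧ Q.Node k i then Q.W k i else 0
  npos := Q.Mpos
  lohi := fun k hk => Q.lo_le k _ (Q.node_hi k hk)
  loS := Q.loS
  hiS := Q.hiS
  wz := by
    intro k hk i h
    rw [if_neg]
    rintro ⟨_, h2⟩
    rw [Q.node_iff k i hk] at h2
    omega
  wr := by
    intro k hk i h1 h2
    have hn : Q.Node k i := (Q.node_iff k i hk.le).mpr ⟨h1, h2⟩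
    have hk1 : k + 1 ≤ Q.M := hk
    simp only [hk.le, hn, hk1, true_and, and_self, if_true]
    exact Q.Wr k i hk hn
  wn := by
    intro k i
    split_ifs
    · exact Q.Wn k i
    · exact le_refl _
  lo0 := Q.lo0
  hi0 := Q.hi0
  w0 := by
    rw [if_pos ⟨Nat.zero_le _, Q.n0⟩, Q.W0]
  lon := Q.last _ _ (Q.node_lo _ (le_refl _)) (Q.node_hi _ (le_refl _))

end NodeSys

end Pool.Agent.Gap
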