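import Mathlib
import Pool.Agent.Lib_MP_33fb9b_gap.NodeSys
import Pool.Agent.Lib_MP_33fb9b_co.Bridge

set_option autoImplicit false

/-!
# The ideals of a poset covered by two chains, and the tail masses of its strip
-/

namespace Pool.Agent.Gap

open Classical Pool.Agent.Lib_MP_33fb9b_co

/-- a strict order on two chains -/
structure TwoCh {m n : ℕ} (r : C m n → C m n → Prop) : Prop where
  irr : ∀ x, ¬ r x x
  tr : ∀ x y z, r x y → r y z → r x z
  aa : ∀ a a' : Fin m, a < a' → r (Sum.inl a) (Sum.inl a')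
  bb : ∀ b b' : Fin n, b < b' → r (Sum.inr b) (Sum.inr b')

section

variable {m n : ℕ} (r : C m n → C m n → Prop)

noncomputable def tA (i k : ℕ) : Bool :=
  decide (∃ h : i < m, ∀ y, Rem i k y → ¬ r y (Sum.inl ⟨i, h⟩))

noncomputable def tB (i k : ℕ) : Bool :=
  decide (∃ h : k < n, ∀ y, Rem i k y → ¬ r y (Sum.inr ⟨k, h⟩))

/-- the relation with one more pair -/
def radd (p : Fin m) (q : Fin n) (x y : C m n) : Prop :=
  r x y ∨ (x = Sum.inl p ∧ y = Sum.inr q)

noncomputable def tB1 (p : Fin m) (q : Fin n) (i k : ℕ) : Bool :=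
  tB r i k && !(decide (i ≤ p.val ∧ k = q.val))

/-- the state `(i, j)` is an ideal -/
def Id (i j : ℕ) : Prop := i ≤ m ∧ j ≤ n ∧ ∀ x y : C m n, Rem i j x → r x y → Rem i j y

variable {r}

theorem TwoCh.asymm (h : TwoCh r) (x y : C m n) (hxy : r x y) : ¬ r y x :=
  fun hyx => h.irr x (h.tr x y x hxy hyx)

theorem TwoCh.aa_iff (h : TwoCh r) (a a' : Fin m) : r (Sum.inl a) (Sum.inl a') ↔ a < a' := by
  constructor
  · intro hr
    rcases lt_trichotomy a a' with h1 | h1 | h1
    · exact h1
    · rw [h1] at hr; exact absurd hr (h.irr _)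
    · exact absurd hr (h.asymm _ _ (h.aa _ _ h1))
  · exact h.aa a a'

theorem TwoCh.bb_iff (h : TwoCh r) (a a' : Fin n) : r (Sum.inr a) (Sum.inr a') ↔ a < a' := by
  constructor
  · intro hr
    rcases lt_trichotomy a a' with h1 | h1 | h1
    · exact h1
    · rw [h1] at hr; exact absurd hr (h.irr _)
    · exact absurd hr (h.asymm _ _ (h.bb _ _ h1))
  · exact h.bb a a'

theorem compat_r (h : TwoCh r) : Compat r (tA r) (tB r) where
  irr := h.irr
  aa := h.aa
  bb := h.bb
  A_iff := by
    intro a k _
    simp [tA]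
  B_iff := by
    intro i b _
    simp [tB]

theorem compat_radd (h : TwoCh r) (p : Fin m) (q : Fin n) :
    Compat (radd r p q) (tA r) (tB1 r p q) where
  irr := by
    rintro x (hx | ⟨h1, h2⟩)
    · exact h.irr x hx
    · rw [h1] at h2; simp at h2
  aa := fun a a' ha => Or.inl (h.aa a a' ha)
  bb := fun b b' hb => Or.inl (h.bb b b' hb)
  A_iff := by
    intro a k _
    simp [tA, radd]
  B_iff := by
    intro i b _
    simp only [tB1, tB, radd, Bool.and_eq_true, decide_eq_true_eq, Bool.not_eq_true',
      decide_eq_false_iff_not, not_and, not_or]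
    constructor
    · rintro ⟨⟨_, h1⟩, h2⟩ y hy
      refine ⟨h1 y hy, ?_⟩
      intro h3 h4
      rw [h3] at hy
      have h5 : b = q := Sum.inr_injective h4
      exact h2 hy (by rw [h5])
    · intro h1
      refine ⟨⟨b.2, fun y hy => (h1 y hy).1⟩, ?_⟩
      intro h2 h3
      exact (h1 (Sum.inl p) h2).2 rfl (by rw [Fin.ext h3])

theorem rem_succ_inl {i k : ℕ} {x : C m n} (h : Rem (i + 1) k x) : Rem i k x := by
  cases x with
  | inl a => exact Nat.le_of_succ_le h
  | inr b => exact h

theorem rem_succ_inr {i k : ℕ} {x : C m n} (h : Rem i (k + 1) x) : Rem i k x := by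
  cases x with
  | inl a => exact h
  | inr b => exact Nat.le_of_succ_le h

theorem rem_cases_inl {i k : ℕ} {x : C m n} (h : Rem i k x) (hi : i < m) :
    x = Sum.inl ⟨i, hi⟩ ∨ Rem (i + 1) k x := by
  cases x with
  | inl a =>
    have h1 : i ≤ a.val := h
    rcases h1.eq_or_lt with h2 | h2
    · left; congr 1; exact Fin.ext h2.symm
    · right; exact h2
  | inr b => right; exact h

theorem rem_cases_inr {i k : ℕ} {x : C m n} (h : Rem i k x) (hk : k < n) :
    x = Sum.inr ⟨k, hk⟩ ∨ Rem i (k + 1) x := by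
  cases x with
  | inl a => right; exact h
  | inr b =>
    have h1 : k ≤ b.val := h
    rcases h1.eq_or_lt with h2 | h2
    · left; congr 1; exact Fin.ext h2.symm
    · right; exact h2

theorem succA (h : TwoCh r) (i k : ℕ) (hid : Id r i k) (hi : i < m) :
    tA r i k = true ↔ Id r (i + 1) k := by
  simp only [tA, decide_eq_true_eq]
  constructor
  · rintro ⟨_, h1⟩
    refine ⟨hi, hid.2.1, ?_⟩
    intro x y hx hxy
    have h2 := hid.2.2 x y (rem_succ_inl hx) hxy
    rcases rem_cases_inl h2 hi with h3 | h3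
    · rw [h3] at hxy
      exact absurd hxy (h1 x (rem_succ_inl hx))
    · exact h3
  · intro h1
    refine ⟨hi, ?_⟩
    intro y hy hr
    rcases rem_cases_inl hy hi with h3 | h3
    · rw [h3] at hr; exact h.irr _ hr
    · have h4 : i + 1 ≤ i := h1.2.2 y _ h3 hr
      omega

theorem succB (h : TwoCh r) (i k : ℕ) (hid : Id r i k) (hk : k < n) :
    tB r i k = true ↔ Id r i (k + 1) := by
  simp only [tB, decide_eq_true_eq]
  constructor
  · rintro ⟨_, h1⟩
    refine ⟨hid.1, hk, ?_⟩
    intro x y hx hxy
    have h2 := hid.2.2 x y (rem_succ_inr hx) hxy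
    rcases rem_cases_inr h2 hk with h3 | h3
    · rw [h3] at hxy
      exact absurd hxy (h1 x (rem_succ_inr hx))
    · exact h3
  · intro h1
    refine ⟨hk, ?_⟩
    intro y hy hr
    rcases rem_cases_inr hy hk with h3 | h3
    · rw [h3] at hr; exact h.irr _ hr
    · have h4 : k + 1 ≤ k := h1.2.2 y _ h3 hr
      omega

theorem ex_succ (h : TwoCh r) (i k : ℕ) (hid : Id r i k) (hlt : i < m ∨ k < n) :
    (i < m ∧ Id r (i + 1) k) ∨ (k < n ∧ Id r i (k + 1)) := by
  by_cases hA : i < m ∧ Id r (i + 1) k
  · left; exact hA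
  right
  -- the next element of the second chain exists
  have hk : k < n ∧ ∀ hk : k < n, ∀ a : Fin m, i ≤ a.val → ¬ r (Sum.inl a) (Sum.inr ⟨k, hk⟩) := by
    by_cases hi : i < m
    · have h1 : ¬ tA r i k = true := fun hc => hA ⟨hi, (succA h i k hid hi).mp hc⟩
      simp only [tA, decide_eq_true_eq] at h1
      push Not at h1
      obtain ⟨y, hy, hr⟩ := h1 hi
      cases y with
      | inl a' =>
        have h2 : i ≤ a'.val := hy
        rw [h.aa_iff] at hr
        have h3 : a'.val < i := hr
        omega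
      | inr b =>
        have h2 : k ≤ b.val := hy
        refine ⟨by have := b.2; omega, ?_⟩
        intro hk a ha hr2
        have h3 : r (Sum.inr ⟨k, hk⟩) (Sum.inl ⟨i, hi⟩) := by
          rcases h2.eq_or_lt with h4 | h4
          · have : (⟨k, hk⟩ : Fin n) = b := Fin.ext h4
            rw [this]; exact hr
          · exact h.tr _ _ _ (h.bb _ _ h4) hr
        have h5 := h.tr _ _ _ hr2 h3
        rw [h.aa_iff] at h5
        have h6 : a.val < i := h5
        omega
    · refine ⟨hlt.resolve_left hi, ?_⟩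
      intro _ a ha
      have := a.2
      omega
  refine ⟨hk.1, (succB h i k hid hk.1).mp ?_⟩
  simp only [tB, decide_eq_true_eq]
  refine ⟨hk.1, ?_⟩
  intro y hy hr
  cases y with
  | inl a => exact hk.2 hk.1 a hy hr
  | inr b =>
    have h2 : k ≤ b.val := hy
    rw [h.bb_iff] at hr
    have h3 : b.val < k := hr
    omega

theorem ex_pred (h : TwoCh r) (i k : ℕ) (hid : Id r i k) (hpos : 0 < i + k) :
    (∃ i', i = i' + 1 ∧ Id r i' k) ∨ (∃ k', k = k' + 1 ∧ Id r i k') := by
  have hA : ∀ i', i = i' + 1 → (∀ (hi : i' < m) (b : Fin n), b.val < k →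
      ¬ r (Sum.inl ⟨i', hi⟩) (Sum.inr b)) → Id r i' k := by
    intro i' hi' hno
    subst hi'
    have him : i' < m := hid.1
    refine ⟨him.le, hid.2.1, ?_⟩
    intro x y hx hxy
    rcases rem_cases_inl hx him with h1 | h1
    · rw [h1] at hxy
      cases y with
      | inl a =>
        rw [h.aa_iff] at hxy
        exact le_of_lt hxy
      | inr b =>
        by_contra hcon
        exact hno him b (not_le.mp hcon) hxy
    · exact rem_succ_inl (hid.2.2 x y h1 hxy)
  have hB : ∀ k', k = k' + 1 → (∀ (hk : k' < n) (a : Fin m), a.val < i →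
      ¬ r (Sum.inr ⟨k', hk⟩) (Sum.inl a)) → Id r i k' := by
    intro k' hk' hno
    subst hk'
    have hkn : k' < n := hid.2.1
    refine ⟨hid.1, hkn.le, ?_⟩
    intro x y hx hxy
    rcases rem_cases_inr hx hkn with h1 | h1
    · rw [h1] at hxy
      cases y with
      | inr a =>
        rw [h.bb_iff] at hxy
        exact le_of_lt hxy
      | inl b =>
        by_contra hcon
        exact hno hkn b (not_le.mp hcon) hxy
    · exact rem_succ_inr (hid.2.2 x y h1 hxy)
  rcases Nat.eq_zero_or_pos i with hi | hi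
  · obtain ⟨k', hk'⟩ : ∃ k', k = k' + 1 := ⟨k - 1, by omega⟩
    right
    exact ⟨k', hk', hB k' hk' (fun _ a ha => by omega)⟩
  · obtain ⟨i', hi'⟩ : ∃ i', i = i' + 1 := ⟨i - 1, by omega⟩
    rcases Nat.eq_zero_or_pos k with hk | hk
    · left
      exact ⟨i', hi', hA i' hi' (fun _ b hb => by omega)⟩
    · obtain ⟨k', hk'⟩ : ∃ k', k = k' + 1 := ⟨k - 1, by omega⟩
      by_cases hbad : ∀ (hi : i' < m) (b : Fin n), b.val < k →
          ¬ r (Sum.inl ⟨i', hi⟩) (Sum.inr b)
      · left; exact ⟨i', hi', hA i' hi' hbad⟩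
      · right
        push Not at hbad
        obtain ⟨him, b, hb, hr⟩ := hbad
        refine ⟨k', hk', hB k' hk' ?_⟩
        intro hkn a ha hr2
        have h3 : r (Sum.inl ⟨i', him⟩) (Sum.inr ⟨k', hkn⟩) := by
          have h4 : b.val ≤ k' := by omega
          rcases h4.eq_or_lt with h5 | h5
          · have : b = ⟨k', hkn⟩ := Fin.ext h5
            rw [← this]; exact hr
          · exact h.tr _ _ _ hr (h.bb _ _ h5)
        have h5 := h.tr _ _ _ h3 hr2
        rw [h.aa_iff] at h5
        have h6 : i' < a.val := h5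
        omega

theorem id_mid (h : TwoCh r) (i j t i' j' : ℕ) (h1 : Id r i j) (h2 : Id r i' j')
    (hs : i + j = i' + j') (ht : i ≤ t) (ht' : t ≤ i') : Id r t (i + j - t) := by
  refine ⟨ht'.trans h2.1, by have := h1.2.1; omega, ?_⟩
  intro x y hx hxy
  by_contra hcon
  cases y with
  | inl a =>
    have ha : a.val < t := not_le.mp hcon
    -- `y` lies in the ideal `(i', j')`
    have h3 : ¬ Rem i' j' x := by
      intro h4
      have h5 : i' ≤ a.val := h2.2.2 x _ h4 hxy
      omega
    cases x with
    | inl a' =>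
      rw [h.aa_iff] at hxy
      have h6 : t ≤ a'.val := hx
      have h7 : a'.val < a.val := hxy
      omega
    | inr b' =>
      have h6 : i + j - t ≤ b'.val := hx
      have h7 : b'.val < j' := not_le.mp h3
      omega
  | inr b =>
    have hb : b.val < i + j - t := not_le.mp hcon
    have h3 : ¬ Rem i j x := by
      intro h4
      have h5 : j ≤ b.val := h1.2.2 x _ h4 hxy
      omega
    cases x with
    | inl a' =>
      have h6 : t ≤ a'.val := hx
      have h7 : a'.val < i := not_le.mp h3
      omega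
    | inr b' =>
      rw [h.bb_iff] at hxy
      have h6 : i + j - t ≤ b'.val := hx
      have h7 : b'.val < b.val := hxy
      omega

/-- nodes of level `k` -/
def Nd (r : C m n → C m n → Prop) (k i : ℕ) : Prop := i ≤ k ∧ Id r i (k - i)

theorem g_pos (h : TwoCh r) : ∀ (d i k : ℕ), d = (m - i) + (n - k) → Id r i k →
    0 < g m n (tA r) (tB r) i k := by
  intro d
  induction d with
  | zero =>
    intro i k hd hid
    have h1 : i = m := by have := hid.1; omega
    have h2 : k = n := by have := hid.2.1; omega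
    subst h1 h2
    rw [g_last]; exact Nat.one_pos
  | succ d ih =>
    intro i k hd hid
    have h1 := hid.1
    have h2 := hid.2.1
    rw [g_step _ _ i k hid.1 hid.2.1 (by omega)]
    rcases ex_succ h i k hid (by omega) with ⟨h3, h4⟩ | ⟨h3, h4⟩
    · rw [if_pos ⟨h3, (succA h i k hid h3).mpr h4⟩]
      have := ih (i + 1) k (by omega) h4
      omega
    · have := ih i (k + 1) (by omega) h4
      rw [if_pos (c := k < n ∧ tB r i k = true) ⟨h3, (succB h i k hid h3).mpr h4⟩]
      omega

theorem id_zero (r : C m n → C m n → Prop) : Id r 0 0 :=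
  ⟨Nat.zero_le _, Nat.zero_le _, fun _ y _ _ => by cases y <;> exact Nat.zero_le _⟩

/-- the system of nodes of the poset -/
noncomputable def sys (h : TwoCh r) (hpos : 0 < m + n) : NodeSys where
  M := m + n
  Node := Nd r
  Mpos := hpos
  n0 := ⟨le_refl _, id_zero r⟩
  bd := fun _ _ h => h.1
  succ := by
    intro k i hk hn
    have h1 := hn.2.1
    have h2 := hn.2.2.1
    have h3 := hn.1
    rcases ex_succ h i (k - i) hn.2 (by omega) with ⟨h4, h5⟩ | ⟨h4, h5⟩
    · right
      refine ⟨by omega, ?_⟩
      have : k + 1 - (i + 1) = k - i := by omega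
      rw [this]; exact h5
    · left
      refine ⟨by omega, ?_⟩
      have : k + 1 - i = k - i + 1 := by omega
      rw [this]; exact h5
  pred := by
    intro k i hk hn
    have h3 := hn.1
    rcases ex_pred h i (k + 1 - i) hn.2 (by omega) with ⟨i', h4, h5⟩ | ⟨k', h4, h5⟩
    · right
      refine ⟨i', h4, by omega, ?_⟩
      have : k - i' = k + 1 - i := by omega
      rw [this]; exact h5
    · left
      refine ⟨by omega, ?_⟩
      have : k - i = k' := by omega
      rw [this]; exact h5
  mid := by
    intro k i t i' h1 h2 h3 h4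
    have h5 := h1.1
    have h6 := h2.1
    refine ⟨by omega, ?_⟩
    have := id_mid h i (k - i) t i' (k - i') h1.2 h2.2 (by omega) h3 h4
    have e : i + (k - i) - t = k - t := by omega
    rw [e] at this
    exact this
  last := by
    intro i i' h1 h2
    have a1 := h1.1
    have a2 := h1.2.1
    have a3 := h1.2.2.1
    have b1 := h2.1
    have b2 := h2.2.1
    have b3 := h2.2.2.1
    omega
  W := fun k i => (g m n (tA r) (tB r) i (k - i) : ℝ) / (g m n (tA r) (tB r) 0 0 : ℝ)
  Wn := fun k i => div_nonneg (Nat.cast_nonneg _) (Nat.cast_nonneg _)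
  W0 := by
    have := g_pos h _ 0 0 rfl (id_zero r)
    apply div_self
    exact_mod_cast this.ne'
  Wr := by
    intro k i hk hn
    have h1 := hn.2.1
    have h2 := hn.2.2.1
    have h3 := hn.1
    rw [g_step _ _ i (k - i) h1 h2 (by omega)]
    have e1 : (i < m ∧ tA r i (k - i) = true) ↔ Nd r (k + 1) (i + 1) := by
      constructor
      · rintro ⟨h4, h5⟩
        refine ⟨by omega, ?_⟩
        have : k + 1 - (i + 1) = k - i := by omega
        rw [this]
        exact (succA h i _ hn.2 h4).mp h5
      · intro h4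
        have h5 := h4.2
        have : k + 1 - (i + 1) = k - i := by omega
        rw [this] at h5
        exact ⟨h5.1, (succA h i _ hn.2 h5.1).mpr h5⟩
    have e2 : (k - i < n ∧ tB r i (k - i) = true) ↔ Nd r (k + 1) i := by
      have e : k + 1 - i = k - i + 1 := by omega
      constructor
      · rintro ⟨h4, h5⟩
        refine ⟨by omega, ?_⟩
        rw [e]
        exact (succB h i _ hn.2 h4).mp h5
      · intro h4
        have h5 := h4.2
        rw [e] at h5
        exact ⟨h5.2.1, (succB h i _ hn.2 h5.2.1).mpr h5⟩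
    have e3 : k + 1 - (i + 1) = k - i := by omega
    have e4 : k + 1 - i = k - i + 1 := by omega
    rw [e3, e4]
    by_cases c1 : Nd r (k + 1) (i + 1)
    · by_cases c2 : Nd r (k + 1) i
      · rw [if_pos (e1.mpr c1), if_pos (e2.mpr c2), if_pos c1, if_pos c2]
        push_cast; ring
      · rw [if_pos (e1.mpr c1), if_neg (fun hh => c2 (e2.mp hh)), if_pos c1, if_neg c2]
        push_cast; ring
    · by_cases c2 : Nd r (k + 1) i
      · rw [if_neg (fun hh => c1 (e1.mp hh)), if_pos (e2.mpr c2), if_neg c1, if_pos c2]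
        push_cast; ring
      · rw [if_neg (fun hh => c1 (e1.mp hh)), if_neg (fun hh => c2 (e2.mp hh)), if_neg c1,
          if_neg c2]
        push_cast; ring

end

end Pool.Agent.Gap
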