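import Mathlib
import Pool.Agent.Lib_MP_33fb9b_gap.Ideals
import Pool.Agent.Lib_MP_33fb9b_gap.Mod

set_option autoImplicit false

/-!
# Tail masses are probabilities
-/

namespace Pool.Agent.Gap

open Classical Pool.Agent.Lib_MP_33fb9b_co

theorem gen_step (S : Strip) (k : ℕ) (hk : k < S.n) (u v : ℕ → ℝ) (t : ℕ)
    (hv : ∀ i, (i < S.lo (k + 1) ∨ S.hi (k + 1) < i) → v i = 0)
    (hu : ∀ i, t + 1 ≤ i → S.lo k ≤ i → i ≤ S.hi k → u i = v i + v (i + 1)) :
    ∑ i ∈ Finset.Ico (t + 1) (S.n + 2), (S.N (k + 1) i : ℝ) * v i =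
      ∑ i ∈ Finset.Ico (t + 1) (S.n + 2), (S.N k i : ℝ) * u i + (S.N k t : ℝ) * v (t + 1) := by
  have hh := S.hi_le k hk.le
  have hh1 := S.hi_le (k + 1) hk
  have hin : ∀ i, (S.N (k + 1) (i + 1) : ℝ) * v (i + 1) =
      (S.N k (i + 1) : ℝ) * v (i + 1) + (S.N k i : ℝ) * v (i + 1) := by
    intro i
    by_cases h : S.lo (k + 1) ≤ i + 1 ∧ i + 1 ≤ S.hi (k + 1)
    · have : S.N (k + 1) (i + 1) = S.N k (i + 1) + S.N k i := by
        show (if _ then _ else _) = _
        rw [if_pos h]; rfl
      rw [this]; push_cast; ring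
    · rw [hv (i + 1) (by omega)]; simp
  have hout : ∀ i, t + 1 ≤ i → (S.N k i : ℝ) * u i =
      (S.N k i : ℝ) * v i + (S.N k i : ℝ) * v (i + 1) := by
    intro i hi
    by_cases h : S.lo k ≤ i ∧ i ≤ S.hi k
    · rw [hu i hi h.1 h.2]; ring
    · rw [S.N_zero k i (by omega)]; simp
  have key : ∀ d m, t ≤ m → S.n + 2 - m = d →
      ∑ i ∈ Finset.Ico (m + 1) (S.n + 2), (S.N (k + 1) i : ℝ) * v i =
      ∑ i ∈ Finset.Ico (m + 1) (S.n + 2), (S.N k i : ℝ) * u i + (S.N k m : ℝ) * v (m + 1) := by
    intro d
    induction d with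
    | zero =>
      intro m _ hm
      rw [Finset.Ico_eq_empty (by omega), S.N_zero k m (by omega)]; simp
    | succ d ih =>
      intro m htm hm
      by_cases hm2 : m + 1 < S.n + 2
      · rw [Finset.sum_eq_sum_Ico_succ_bot hm2, Finset.sum_eq_sum_Ico_succ_bot hm2,
          ih (m + 1) (by omega) (by omega), hin m, hout (m + 1) (by omega)]
        ring
      · rw [Finset.Ico_eq_empty (by omega), S.N_zero k m (by omega)]; simp
  exact key _ t (le_refl _) rfl

section

variable {m n : ℕ} {r : C m n → C m n → Prop}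

theorem g1_eq (p : Fin m) (q : Fin n) : ∀ (d i k : ℕ), d = (m - i) + (n - k) →
    i ≤ m → k ≤ n → p.val < i →
    g m n (tA r) (tB1 r p q) i k = g m n (tA r) (tB r) i k := by
  intro d
  induction d with
  | zero =>
    intro i k hd hi hk _
    have h1 : i = m := by omega
    have h2 : k = n := by omega
    subst h1 h2
    rw [g_last, g_last]
  | succ d ih =>
    intro i k hd hi hk hp
    rw [g_step _ _ i k hi hk (by omega), g_step _ _ i k hi hk (by omega)]
    have hB : tB1 r p q i k = tB r i k := by
      have : decide (i ≤ p.val ∧ k = q.val) = false := decide_eq_false (by omega)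
      unfold tB1
      rw [this]; simp
    rw [hB]
    congr 1
    · split_ifs with h
      · exact ih (i + 1) k (by omega) (by omega) hk (by omega)
      · rfl
    · split_ifs with h
      · exact ih i (k + 1) (by omega) hi (by omega) hp
      · rfl

/-- the tail mass is the ratio of the restricted and the full number of paths -/
theorem T_eq_ratio (h : TwoCh r) (hpos : 0 < m + n) (p : Fin m) (q : Fin n) :
    (sys h hpos).strip.T (p.val + q.val + 1) (p.val + 1) =
      (g m n (tA r) (tB1 r p q) 0 0 : ℝ) / (g m n (tA r) (tB r) 0 0 : ℝ) := by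
  set Q := sys h hpos with hQ
  set S := Q.strip with hS
  have hp := p.2
  have hq := q.2
  have hn : S.n = m + n := rfl
  let w1 : ℕ → ℕ → ℝ := fun k i =>
    if k ≤ m + n ∧ Nd r k i then (g m n (tA r) (tB1 r p q) i (k - i) : ℝ) else 0
  have hnode : ∀ k i, k ≤ m + n → (Nd r k i ↔ S.lo k ≤ i ∧ i ≤ S.hi k) :=
    fun k i hk => Q.node_iff k i hk
  have hw1z : ∀ k, k ≤ m + n → ∀ i, (i < S.lo k ∨ S.hi k < i) → w1 k i = 0 := by
    intro k hk i hi
    show (if _ then _ else _) = _
    rw [if_neg]
    rintro ⟨_, h2⟩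
    rw [hnode k i hk] at h2
    omega
  -- the recursion where the forbidden step is not involved
  have hrec : ∀ k i, k < m + n → Nd r k i → ¬ (i ≤ p.val ∧ k - i = q.val) →
      w1 k i = w1 (k + 1) i + w1 (k + 1) (i + 1) := by
    intro k i hk hnd hno
    have h1 := hnd.2.1
    have h2 := hnd.2.2.1
    have h3 := hnd.1
    have e1 : (i < m ∧ tA r i (k - i) = true) ↔ Nd r (k + 1) (i + 1) := by
      constructor
      · rintro ⟨h4, h5⟩
        refine ⟨by omega, ?_⟩
        have : k + 1 - (i + 1) = k - i := by omega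
        rw [this]
        exact (succA h i _ hnd.2 h4).mp h5
      · intro h4
        have h5 := h4.2
        have : k + 1 - (i + 1) = k - i := by omega
        rw [this] at h5
        exact ⟨h5.1, (succA h i _ hnd.2 h5.1).mpr h5⟩
    have hB : tB1 r p q i (k - i) = tB r i (k - i) := by
      have : decide (i ≤ p.val ∧ k - i = q.val) = false := decide_eq_false hno
      unfold tB1
      rw [this]; simp
    have e2 : (k - i < n ∧ tB1 r p q i (k - i) = true) ↔ Nd r (k + 1) i := by
      rw [hB]
      have e : k + 1 - i = k - i + 1 := by omega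
      constructor
      · rintro ⟨h4, h5⟩
        refine ⟨by omega, ?_⟩
        rw [e]
        exact (succB h i _ hnd.2 h4).mp h5
      · intro h4
        have h5 := h4.2
        rw [e] at h5
        exact ⟨h5.2.1, (succB h i _ hnd.2 h5.2.1).mpr h5⟩
    have e3 : k + 1 - (i + 1) = k - i := by omega
    have e4 : k + 1 - i = k - i + 1 := by omega
    rw [add_comm (w1 (k + 1) i)]
    show (if _ then _ else _) = (if _ then _ else _) + (if _ then _ else _)
    rw [if_pos ⟨hk.le, hnd⟩, g_step _ _ i (k - i) h1 h2 (by omega), e3, e4]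
    have hk1 : k + 1 ≤ m + n := hk
    by_cases c1 : Nd r (k + 1) (i + 1)
    · by_cases c2 : Nd r (k + 1) i
      · rw [if_pos (e1.mpr c1), if_pos (e2.mpr c2), if_pos ⟨hk1, c1⟩, if_pos ⟨hk1, c2⟩]
        push_cast; ring
      · rw [if_pos (e1.mpr c1), if_neg (fun hh => c2 (e2.mp hh)), if_pos ⟨hk1, c1⟩,
          if_neg (fun hh => c2 hh.2)]
        push_cast; ring
    · by_cases c2 : Nd r (k + 1) i
      · rw [if_neg (fun hh => c1 (e1.mp hh)), if_pos (e2.mpr c2),
          if_neg (fun hh => c1 hh.2), if_pos ⟨hk1, c2⟩]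
        push_cast; ring
      · rw [if_neg (fun hh => c1 (e1.mp hh)), if_neg (fun hh => c2 (e2.mp hh)),
          if_neg (fun hh => c1 hh.2), if_neg (fun hh => c2 hh.2)]
        push_cast; ring
  -- the value at the forbidden diagonal
  have hforb : ∀ k i, k < m + n → Nd r k i → i ≤ p.val → k - i = q.val →
      w1 k i = w1 (k + 1) (i + 1) := by
    intro k i hk hnd hip hkq
    have h1 := hnd.2.1
    have h2 := hnd.2.2.1
    have h3 := hnd.1
    have e1 : (i < m ∧ tA r i (k - i) = true) ↔ Nd r (k + 1) (i + 1) := by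
      constructor
      · rintro ⟨h4, h5⟩
        refine ⟨by omega, ?_⟩
        have : k + 1 - (i + 1) = k - i := by omega
        rw [this]
        exact (succA h i _ hnd.2 h4).mp h5
      · intro h4
        have h5 := h4.2
        have : k + 1 - (i + 1) = k - i := by omega
        rw [this] at h5
        exact ⟨h5.1, (succA h i _ hnd.2 h5.1).mpr h5⟩
    have hB : tB1 r p q i (k - i) = false := by
      have : decide (i ≤ p.val ∧ k - i = q.val) = true := decide_eq_true ⟨hip, hkq⟩
      unfold tB1
      rw [this]; simp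
    have e3 : k + 1 - (i + 1) = k - i := by omega
    show (if _ then _ else _) = (if _ then _ else _)
    rw [if_pos ⟨hk.le, hnd⟩, g_step _ _ i (k - i) h1 h2 (by omega), e3, hB,
      if_neg (by simp : ¬ (k - i < n ∧ false = true)), Nat.add_zero]
    have hk1 : k + 1 ≤ m + n := hk
    by_cases c1 : Nd r (k + 1) (i + 1)
    · rw [if_pos (e1.mpr c1), if_pos ⟨hk1, c1⟩]
    · rw [if_neg (fun hh => c1 (e1.mp hh)), if_neg (fun hh => c1 hh.2)]
      simp
  -- the invariant
  have hinv : ∀ l, l ≤ p.val + q.val + 1 →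
      ∑ i ∈ Finset.Ico (l - q.val) (S.n + 2), (S.N l i : ℝ) * w1 l i =
        (g m n (tA r) (tB1 r p q) 0 0 : ℝ) := by
    intro l
    induction l with
    | zero =>
      intro _
      have e : 0 - q.val = 0 := by omega
      rw [e, Finset.sum_eq_sum_Ico_succ_bot (by omega), Finset.sum_eq_zero]
      · have hN : S.N 0 0 = 1 := rfl
        have hw : w1 0 0 = (g m n (tA r) (tB1 r p q) 0 0 : ℝ) := by
          show (if _ then _ else _) = _
          rw [if_pos ⟨Nat.zero_le _, le_refl _, id_zero r⟩]
        rw [hN, hw]; simp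
      · intro i hi
        rw [Finset.mem_Ico] at hi
        have hN : S.N 0 i = 0 := by
          show (if i = 0 then 1 else 0) = 0
          rw [if_neg (by omega)]
        rw [hN]; simp
    | succ l ih =>
      intro hl
      have hl' : l < m + n := by omega
      have hprev := ih (by omega)
      have hhi := S.hi_le l (by rw [hn]; omega)
      by_cases hlq : l < q.val
      · have e1 : l - q.val = 0 := by omega
        have e2 : l + 1 - q.val = 0 := by omega
        rw [e1] at hprev
        rw [e2, ← hprev, Finset.sum_eq_sum_Ico_succ_bot (by omega),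
          Finset.sum_eq_sum_Ico_succ_bot (by omega : 0 < S.n + 2)]
        rw [gen_step S l (by rw [hn]; exact hl') (w1 l) (w1 (l + 1)) 0
          (hw1z (l + 1) (by omega))]
        · have h0 : (S.N (l + 1) 0 : ℝ) * w1 (l + 1) 0 = (S.N l 0 : ℝ) * w1 (l + 1) 0 := by
            by_cases hh : S.lo (l + 1) ≤ 0 ∧ 0 ≤ S.hi (l + 1)
            · have : S.N (l + 1) 0 = S.N l 0 := by
                show (if _ then _ else _) = _
                rw [if_pos hh]; rfl
              rw [this]
            · rw [hw1z (l + 1) (by omega) 0 (by omega)]; simp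
          rw [h0]
          have h1 : (S.N l 0 : ℝ) * w1 l 0 =
              (S.N l 0 : ℝ) * (w1 (l + 1) 0 + w1 (l + 1) (0 + 1)) := by
            by_cases hh : S.lo l ≤ 0 ∧ 0 ≤ S.hi l
            · rw [hrec l 0 hl' ((hnode l 0 hl'.le).mpr hh) (by omega)]
            · rw [S.N_zero l 0 (by omega)]; simp
          rw [h1]; ring
        · intro i _ h2 h3
          exact hrec l i hl' ((hnode l i hl'.le).mpr ⟨h2, h3⟩) (by omega)
      · obtain ⟨t, ht⟩ : ∃ t, l = t + q.val := ⟨l - q.val, by omega⟩
        have e1 : l - q.val = t := by omega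
        have e2 : l + 1 - q.val = t + 1 := by omega
        rw [e1] at hprev
        rw [e2, ← hprev, Finset.sum_eq_sum_Ico_succ_bot (by rw [hn]; omega : t < S.n + 2)]
        rw [gen_step S l (by rw [hn]; exact hl') (w1 l) (w1 (l + 1)) t
          (hw1z (l + 1) (by omega))]
        · have h1 : (S.N l t : ℝ) * w1 l t = (S.N l t : ℝ) * w1 (l + 1) (t + 1) := by
            by_cases hh : S.lo l ≤ t ∧ t ≤ S.hi l
            · rw [hforb l t hl' ((hnode l t hl'.le).mpr hh) (by omega) (by omega)]
            · rw [S.N_zero l t (by omega)]; simp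
          rw [h1]; ring
        · intro i h1 h2 h3
          exact hrec l i hl' ((hnode l i hl'.le).mpr ⟨h2, h3⟩) (by omega)
  have hfin := hinv (p.val + q.val + 1) (le_refl _)
  have e : p.val + q.val + 1 - q.val = p.val + 1 := by omega
  rw [e] at hfin
  rw [← hfin, Finset.sum_div]
  unfold Strip.T
  apply Finset.sum_congr rfl
  intro i hi
  rw [Finset.mem_Ico] at hi
  unfold Strip.mass
  rw [mul_div_assoc]
  congr 1
  show (if _ then _ else _) = (if _ then _ else _) / _
  by_cases hnd : Nd r (p.val + q.val + 1) i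
  · have hle : p.val + q.val + 1 ≤ m + n := by omega
    have h1 := hnd.2.1
    have h2 := hnd.2.2.1
    rw [if_pos ⟨hle, hnd⟩, if_pos ⟨hle, hnd⟩]
    rw [g1_eq p q _ i _ rfl h1 h2 (by omega)]
    rfl
  · rw [if_neg (fun hh => hnd hh.2), if_neg (fun hh => hnd hh.2)]
    simp

theorem card_list_eq_g {A B : ℕ → ℕ → Bool} {r : C m n → C m n → Prop}
    (hc : Compat r A B) :
    Nat.card {l : List (C m n) // l.Nodup ∧ (∀ x, x ∈ l) ∧ l.Pairwise (fun x y => ¬ r y x)} =
      g m n A B 0 0 := by
  unfold g
  apply Nat.subtype_card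
  intro l
  rw [mem_exts hc _ 0 0 l (Nat.zero_le _) (Nat.zero_le _) rfl]
  unfold Lib_MP_33fb9b_co.Good
  have : ∀ x : C m n, Rem 0 0 x := by
    intro x
    cases x <;> exact Nat.zero_le _
  simp only [this, iff_true]

end

section

variable {P : Type} [Fintype P] [PartialOrder P] {m n : ℕ}

/-- the order on coordinates -/
def rel (φ : Fin m ⊕ Fin n ≃ P) : C m n → C m n → Prop := fun u v => φ u < φ v

omit [Fintype P] in
theorem twoCh_rel (φ : Fin m ⊕ Fin n ≃ P)
    (haa : ∀ a a' : Fin m, a < a' → φ (Sum.inl a) < φ (Sum.inl a'))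
    (hbb : ∀ b b' : Fin n, b < b' → φ (Sum.inr b) < φ (Sum.inr b')) : TwoCh (rel φ) where
  irr := fun x => lt_irrefl (φ x)
  tr := fun _ _ _ h1 h2 => lt_trans h1 h2
  aa := haa
  bb := hbb

omit [PartialOrder P] in
theorem card_transport (φ : Fin m ⊕ Fin n ≃ P) (s : P → P → Prop) :
    Nat.card {e : P ≃ Fin (Fintype.card P) // ∀ u v, s u v → e u < e v} =
    Nat.card {e : C m n ≃ Fin (Fintype.card (C m n)) // ∀ u v, s (φ u) (φ v) → e u < e v} := by
  have hc : Fintype.card P = Fintype.card (C m n) := (Fintype.card_congr φ).symm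
  apply Nat.card_congr
  exact
    { toFun := fun e => ⟨(φ.trans e.1).trans (finCongr hc), fun u v huv => by
        have := e.2 _ _ huv
        simpa using this⟩
      invFun := fun e => ⟨(φ.symm.trans e.1).trans (finCongr hc.symm), fun u v huv => by
        have := e.2 (φ.symm u) (φ.symm v) (by simpa using huv)
        simpa using this⟩
      left_inv := fun e => by
        apply Subtype.ext
        apply Equiv.ext
        intro x
        simp
      right_inv := fun e => by
        apply Subtype.ext
        apply Equiv.ext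
        intro x
        simp }

theorem monotone_iff_lt (e : P ≃ Fin (Fintype.card P)) :
    Monotone e ↔ ∀ u v : P, u < v → e u < e v := by
  constructor
  · intro h u v huv
    apply lt_of_le_of_ne (h huv.le)
    intro h2
    have := e.injective h2
    rw [this] at huv
    exact lt_irrefl _ huv
  · intro h u v huv
    rcases huv.eq_or_lt with rfl | h2
    · exact le_refl _
    · exact (h _ _ h2).le

/-- the probability of a pair in the two chains is a tail mass -/
theorem T_eq_prob (φ : Fin m ⊕ Fin n ≃ P) (h : TwoCh (rel φ)) (hpos : 0 < m + n)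
    (p : Fin m) (q : Fin n) :
    (sys h hpos).strip.T (p.val + q.val + 1) (p.val + 1) =
      prob P (φ (Sum.inl p)) (φ (Sum.inr q)) := by
  rw [T_eq_ratio h hpos p q]
  unfold prob
  congr 2
  · rw [← card_list_eq_g (compat_radd h p q),
      ← card_equiv_eq_card_list (radd (rel φ) p q) (compat_radd h p q).irr]
    have h1 := card_transport φ (fun u v => u < v ∨ (u = φ (Sum.inl p) ∧ v = φ (Sum.inr q)))
    have h2 : Nat.card {e : P ≃ Fin (Fintype.card P) // Monotone e ∧
        e (φ (Sum.inl p)) < e (φ (Sum.inr q))} =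
        Nat.card {e : P ≃ Fin (Fintype.card P) // ∀ u v,
          (u < v ∨ (u = φ (Sum.inl p) ∧ v = φ (Sum.inr q))) → e u < e v} := by
      apply Nat.card_congr
      apply Equiv.subtypeEquivRight
      intro e
      rw [monotone_iff_lt]
      constructor
      · rintro ⟨h3, h4⟩ u v (h5 | ⟨rfl, rfl⟩)
        · exact h3 u v h5
        · exact h4
      · intro h3
        exact ⟨fun u v huv => h3 u v (Or.inl huv), h3 _ _ (Or.inr ⟨rfl, rfl⟩)⟩
    rw [h2, h1]
    apply Nat.card_congr
    apply Equiv.subtypeEquivRight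
    intro e
    have h6 : ∀ u v : C m n, (φ u < φ v ∨ (φ u = φ (Sum.inl p) ∧ φ v = φ (Sum.inr q))) ↔
        radd (rel φ) p q u v := by
      intro u v
      unfold radd rel
      rw [φ.injective.eq_iff, φ.injective.eq_iff]
    constructor
    · intro h3 u v huv
      exact h3 u v ((h6 u v).mp huv)
    · intro h3 u v huv
      exact h3 u v ((h6 u v).mpr huv)
  · rw [← card_list_eq_g (compat_r h),
      ← card_equiv_eq_card_list (rel φ) (compat_r h).irr]
    have h1 := card_transport φ (fun u v => u < v)
    have h2 : Nat.card {e : P ≃ Fin (Fintype.card P) // Monotone e} =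
        Nat.card {e : P ≃ Fin (Fintype.card P) // ∀ u v, u < v → e u < e v} := by
      apply Nat.card_congr
      apply Equiv.subtypeEquivRight
      intro e
      rw [monotone_iff_lt]
    rw [h2, h1]
    rfl

end

end Pool.Agent.Gap
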