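import Mathlib
import Pool.Agent.Lib_MP_33fb9b_gap.Tail
import Pool.Agent.Lib_MP_33fb9b_gap.Chains
import Pool.Agent.Lib_MP_33fb9b_gap.DClass
import Pool.Agent.Lib_MP_33fb9b_gap.Sound

set_option autoImplicit false

/-!
# The induction over the components of the direct sum
-/

namespace Pool.Agent.Gap

open Classical Pool.Agent.Lib_MP_33fb9b_co

section

variable {m n : ℕ} {r : C m n → C m n → Prop}

theorem cut_inl (h : TwoCh r) (i j : ℕ) (hid : Id r (i + 1) j) (hj : j < n)
    (hno : ¬ Id r i (j + 1)) (a : Fin m) (ha : a.val < i + 1) (b : Fin n) (hb : j ≤ b.val) :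
    r (Sum.inl a) (Sum.inr b) := by
  have him : i < m := hid.1
  have key : r (Sum.inl ⟨i, him⟩) (Sum.inr ⟨j, hj⟩) := by
    by_contra hcon
    apply hno
    refine ⟨him.le, hj, ?_⟩
    intro x y hx hxy
    by_contra hy
    -- `y` is in the ideal `(i, j + 1)`, hence in `(i + 1, j)` or equal to the new element
    cases y with
    | inl c =>
      have hc : c.val < i := not_le.mp hy
      have hx' : ¬ Rem (i + 1) j x := by
        intro h4
        have h5 : i + 1 ≤ c.val := hid.2.2 x _ h4 hxy
        omega
      cases x with
      | inl a' =>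
        rw [h.aa_iff] at hxy
        have h6 : i ≤ a'.val := hx
        have h7 : a'.val < c.val := hxy
        omega
      | inr b' =>
        have h6 : j + 1 ≤ b'.val := hx
        have h7 : b'.val < j := not_le.mp hx'
        omega
    | inr d =>
      have hd : d.val < j + 1 := not_le.mp hy
      cases x with
      | inr b' =>
        rw [h.bb_iff] at hxy
        have h6 : j + 1 ≤ b'.val := hx
        have h7 : b'.val < d.val := hxy
        omega
      | inl a' =>
        have h6 : i ≤ a'.val := hx
        -- then the last element of the first chain is below the new element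
        apply hcon
        have h8 : r (Sum.inl ⟨i, him⟩) (Sum.inr d) := by
          rcases h6.eq_or_lt with h9 | h9
          · have : (⟨i, him⟩ : Fin m) = a' := Fin.ext h9
            rw [this]; exact hxy
          · exact h.tr _ _ _ (h.aa _ _ h9) hxy
        have h10 : d.val ≤ j := by omega
        rcases h10.eq_or_lt with h9 | h9
        · have : d = (⟨j, hj⟩ : Fin n) := Fin.ext h9
          rw [← this]; exact h8
        · exact h.tr _ _ _ h8 (h.bb _ _ h9)
  have k1 : r (Sum.inl a) (Sum.inr ⟨j, hj⟩) := by
    have h1 : a.val ≤ i := by omega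
    rcases h1.eq_or_lt with h9 | h9
    · have : a = (⟨i, him⟩ : Fin m) := Fin.ext h9
      rw [this]; exact key
    · exact h.tr _ _ _ (h.aa _ _ h9) key
  rcases hb.eq_or_lt with h9 | h9
  · have : (⟨j, hj⟩ : Fin n) = b := Fin.ext h9
    rw [← this]; exact k1
  · exact h.tr _ _ _ k1 (h.bb _ _ h9)

theorem cut_inr (h : TwoCh r) (i j : ℕ) (hid : Id r i (j + 1)) (hi : i < m)
    (hno : ¬ Id r (i + 1) j) (b : Fin n) (hb : b.val < j + 1) (a : Fin m) (ha : i ≤ a.val) :
    r (Sum.inr b) (Sum.inl a) := by
  have hjn : j < n := hid.2.1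
  have key : r (Sum.inr ⟨j, hjn⟩) (Sum.inl ⟨i, hi⟩) := by
    by_contra hcon
    apply hno
    refine ⟨hi, hjn.le, ?_⟩
    intro x y hx hxy
    by_contra hy
    cases y with
    | inr c =>
      have hc : c.val < j := not_le.mp hy
      have hx' : ¬ Rem i (j + 1) x := by
        intro h4
        have h5 : j + 1 ≤ c.val := hid.2.2 x _ h4 hxy
        omega
      cases x with
      | inr a' =>
        rw [h.bb_iff] at hxy
        have h6 : j ≤ a'.val := hx
        have h7 : a'.val < c.val := hxy
        omega
      | inl b' =>
        have h6 : i + 1 ≤ b'.val := hx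
        have h7 : b'.val < i := not_le.mp hx'
        omega
    | inl d =>
      have hd : d.val < i + 1 := not_le.mp hy
      cases x with
      | inl b' =>
        rw [h.aa_iff] at hxy
        have h6 : i + 1 ≤ b'.val := hx
        have h7 : b'.val < d.val := hxy
        omega
      | inr a' =>
        have h6 : j ≤ a'.val := hx
        apply hcon
        have h8 : r (Sum.inr ⟨j, hjn⟩) (Sum.inl d) := by
          rcases h6.eq_or_lt with h9 | h9
          · have : (⟨j, hjn⟩ : Fin n) = a' := Fin.ext h9
            rw [this]; exact hxy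
          · exact h.tr _ _ _ (h.bb _ _ h9) hxy
        have h10 : d.val ≤ i := by omega
        rcases h10.eq_or_lt with h9 | h9
        · have : d = (⟨i, hi⟩ : Fin m) := Fin.ext h9
          rw [← this]; exact h8
        · exact h.tr _ _ _ h8 (h.aa _ _ h9)
  have k1 : r (Sum.inr b) (Sum.inl ⟨i, hi⟩) := by
    have h1 : b.val ≤ j := by omega
    rcases h1.eq_or_lt with h9 | h9
    · have : b = (⟨j, hjn⟩ : Fin n) := Fin.ext h9
      rw [this]; exact key
    · exact h.tr _ _ _ (h.bb _ _ h9) key
  rcases ha.eq_or_lt with h9 | h9
  · have : (⟨i, hi⟩ : Fin m) = a := Fin.ext h9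
    rw [← this]; exact k1
  · exact h.tr _ _ _ k1 (h.aa _ _ h9)

/-- a level with a single ideal is a cut of the direct sum -/
theorem cut_level (h : TwoCh r) (k i : ℕ) (hnd : Nd r k i)
    (huniq : ∀ i', Nd r k i' → i' = i) (x y : C m n) (hx : ¬ Rem i (k - i) x)
    (hy : Rem i (k - i) y) : r x y := by
  have hik := hnd.1
  cases x with
  | inl a =>
    have ha : a.val < i := not_le.mp hx
    cases y with
    | inl a' =>
      have ha' : i ≤ a'.val := hy
      exact h.aa _ _ (show a.val < a'.val by omega)
    | inr b =>
      have hb : k - i ≤ b.val := hy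
      obtain ⟨i', rfl⟩ : ∃ i', i = i' + 1 := ⟨i - 1, by omega⟩
      apply cut_inl h i' (k - (i' + 1)) hnd.2 (by have := b.2; omega) _ a ha b hb
      intro hcon
      have : Nd r k i' := ⟨by omega, by
        have e : k - i' = k - (i' + 1) + 1 := by omega
        rw [e]; exact hcon⟩
      have := huniq i' this
      omega
  | inr b =>
    have hb : b.val < k - i := not_le.mp hx
    cases y with
    | inr b' =>
      have hb' : k - i ≤ b'.val := hy
      exact h.bb _ _ (show b.val < b'.val by omega)
    | inl a =>
      have ha : i ≤ a.val := hy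
      obtain ⟨j, hj⟩ : ∃ j, k - i = j + 1 := ⟨k - i - 1, by omega⟩
      have hid := hnd.2
      rw [hj] at hid
      apply cut_inr h i j hid (by have := a.2; omega) _ b (by omega) a ha
      intro hcon
      have : Nd r k (i + 1) := ⟨by omega, by
        have e : k - (i + 1) = j := by omega
        rw [e]; exact hcon⟩
      have := huniq _ this
      omega

theorem T_lo (S : Strip) (k : ℕ) (hk : k ≤ S.n) (t : ℕ) (ht : t ≤ S.lo k) : S.T k t = 1 := by
  have h3 : S.T k (S.lo k) = 1 := by
    have h1 := sum_low (S := S) k hk (S.lo k) (le_refl _) (S.lohi k hk)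
    rw [Finset.Ico_self, Finset.sum_empty] at h1
    linarith
  have h4 := S.T_anti' k t (S.lo k) ht
  have h5 := S.T_le_one k t hk
  linarith

end

/-- the set of elements outside the ideal `(i, j)` -/
def Up {P : Type} {m n : ℕ} (φ : Fin m ⊕ Fin n ≃ P) (i j : ℕ) : Set P :=
  {x | Rem (m := m) (n := n) i j (φ.symm x)}

/-- the induction: a small balance constant forces membership in the class `𝒟` -/
theorem main_induction (num den : ℕ) (hnum : 0 < num) (hden : 0 < den)
    (hc : num * 20 ≤ 7 * den) (t0 t1 : Tr) (h0 : check num den t0 root0 = true)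
    (h1 : check num den t1 root1 = true) (N : ℕ) :
    ∀ (P : Type) [Fintype P] [PartialOrder P] [Nonempty P], Fintype.card P = N →
      WidthLeTwo P → balance P < (num : ℝ) / den → DSall P := by
  induction N using Nat.strong_induction_on with
  | _ N ih =>
  intro P _ _ _ hcard hw hbal
  have hd : (0 : ℝ) < den := by exact_mod_cast hden
  have hcpos : (0 : ℝ) < (num : ℝ) / den := div_pos (by exact_mod_cast hnum) hd
  obtain ⟨m, n, φ, haa, hbb⟩ := exists_coord hw
  have hr : TwoCh (rel φ) := twoCh_rel φ haa hbb
  have hcardmn : m + n = Fintype.card P := by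
    rw [← Fintype.card_congr φ]; simp
  have hpos : 0 < m + n := by
    rw [hcardmn]; exact Fintype.card_pos
  set Q := sys hr hpos with hQ
  set S := Q.strip with hS
  have hn : S.n = m + n := rfl
  have hnode : ∀ k i, k ≤ m + n → (Nd (rel φ) k i ↔ S.lo k ≤ i ∧ i ≤ S.hi k) :=
    fun k i hk => Q.node_iff k i hk
  -- all thresholds are unbalanced
  have hunb : S.Unb ((num : ℝ) / den) := by
    intro k hk t
    by_cases ht1 : t ≤ S.lo k
    · right; rw [T_lo S k hk t ht1]; linarith
    by_cases ht2 : S.hi k < t
    · left; rw [S.T_zero_of k t hk ht2]; exact hcpos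
    push Not at ht1 ht2
    have hlo := (hnode k (S.lo k) hk).mpr ⟨le_refl _, S.lohi k hk⟩
    have hhi := (hnode k (S.hi k) hk).mpr ⟨S.lohi k hk, le_refl _⟩
    have a1 := hlo.1
    have a2 := hlo.2.2.1
    have a3 := hhi.1
    have a4 := hhi.2.1
    let p : Fin m := ⟨t - 1, by omega⟩
    let q : Fin n := ⟨k - t, by omega⟩
    have hT := T_eq_prob φ hr hpos p q
    have e1 : p.val + q.val + 1 = k := by
      show t - 1 + (k - t) + 1 = k
      omega
    have e2 : p.val + 1 = t := by
      show t - 1 + 1 = t
      omega
    rw [e1, e2] at hT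
    have hne : φ (Sum.inl p) ≠ φ (Sum.inr q) := by
      intro hcon
      have := φ.injective hcon
      simp at this
    have hadd := prob_add P _ _ hne
    have hle := le_balance P (φ (Sum.inl p)) (φ (Sum.inr q))
    have hmin : min (prob P (φ (Sum.inl p)) (φ (Sum.inr q)))
        (prob P (φ (Sum.inr q)) (φ (Sum.inl p))) < (num : ℝ) / den := lt_of_le_of_lt hle hbal
    rw [min_lt_iff] at hmin
    have hT' : S.T k t = prob P (φ (Sum.inl p)) (φ (Sum.inr q)) := hT
    rw [hT']
    rcases hmin with h2 | h2
    · left; exact h2
    · right; linarith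
  -- the step: a cut whose lower part is fine
  have hstep : ∀ k i, 0 < k → k ≤ m + n → Nd (rel φ) k i →
      (∀ i', Nd (rel φ) k i' → i' = i) → FibOK ((Up φ i (k - i))ᶜ) → DSall P := by
    intro k i hk0 hk hnd huniq hfib
    have hlt : ∀ x, x ∉ Up φ i (k - i) → ∀ y ∈ Up φ i (k - i), x < y := by
      intro x hx y hy
      have := cut_level hr k i hnd huniq (φ.symm x) (φ.symm y) hx hy
      have h2 : φ (φ.symm x) < φ (φ.symm y) := this
      simpa using h2
    by_cases hM : (Up φ i (k - i)).Nonempty
    · obtain ⟨x0, hx0⟩ := hM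
      haveI : Nonempty (Up φ i (k - i)) := ⟨⟨x0, hx0⟩⟩
      have haut : Autonomous P (Up φ i (k - i)) := fun x hx => Or.inl (hlt x hx)
      apply DSall.cons (Up φ i (k - i)) hlt hfib
      apply ih (Fintype.card (Up φ i (k - i))) _ (Up φ i (k - i)) rfl
      · intro s hs
        have h3 := hw (s.map (Function.Embedding.subtype _)) (by
          intro a ha b hb hab
          rw [Finset.mem_coe, Finset.mem_map] at ha hb
          obtain ⟨a', ha', rfl⟩ := ha
          obtain ⟨b', hb', rfl⟩ := hb
          exact hs ha' hb' (fun hcon => hab (by rw [hcon])))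
        rw [Finset.card_map] at h3
        exact h3
      · exact lt_of_le_of_lt (balance_autonomous _ haut) hbal
      · -- the lower part is nonempty
        rw [← hcard]
        have hne : ∃ z, z ∉ Up φ i (k - i) := by
          have h4 := hnd.1
          have h5 := hnd.2.1
          have h6 := hnd.2.2.1
          by_cases hi : 0 < i
          · refine ⟨φ (Sum.inl ⟨0, by omega⟩), ?_⟩
            intro hcon
            have h7 : Rem (m := m) (n := n) i (k - i)
              (φ.symm (φ (Sum.inl (⟨0, by omega⟩ : Fin m)))) := hcon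
            rw [Equiv.symm_apply_apply] at h7
            have h8 : i ≤ 0 := h7
            omega
          · refine ⟨φ (Sum.inr ⟨0, by omega⟩), ?_⟩
            intro hcon
            have h7 : Rem (m := m) (n := n) i (k - i)
              (φ.symm (φ (Sum.inr (⟨0, by omega⟩ : Fin n)))) := hcon
            rw [Equiv.symm_apply_apply] at h7
            have h8 : k - i ≤ 0 := h7
            omega
        obtain ⟨z, hz⟩ := hne
        exact Fintype.card_subtype_lt hz
    · rw [Set.not_nonempty_iff_eq_empty] at hM
      rw [hM, Set.compl_empty] at hfib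
      exact DSall.of_fib hfib
  have hlo1 := S.loS 0 (by rw [hn]; exact hpos)
  have hhi1 := S.hiS 0 (by rw [hn]; exact hpos)
  have hle1 := S.lohi 1 (by rw [hn]; exact hpos)
  rw [S.lo0, Nat.zero_add] at hlo1
  rw [S.hi0, Nat.zero_add] at hhi1
  by_cases htwo : S.lo 1 = 0 ∧ S.hi 1 = 1
  · -- two minimal elements
    have hE := strip_main num den hden hc t0 t1 h0 h1 hunb htwo.1 htwo.2
    obtain ⟨h3n, _, _, hE⟩ := hE
    rw [hn] at h3n
    have hn10 : Nd (rel φ) 1 0 := (hnode 1 0 (by omega)).mpr (by omega)
    have hn11 : Nd (rel φ) 1 1 := (hnode 1 1 (by omega)).mpr (by omega)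
    have hm0 : 0 < m := hn11.2.1
    have hn0 : 0 < n := hn10.2.2.1
    -- the two minimal elements are incomparable
    have i1 : ¬ rel φ (Sum.inl ⟨0, hm0⟩) (Sum.inr ⟨0, hn0⟩) := by
      intro hcon
      have h5 := hn10.2.2.2 (Sum.inl ⟨0, hm0⟩) _ (Nat.zero_le _) hcon
      have h6 : 1 - 0 ≤ 0 := h5
      omega
    have i2 : ¬ rel φ (Sum.inr ⟨0, hn0⟩) (Sum.inl ⟨0, hm0⟩) := by
      intro hcon
      have h5 := hn11.2.2.2 (Sum.inr ⟨0, hn0⟩) _ (Nat.zero_le _) hcon
      have h6 : 1 ≤ 0 := h5
      omega
    have hinc : ∀ u v : C m n, u ≠ v → ¬ rel φ u v → ¬ φ u ≤ φ v := by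
      intro u v huv h5 h6
      exact h5 (lt_of_le_of_ne h6 (fun hcon => huv (φ.injective hcon)))
    rcases hE with ⟨l2, u2, l3, u3⟩ | ⟨l2, u2, l3, u3⟩
    · -- `a₀ ∥ b₀ < b₁`
      have hn20 : Nd (rel φ) 2 0 := (hnode 2 0 (by omega)).mpr (by omega)
      have hn31 : Nd (rel φ) 3 1 := (hnode 3 1 (by omega)).mpr (by omega)
      have hn1 : 1 < n := hn20.2.2.1
      have i3 : ¬ rel φ (Sum.inl ⟨0, hm0⟩) (Sum.inr ⟨1, hn1⟩) := by
        intro hcon
        have h5 := hn20.2.2.2 (Sum.inl ⟨0, hm0⟩) _ (Nat.zero_le _) hcon
        have h6 : 2 - 0 ≤ 1 := h5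
        omega
      have hbb01 : rel φ (Sum.inr ⟨0, hn0⟩) (Sum.inr ⟨1, hn1⟩) :=
        hr.bb _ _ (show (0 : ℕ) < 1 by omega)
      have i4 : ¬ rel φ (Sum.inr ⟨1, hn1⟩) (Sum.inl ⟨0, hm0⟩) := by
        intro hcon
        exact i2 (hr.tr _ _ _ hbb01 hcon)
      apply hstep 3 1 (by omega) h3n hn31
      · intro i' hi'
        have := (hnode 3 i' h3n).mp hi'
        omega
      · right
        refine ⟨φ (Sum.inr ⟨0, hn0⟩), φ (Sum.inr ⟨1, hn1⟩), φ (Sum.inl ⟨0, hm0⟩), ?_, hbb01,
          hinc _ _ (by simp) i2, hinc _ _ (by simp) i1, hinc _ _ (by simp) i4,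
          hinc _ _ (by simp) i3⟩
        ext x
        obtain ⟨u, rfl⟩ := φ.surjective x
        have hmem : φ u ∈ (Up φ 1 (3 - 1))ᶜ ↔ ¬ Rem (m := m) (n := n) 1 2 u := by
          show ¬ Rem (m := m) (n := n) 1 (3 - 1) (φ.symm (φ u)) ↔ _
          rw [Equiv.symm_apply_apply]
        rw [hmem]
        simp only [Set.mem_insert_iff, Set.mem_singleton_iff, φ.injective.eq_iff]
        cases u with
        | inl a =>
          constructor
          · intro h5
            have h6 : a.val < 1 := not_le.mp h5
            right; right
            congr 1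
            exact Fin.ext (by show a.val = 0; omega)
          · rintro (h5 | h5 | h5)
            · simp at h5
            · simp at h5
            · rw [Sum.inl_injective h5]
              intro h6
              have h7 : 1 ≤ 0 := h6
              omega
        | inr b =>
          constructor
          · intro h5
            have h6 : b.val < 2 := not_le.mp h5
            by_cases hb0 : b.val = 0
            · left
              congr 1
              exact Fin.ext hb0
            · right; left
              congr 1
              exact Fin.ext (by show b.val = 1; omega)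
          · rintro (h5 | h5 | h5)
            · rw [Sum.inr_injective h5]
              intro h6
              have h7 : 2 ≤ 0 := h6
              omega
            · rw [Sum.inr_injective h5]
              intro h6
              have h7 : 2 ≤ 1 := h6
              omega
            · simp at h5
    · -- `b₀ ∥ a₀ < a₁`
      have hn22 : Nd (rel φ) 2 2 := (hnode 2 2 (by omega)).mpr (by omega)
      have hn32 : Nd (rel φ) 3 2 := (hnode 3 2 (by omega)).mpr (by omega)
      have hm1 : 1 < m := hn22.2.1
      have i3 : ¬ rel φ (Sum.inr ⟨0, hn0⟩) (Sum.inl ⟨1, hm1⟩) := by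
        intro hcon
        have h5 := hn22.2.2.2 (Sum.inr ⟨0, hn0⟩) _ (Nat.zero_le _) hcon
        have h6 : 2 ≤ 1 := h5
        omega
      have haa01 : rel φ (Sum.inl ⟨0, hm0⟩) (Sum.inl ⟨1, hm1⟩) :=
        hr.aa _ _ (show (0 : ℕ) < 1 by omega)
      have i4 : ¬ rel φ (Sum.inl ⟨1, hm1⟩) (Sum.inr ⟨0, hn0⟩) := by
        intro hcon
        exact i1 (hr.tr _ _ _ haa01 hcon)
      apply hstep 3 2 (by omega) h3n hn32
      · intro i' hi'
        have := (hnode 3 i' h3n).mp hi'
        omega
      · right
        refine ⟨φ (Sum.inl ⟨0, hm0⟩), φ (Sum.inl ⟨1, hm1⟩), φ (Sum.inr ⟨0, hn0⟩), ?_, haa01,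
          hinc _ _ (by simp) i1, hinc _ _ (by simp) i2, hinc _ _ (by simp) i4,
          hinc _ _ (by simp) i3⟩
        ext x
        obtain ⟨u, rfl⟩ := φ.surjective x
        have hmem : φ u ∈ (Up φ 2 (3 - 2))ᶜ ↔ ¬ Rem (m := m) (n := n) 2 1 u := by
          show ¬ Rem (m := m) (n := n) 2 (3 - 2) (φ.symm (φ u)) ↔ _
          rw [Equiv.symm_apply_apply]
        rw [hmem]
        simp only [Set.mem_insert_iff, Set.mem_singleton_iff, φ.injective.eq_iff]
        cases u with
        | inr a =>
          constructor
          · intro h5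
            have h6 : a.val < 1 := not_le.mp h5
            right; right
            congr 1
            exact Fin.ext (by show a.val = 0; omega)
          · rintro (h5 | h5 | h5)
            · simp at h5
            · simp at h5
            · rw [Sum.inr_injective h5]
              intro h6
              have h7 : 1 ≤ 0 := h6
              omega
        | inl b =>
          constructor
          · intro h5
            have h6 : b.val < 2 := not_le.mp h5
            by_cases hb0 : b.val = 0
            · left
              congr 1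
              exact Fin.ext hb0
            · right; left
              congr 1
              exact Fin.ext (by show b.val = 1; omega)
          · rintro (h5 | h5 | h5)
            · rw [Sum.inl_injective h5]
              intro h6
              have h7 : 2 ≤ 0 := h6
              omega
            · rw [Sum.inl_injective h5]
              intro h6
              have h7 : 2 ≤ 1 := h6
              omega
            · simp at h5
  · -- one minimal element
    have hs : S.lo 1 = S.hi 1 := by omega
    apply hstep 1 (S.lo 1) (by omega) hpos ((hnode 1 _ hpos).mpr ⟨le_refl _, hle1⟩)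
    · intro i' hi'
      have := (hnode 1 i' hpos).mp hi'
      omega
    · left
      have hnd := (hnode 1 (S.lo 1) hpos).mpr ⟨le_refl _, hle1⟩
      rcases hlo1 with h5 | h5
      · rw [h5] at hnd ⊢
        have hn0 : 0 < n := hnd.2.2.1
        refine ⟨φ (Sum.inr ⟨0, hn0⟩), ?_⟩
        ext x
        obtain ⟨u, rfl⟩ := φ.surjective x
        have hmem : φ u ∈ (Up φ 0 (1 - 0))ᶜ ↔ ¬ Rem (m := m) (n := n) 0 1 u := by
          show ¬ Rem (m := m) (n := n) 0 (1 - 0) (φ.symm (φ u)) ↔ _
          rw [Equiv.symm_apply_apply]
        rw [hmem, Set.mem_singleton_iff, φ.injective.eq_iff]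
        cases u with
        | inl a =>
          constructor
          · intro h6
            exact absurd (Nat.zero_le _) h6
          · intro h6; simp at h6
        | inr b =>
          constructor
          · intro h6
            have h7 : b.val < 1 := not_le.mp h6
            congr 1
            exact Fin.ext (by show b.val = 0; omega)
          · intro h6
            rw [Sum.inr_injective h6]
            intro h7
            have h8 : 1 ≤ 0 := h7
            omega
      · rw [h5] at hnd ⊢
        have hm0 : 0 < m := hnd.2.1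
        refine ⟨φ (Sum.inl ⟨0, hm0⟩), ?_⟩
        ext x
        obtain ⟨u, rfl⟩ := φ.surjective x
        have hmem : φ u ∈ (Up φ 1 (1 - 1))ᶜ ↔ ¬ Rem (m := m) (n := n) 1 0 u := by
          show ¬ Rem (m := m) (n := n) 1 (1 - 1) (φ.symm (φ u)) ↔ _
          rw [Equiv.symm_apply_apply]
        rw [hmem, Set.mem_singleton_iff, φ.injective.eq_iff]
        cases u with
        | inr a =>
          constructor
          · intro h6
            exact absurd (Nat.zero_le _) h6
          · intro h6; simp at h6
        | inl b =>
          constructor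
          · intro h6
            have h7 : b.val < 1 := not_le.mp h6
            congr 1
            exact Fin.ext (by show b.val = 0; omega)
          · intro h6
            rw [Sum.inl_injective h6]
            intro h7
            have h8 : 1 ≤ 0 := h7
            omega

end Pool.Agent.Gap
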